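import Pool.Agent.Helper2_XG.FP

/-!
# Derived closure properties of `FP`
-/

set_option autoImplicit false

namespace Pool.Agent.H2XG

open Turing Function Computability StateTransition Pool.Agent.Helper32_Poly Pool.Agent.UT
open Pool.Agent.Helper53_CookLevin (scan scan_append size size_cons length_le_size size_rename)

section

variable {C : Type}

theorem FP.congr {m : ℕ} {F G : (Fin m → List C) → List C} (h : FP m F) (e : ∀ ρ, G ρ = F ρ) :
    FP m G := by
  have : G = F := funext e
  rw [this]
  exact h

theorem scan_singleton : ∀ (p l : List C), scan (fun _ c => [c]) p l = l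
  | _, [] => rfl
  | p, c :: l => by simp [scan, scan_singleton (p ++ [c]) l]

theorem FP.var {m : ℕ} (j : Fin m) : FP m (fun ρ : Fin m → List C => ρ j) :=
  (FP.loop j (fun c _ => [c]) (fun c => .const [c])).congr fun ρ => by
    rw [scan_singleton]

/-- composition -/
theorem FP.comp_aux : ∀ (k n : ℕ) (F : (Fin k → List C) → (Fin n → List C) → List C)
    (_ : FP (k + n) (fun σ => F (σ ∘ Fin.castAdd n) (σ ∘ Fin.natAdd k)))
    (G : Fin k → (Fin n → List C) → List C) (_ : ∀ i, FP n (G i)),
    FP n (fun ρ => F (fun i => G i ρ) ρ)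
  | 0, n, F, hF, G, _ => by
    have h := FP.rename (m' := n) (fun i : Fin (0 + n) => Fin.cast (Nat.zero_add n) i) hF
    refine h.congr fun ρ => ?_
    congr 1
    · funext i; exact i.elim0
    · funext i
      simp [Function.comp_def]
  | k + 1, n, F, hF, G, hG => by
    have h1 := FP.comp_aux k (n + 1)
      (fun y ρ => F (Matrix.vecCons (ρ 0) y) (fun i => ρ i.succ))
      (by
        have h := FP.rename (m' := k + (n + 1)) (fun i : Fin (k + 1 + n) =>
          Fin.addCases (fun j : Fin (k + 1) => Fin.cases (Fin.natAdd k 0)
            (fun j => Fin.castAdd (n + 1) j) j) (fun j : Fin n => Fin.natAdd k j.succ) i) hF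
        refine h.congr fun σ => ?_
        congr 1
        · funext i
          refine Fin.cases ?_ (fun i => ?_) i
          · simp [Function.comp_def]
          · simp [Function.comp_def]
        · funext i
          simp [Function.comp_def])
      (fun i ρ => G i.succ (fun i => ρ i.succ))
      (fun i => FP.rename (m' := n + 1) Fin.succ (hG i.succ))
    refine (FP.letw (hG 0) h1).congr fun ρ => ?_
    congr 1
    funext i
    refine Fin.cases ?_ (fun i => ?_) i <;> simp

theorem FP.comp {k m : ℕ} {F : (Fin k → List C) → List C} (hF : FP k F)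
    {G : Fin k → (Fin m → List C) → List C} (hG : ∀ i, FP m (G i)) :
    FP m (fun ρ => F (fun i => G i ρ)) :=
  FP.comp_aux k m (fun y _ => F y) (FP.rename (m' := k + m) (Fin.castAdd m) hF) G hG

theorem FP.comp1 {m : ℕ} {F : (Fin 1 → List C) → List C} (hF : FP 1 F)
    {G : (Fin m → List C) → List C} (hG : FP m G) : FP m (fun ρ => F ![G ρ]) :=
  (hF.comp (G := fun _ => G) (fun _ => hG)).congr fun ρ => by
    congr 1; funext i; fin_cases i; rfl

theorem FP.comp2 {m : ℕ} {F : (Fin 2 → List C) → List C} (hF : FP 2 F)
    {G H : (Fin m → List C) → List C} (hG : FP m G) (hH : FP m H) :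
    FP m (fun ρ => F ![G ρ, H ρ]) :=
  (hF.comp (G := ![G, H]) (fun i => by fin_cases i <;> assumption)).congr fun ρ => by
    congr 1; funext i; fin_cases i <;> rfl

theorem FP.comp3 {m : ℕ} {F : (Fin 3 → List C) → List C} (hF : FP 3 F)
    {G H K : (Fin m → List C) → List C} (hG : FP m G) (hH : FP m H) (hK : FP m K) :
    FP m (fun ρ => F ![G ρ, H ρ, K ρ]) :=
  (hF.comp (G := ![G, H, K]) (fun i => by fin_cases i <;> assumption)).congr fun ρ => by
    congr 1; funext i; fin_cases i <;> rfl

theorem FP.comp4 {m : ℕ} {F : (Fin 4 → List C) → List C} (hF : FP 4 F)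
    {G H K L : (Fin m → List C) → List C} (hG : FP m G) (hH : FP m H) (hK : FP m K)
    (hL : FP m L) :
    FP m (fun ρ => F ![G ρ, H ρ, K ρ, L ρ]) :=
  (hF.comp (G := ![G, H, K, L]) (fun i => by fin_cases i <;> assumption)).congr fun ρ => by
    congr 1; funext i; fin_cases i <;> rfl

/-- one more variable which is not used -/
theorem FP.weak {m : ℕ} {F : (Fin m → List C) → List C} (hF : FP m F) :
    FP (m + 1) (fun ρ => F (fun i => ρ i.succ)) :=
  FP.rename (m' := m + 1) Fin.succ hF

/-- the second variable is not used -/
theorem FP.weak1 {m : ℕ} {F : (Fin (m + 1) → List C) → List C} (hF : FP (m + 1) F) :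
    FP (m + 2) (fun ρ => F (Matrix.vecCons (ρ 0) (fun i => ρ i.succ.succ))) :=
  (FP.rename (m' := m + 2) (fun i => Fin.cases 0 (fun i => i.succ.succ) i) hF).congr fun ρ => by
    congr 1; funext i; refine Fin.cases ?_ (fun i => ?_) i <;> simp

/-- the third variable is not used -/
theorem FP.weak2 {m : ℕ} {F : (Fin (m + 2) → List C) → List C} (hF : FP (m + 2) F) :
    FP (m + 3) (fun ρ => F (Matrix.vecCons (ρ 0) (Matrix.vecCons (ρ 1)
      (fun i => ρ i.succ.succ.succ)))) :=
  (FP.rename (m' := m + 3) (fun i => Fin.cases 0 (fun i => Fin.cases 1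
    (fun i => i.succ.succ.succ) i) i) hF).congr fun ρ => by
    congr 1; funext i; refine Fin.cases ?_ (fun i => ?_) i
    · simp
    · refine Fin.cases ?_ (fun i => ?_) i
      · simp only [Matrix.cons_val_succ, Matrix.cons_val_zero]
        rfl
      · simp

/-- loop over the letters of a word -/
theorem FP.scanOver {m : ℕ} {A : (Fin m → List C) → List C} (hA : FP m A)
    {F : C → (Fin (m + 1) → List C) → List C} (hF : ∀ c, FP (m + 1) (F c)) :
    FP m (fun ρ => scan (fun p c => F c (Matrix.vecCons p ρ)) [] (A ρ)) :=
  (FP.letw hA (FP.loop (m := m + 1) 0 (fun c ρ => F c (Matrix.vecCons (ρ 0)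
    (fun i => ρ i.succ.succ))) (fun c => (hF c).weak1))).congr fun ρ => by
    simp only [Matrix.cons_val_zero, Matrix.cons_val_succ]

theorem scan_flatMap (f : C → List C) : ∀ (p l : List C),
    scan (fun _ c => f c) p l = l.flatMap f
  | _, [] => rfl
  | p, c :: l => by simp [scan, scan_flatMap f (p ++ [c]) l]

theorem FP.flatMap {m : ℕ} {A : (Fin m → List C) → List C} (hA : FP m A)
    {F : C → (Fin m → List C) → List C} (hF : ∀ c, FP m (F c)) :
    FP m (fun ρ => (A ρ).flatMap (fun c => F c ρ)) :=
  (hA.scanOver (F := fun c ρ => F c (fun i => ρ i.succ)) (fun c => (hF c).weak)).congr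
    fun ρ => by
      simp only [Matrix.cons_val_succ]
      rw [scan_flatMap]

theorem FP.map {m : ℕ} {A : (Fin m → List C) → List C} (hA : FP m A) (f : C → C) :
    FP m (fun ρ => (A ρ).map f) :=
  (hA.flatMap (F := fun c _ => [f c]) (fun c => .const [f c])).congr fun ρ => by
    rw [List.map_eq_flatMap]

/-- a letter for each letter -/
theorem FP.unary {m : ℕ} {A : (Fin m → List C) → List C} (hA : FP m A) (c : C) :
    FP m (fun ρ => List.replicate (A ρ).length c) :=
  (hA.map (fun _ => c)).congr fun ρ => by rw [List.map_const']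

theorem FP.caseLastOf {m : ℕ} {A : (Fin m → List C) → List C} (hA : FP m A)
    {F : Option C → (Fin m → List C) → List C} (hF : ∀ c, FP m (F c)) :
    FP m (fun ρ => F (A ρ).getLast? ρ) :=
  (FP.letw hA (FP.caseLast (m := m + 1) 0 (fun c ρ => F c (fun i => ρ i.succ))
    (fun c => (hF c).weak))).congr fun ρ => by
    simp only [Matrix.cons_val_zero, Matrix.cons_val_succ]

/-- case distinction: is the word empty? -/
theorem FP.iteNil {m : ℕ} {A G H : (Fin m → List C) → List C} (hA : FP m A) (hG : FP m G)
    (hH : FP m H) : FP m (fun ρ => if A ρ = [] then G ρ else H ρ) :=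
  (hA.caseLastOf (F := fun o ρ => match o with
    | none => G ρ
    | some _ => H ρ) (fun c => by cases c <;> assumption)).congr fun ρ => by
    rcases h : (A ρ).getLast? with _ | c
    · simp only
      rw [if_pos (List.getLast?_eq_none_iff.1 h)]
    · simp only
      rw [if_neg (fun h' => by rw [h'] at h; simp at h)]

theorem FP.dropLen {m : ℕ} {A B : (Fin m → List C) → List C} (hA : FP m A) (hB : FP m B) :
    FP m (fun ρ => (A ρ).drop (B ρ).length) :=
  (FP.comp2 (FP.drop (m := 2) 0 1) hA hB).congr fun ρ => by simp

theorem FP.dropN {m : ℕ} {A : (Fin m → List C) → List C} [Inhabited C] (hA : FP m A) (n : ℕ) :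
    FP m (fun ρ => (A ρ).drop n) :=
  (hA.dropLen (FP.const (List.replicate n default))).congr fun ρ => by simp

theorem FP.tail {m : ℕ} {A : (Fin m → List C) → List C} [Inhabited C] (hA : FP m A) :
    FP m (fun ρ => (A ρ).tail) :=
  (hA.dropN 1).congr fun ρ => by simp

theorem scan_take (n : ℕ) : ∀ (p l : List C),
    scan (fun p c => if p.length < n then [c] else []) p l = l.take (n - p.length)
  | _, [] => by simp [scan]
  | p, c :: l => by
    rw [scan, scan_take n (p ++ [c]) l]
    by_cases h : p.length < n
    · rw [if_pos h]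
      obtain ⟨k, hk⟩ : ∃ k, n - p.length = k + 1 := ⟨n - p.length - 1, by omega⟩
      rw [hk, List.take_succ_cons, List.length_append, List.length_singleton]
      have : n - (p.length + 1) = k := by omega
      rw [this]
      rfl
    · rw [if_neg h]
      have h1 : n - p.length = 0 := by omega
      have h2 : n - (p ++ [c]).length = 0 := by
        rw [List.length_append]; omega
      rw [h1, h2]
      simp

theorem FP.takeLen {m : ℕ} {A B : (Fin m → List C) → List C} (hA : FP m A) (hB : FP m B) :
    FP m (fun ρ => (A ρ).take (B ρ).length) :=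
  (hA.scanOver (F := fun c ρ => if (B fun i => ρ i.succ).drop (ρ 0).length = [] then [] else [c])
    (fun c => FP.iteNil (hB.weak.dropLen (FP.var 0)) (.const []) (.const [c]))).congr
    fun ρ => by
      have h := scan_take (B ρ).length [] (A ρ)
      rw [List.length_nil, Nat.sub_zero] at h
      rw [← h]
      congr 1
      funext p c
      simp only [Matrix.cons_val_zero, Matrix.cons_val_succ, List.drop_eq_nil_iff]
      by_cases h : p.length < (B ρ).length
      · rw [if_pos h, if_neg (by exact not_le.2 h)]
      · rw [if_neg h, if_pos (by exact not_lt.1 h)]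

theorem FP.takeN {m : ℕ} {A : (Fin m → List C) → List C} [Inhabited C] (hA : FP m A) (n : ℕ) :
    FP m (fun ρ => (A ρ).take n) :=
  (hA.takeLen (FP.const (List.replicate n default))).congr fun ρ => by simp

/-- the product of lengths -/
theorem FP.mulW {m : ℕ} {A B : (Fin m → List C) → List C} (hA : FP m A) (hB : FP m B) :
    FP m (fun ρ => (A ρ).flatMap (fun _ => B ρ)) :=
  hA.flatMap (F := fun _ ρ => B ρ) (fun _ => hB)

theorem length_flatMap_const (A B : List C) :
    (A.flatMap (fun _ => B)).length = A.length * B.length := by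
  induction A with
  | nil => simp
  | cons a A ih => rw [List.flatMap_cons, List.length_append, ih, List.length_cons]; ring

theorem FP.vars {m : ℕ} : ∀ L : List (Fin m), FP m (fun ρ : Fin m → List C => (L.map ρ).flatten)
  | [] => .const []
  | j :: L => ((FP.var j).append (FP.vars L)).congr fun ρ => by simp

/-- all variables in a row -/
theorem FP.all {m : ℕ} : FP m (fun ρ : Fin m → List C => ((List.finRange m).map ρ).flatten) :=
  FP.vars _

theorem length_all {m : ℕ} (ρ : Fin m → List C) :
    (((List.finRange m).map ρ).flatten).length = size ρ := by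
  unfold size
  rw [List.length_flatten, List.map_map, ← List.ofFn_eq_map, List.sum_ofFn]
  rfl

theorem FP.poly [Inhabited C] {m : ℕ} {A : (Fin m → List C) → List C} (hA : FP m A)
    (q : Polynomial ℕ) :
    ∃ W : (Fin m → List C) → List C, FP m W ∧ ∀ ρ, (W ρ).length = q.eval (A ρ).length := by
  induction q using Polynomial.induction_on' with
  | add p q hp hq =>
    obtain ⟨V, hV, hV'⟩ := hp
    obtain ⟨W, hW, hW'⟩ := hq
    exact ⟨_, hV.append hW, fun ρ => by
      rw [List.length_append, hV', hW', Polynomial.eval_add]⟩
  | monomial n a =>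
    have h : ∀ n : ℕ, ∃ W : (Fin m → List C) → List C, FP m W ∧
        ∀ ρ, (W ρ).length = (A ρ).length ^ n := by
      intro n
      induction n with
      | zero => exact ⟨_, .const [default], fun ρ => by simp⟩
      | succ n ih =>
        obtain ⟨W, hW, hW'⟩ := ih
        exact ⟨_, hW.mulW hA, fun ρ => by
          rw [length_flatMap_const, hW', pow_succ]⟩
    obtain ⟨W, hW, hW'⟩ := h n
    exact ⟨_, (FP.const (List.replicate a default)).mulW hW, fun ρ => by
      rw [length_flatMap_const, hW', List.length_replicate, Polynomial.eval_monomial]⟩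

/-- a word of polynomial length -/
theorem FP.polySize [Inhabited C] {m : ℕ} (q : Polynomial ℕ) :
    ∃ W : (Fin m → List C) → List C, FP m W ∧ ∀ ρ, (W ρ).length = q.eval (size ρ) := by
  obtain ⟨W, hW, h⟩ := (FP.all (C := C) (m := m)).poly q
  exact ⟨W, hW, fun ρ => by rw [h, length_all]⟩

/-- a fold with clipped states -/
theorem FP.foldClip [Fintype C] [Inhabited C] {m : ℕ} {A : (Fin m → List C) → List C}
    (hA : FP m A)
    {F : C → (Fin (m + 2) → List C) → List C} (hF : ∀ c, FP (m + 2) (F c))
    {G : (Fin m → List C) → List C} (hG : FP m G)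
    {W : (Fin m → List C) → List C} (hW : FP m W) :
    FP m (fun ρ =>
        foldS (fun c p w => (F c (Matrix.vecCons w (Matrix.vecCons p ρ))).take (W ρ).length)
          ((G ρ).take (W ρ).length) [] (A ρ)) := by
  obtain ⟨b, hb⟩ := hW.weak.bound
  have hF' : ∀ c, FP (m + 3) (fun ρ : Fin (m + 3) → List C => (F c (Matrix.vecCons (ρ 0)
    (Matrix.vecCons (ρ 1) (fun i => ρ i.succ.succ.succ)))).take
      (W fun i => ρ i.succ.succ.succ).length) :=
    fun c => (hF c).weak2.takeLen hW.weak.weak.weak
  have h := FP.fold (m := m + 1) 0 _ _ b hF' ((hG.weak).takeLen hW.weak) (by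
    intro ρ d l hd
    rcases List.eq_nil_or_concat d with rfl | ⟨d', c, rfl⟩
    · simp only [foldS, List.length_take]
      exact (Nat.min_le_left _ _).trans (hb ρ)
    · rw [List.concat_eq_append, foldS_append]
      simp only [foldS, List.length_take]
      exact (Nat.min_le_left _ _).trans (hb ρ))
  exact (FP.letw hA h).congr fun ρ => rfl

theorem foldS_congr (F F' : C → List C → List C → List C) (g : List C) :
    ∀ (w d : List C), (∀ (c : C) (d l : List C), d ++ c :: l = w →
      F c d (foldS F g [] d) = F' c d (foldS F g [] d)) →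
    ∀ l, d ++ l = w → foldS F g [] d = foldS F' g [] d := by
  intro w d
  induction d using List.reverseRecOn with
  | nil => intro _ _ _; rfl
  | append_singleton d c ih =>
    intro h l hl
    have h1 := ih h (c :: l) (by simpa using hl)
    rw [foldS_append, foldS_append, ← h1]
    simp only [foldS, List.nil_append]
    exact h c d l (by simpa using hl)

/-- fold over the letters of a word -/
theorem FP.foldOver [Fintype C] [Inhabited C] {m : ℕ} {A : (Fin m → List C) → List C}
    (hA : FP m A)
    {F : C → (Fin (m + 2) → List C) → List C} (hF : ∀ c, FP (m + 2) (F c))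
    {G : (Fin m → List C) → List C} (hG : FP m G) (B : Polynomial ℕ)
    (hB : ∀ (ρ : Fin m → List C) (d l : List C), d ++ l = A ρ →
        (foldS (fun c p w => F c (Matrix.vecCons w (Matrix.vecCons p ρ))) (G ρ) [] d).length ≤
          B.eval (size ρ)) :
    FP m (fun ρ =>
        foldS (fun c p w => F c (Matrix.vecCons w (Matrix.vecCons p ρ))) (G ρ) [] (A ρ)) := by
  obtain ⟨W, hW, hW'⟩ := FP.polySize (C := C) (m := m) B
  refine (hA.foldClip hF hG hW).congr fun ρ => ?_
  have h0 : (G ρ).take (W ρ).length = G ρ := by
    rw [List.take_of_length_le]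
    rw [hW']
    exact hB ρ [] (A ρ) rfl
  rw [h0]
  refine foldS_congr _ _ _ (A ρ) (A ρ) ?_ [] (by simp)
  intro c d l hd
  have h1 := hB ρ (d ++ [c]) l (by simpa using hd)
  rw [foldS_append] at h1
  simp only [foldS, List.nil_append] at h1
  rw [List.take_of_length_le]
  rw [hW']
  exact h1

/-- iteration -/
theorem FP.iterate [Fintype C] [Inhabited C] {m : ℕ} {N G : (Fin m → List C) → List C}
    (hN : FP m N) (hG : FP m G) {F : (Fin (m + 1) → List C) → List C} (hF : FP (m + 1) F)
    (B : Polynomial ℕ)
    (hB : ∀ (ρ : Fin m → List C) (n : ℕ), n ≤ (N ρ).length →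
      ((fun w => F (Matrix.vecCons w ρ))^[n] (G ρ)).length ≤ B.eval (size ρ)) :
    FP m (fun ρ => (fun w => F (Matrix.vecCons w ρ))^[(N ρ).length] (G ρ)) := by
  have key : ∀ (f : List C → List C) (g d : List C),
      foldS (fun _ _ w => f w) g [] d = f^[d.length] g := by
    intro f g d
    induction d using List.reverseRecOn with
    | nil => rfl
    | append_singleton d c ih =>
      rw [foldS_append, ih, List.length_append, List.length_singleton,
        Function.iterate_succ_apply']
      rfl
  have h := hN.foldOver (F := fun _ σ => F (Matrix.vecCons (σ 0) (fun i => σ i.succ.succ)))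
    (fun _ => hF.weak1) hG B (by
      intro ρ d l hd
      have h1 := hB ρ d.length (by rw [← hd, List.length_append]; omega)
      rw [← key] at h1
      exact h1)
  refine h.congr fun ρ => ?_
  rw [← key]
  rfl

/-- reversal -/
theorem FP.reverse [Fintype C] [Inhabited C] {m : ℕ} {A : (Fin m → List C) → List C}
    (hA : FP m A) : FP m (fun ρ => (A ρ).reverse) := by
  have key : ∀ d : List C, foldS (fun c _ w => [c] ++ w) [] [] d = d.reverse := by
    intro d
    induction d using List.reverseRecOn with
    | nil => rfl
    | append_singleton d c ih =>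
      rw [foldS_append, ih]
      simp [foldS]
  obtain ⟨b, hb⟩ := hA.bound
  have h := hA.foldOver (F := fun c σ => [c] ++ σ 0) (fun c => (FP.const [c]).append (FP.var 0))
    (FP.const []) b (by
      intro ρ d l hd
      have h1 := hb ρ
      rw [← hd, List.length_append] at h1
      have h2 := congrArg List.length (key d)
      rw [List.length_reverse] at h2
      simp only [Matrix.cons_val_zero]
      omega)
  refine h.congr fun ρ => ?_
  rw [← key]
  rfl

/-- case distinction on the first letter -/
theorem FP.caseHead [Fintype C] [Inhabited C] {m : ℕ} {A : (Fin m → List C) → List C}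
    (hA : FP m A) {F : Option C → (Fin m → List C) → List C} (hF : ∀ c, FP m (F c)) :
    FP m (fun ρ => F (A ρ).head? ρ) :=
  (hA.reverse.caseLastOf hF).congr fun ρ => by rw [List.getLast?_reverse]

/-! ### Boolean functions -/

/-- Boolean functions -/
def FPB [Inhabited C] (m : ℕ) (b : (Fin m → List C) → Bool) : Prop :=
  FP m (fun ρ => if b ρ then [default] else [])

section Bools

variable [Fintype C] [Inhabited C] {m : ℕ}

omit [Fintype C] in
theorem FPB.congr {a b : (Fin m → List C) → Bool} (h : FPB m a) (e : ∀ ρ, b ρ = a ρ) :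
    FPB m b := by
  have : b = a := funext e
  rw [this]
  exact h

omit [Fintype C] in
theorem FP.ite {b : (Fin m → List C) → Bool} (hb : FPB m b) {G H : (Fin m → List C) → List C}
    (hG : FP m G) (hH : FP m H) : FP m (fun ρ => if b ρ then G ρ else H ρ) :=
  (FP.iteNil hb hH hG).congr fun ρ => by
    by_cases h : b ρ = true
    · rw [if_pos h, if_neg (by rw [if_pos h]; simp)]
    · rw [if_neg h, if_pos (by rw [if_neg h])]

omit [Fintype C] in
theorem FPB.const (b : Bool) : FPB (C := C) m (fun _ => b) := by
  unfold FPB
  cases b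
  · exact FP.const []
  · exact FP.const [default]

omit [Fintype C] in
theorem FPB.not {a : (Fin m → List C) → Bool} (ha : FPB m a) : FPB m (fun ρ => !a ρ) :=
  (FP.ite ha (FP.const []) (FP.const [default])).congr fun ρ => by
    rcases h : a ρ <;> simp [h]

omit [Fintype C] in
theorem FPB.and {a b : (Fin m → List C) → Bool} (ha : FPB m a) (hb : FPB m b) :
    FPB m (fun ρ => a ρ && b ρ) :=
  (FP.ite ha hb (FP.const [])).congr fun ρ => by rcases h : a ρ <;> simp [h]

omit [Fintype C] in
theorem FPB.or {a b : (Fin m → List C) → Bool} (ha : FPB m a) (hb : FPB m b) :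
    FPB m (fun ρ => a ρ || b ρ) :=
  (FP.ite ha (FP.const [default]) hb).congr fun ρ => by rcases h : a ρ <;> simp [h]

omit [Fintype C] in
theorem FPB.xor {a b : (Fin m → List C) → Bool} (ha : FPB m a) (hb : FPB m b) :
    FPB m (fun ρ => Bool.xor (a ρ) (b ρ)) :=
  (FP.ite ha hb.not hb).congr fun ρ => by
    rcases h : a ρ <;> rcases h' : b ρ <;> simp [h, h']

omit [Fintype C] in
theorem FPB.nil {A : (Fin m → List C) → List C} (hA : FP m A) :
    FPB m (fun ρ => (A ρ).isEmpty) :=
  (hA.iteNil (FP.const [default]) (FP.const [])).congr fun ρ => by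
    rcases h : A ρ <;> simp [h]

omit [Fintype C] in
/-- comparison of lengths -/
theorem FPB.le {A B : (Fin m → List C) → List C} (hA : FP m A) (hB : FP m B) :
    FPB m (fun ρ => decide ((A ρ).length ≤ (B ρ).length)) :=
  (FPB.nil (hA.dropLen hB)).congr fun ρ => by
    rw [Bool.eq_iff_iff]
    simp

omit [Fintype C] in
theorem FPB.lt {A B : (Fin m → List C) → List C} (hA : FP m A) (hB : FP m B) :
    FPB m (fun ρ => decide ((A ρ).length < (B ρ).length)) :=
  (FPB.le hB hA).not.congr fun ρ => by
    rw [Bool.eq_iff_iff]
    simp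

omit [Fintype C] in
theorem FPB.lenEq {A B : (Fin m → List C) → List C} (hA : FP m A) (hB : FP m B) :
    FPB m (fun ρ => decide ((A ρ).length = (B ρ).length)) :=
  ((FPB.le hA hB).and (FPB.le hB hA)).congr fun ρ => by
    rw [Bool.eq_iff_iff]
    simp only [decide_eq_true_eq, Bool.and_eq_true]
    omega

/-- test of the first letter -/
theorem FPB.head {A : (Fin m → List C) → List C} (hA : FP m A) (P : Option C → Bool) :
    FPB m (fun ρ => P (A ρ).head?) :=
  (hA.caseHead (F := fun o _ => if P o then [default] else []) (fun c => .const _)).congr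
    fun ρ => rfl

omit [Fintype C] in
/-- test of the last letter -/
theorem FPB.last {A : (Fin m → List C) → List C} (hA : FP m A) (P : Option C → Bool) :
    FPB m (fun ρ => P (A ρ).getLast?) :=
  (hA.caseLastOf (F := fun o _ => if P o then [default] else []) (fun c => .const _)).congr
    fun ρ => rfl

/-- test of the letter with a given number -/
theorem FPB.get {A B : (Fin m → List C) → List C} (hA : FP m A) (hB : FP m B)
    (P : Option C → Bool) : FPB m (fun ρ => P (A ρ)[(B ρ).length]?) :=
  (FPB.head (hA.dropLen hB) P).congr fun ρ => by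
    rw [List.head?_drop]

open Classical in
/-- does some letter (with its prefix) satisfy the test? -/
theorem FPB.any {A : (Fin m → List C) → List C} (hA : FP m A)
    {b : C → (Fin (m + 1) → List C) → Bool} (hb : ∀ c, FPB (m + 1) (b c)) :
    FPB m (fun ρ => decide (∃ (d l : List C) (c : C), d ++ c :: l = A ρ ∧
      b c (Matrix.vecCons d ρ) = true)) := by
  have h := (FPB.nil (hA.scanOver (F := fun c σ => if b c σ then [default] else []) hb)).not
  refine h.congr fun ρ => ?_
  have key : ∀ (l p : List C), scan (fun p c => if b c (Matrix.vecCons p ρ) then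
      [default (α := C)] else []) p l ≠ [] ↔ ∃ (d l' : List C) (c : C), d ++ c :: l' = l ∧
      b c (Matrix.vecCons (p ++ d) ρ) = true := by
    intro l
    induction l with
    | nil => intro p; simp [scan]
    | cons c l ih =>
      intro p
      rw [scan]
      constructor
      · intro h
        by_cases hc : b c (Matrix.vecCons p ρ) = true
        · exact ⟨[], l, c, rfl, by simpa using hc⟩
        · rw [if_neg hc, List.nil_append] at h
          obtain ⟨d, l', c', h1, h2⟩ := (ih (p ++ [c])).1 h
          exact ⟨c :: d, l', c', by rw [← h1]; rfl, by simpa using h2⟩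
      · rintro ⟨d, l', c', h1, h2⟩
        rcases d with _ | ⟨a, d⟩
        · simp only [List.nil_append, List.cons.injEq] at h1
          obtain ⟨rfl, rfl⟩ := h1
          rw [List.append_nil] at h2
          rw [if_pos h2]
          simp
        · simp only [List.cons_append, List.cons.injEq] at h1
          obtain ⟨rfl, h1⟩ := h1
          have := (ih (p ++ [a])).2 ⟨d, l', c', h1, by simpa using h2⟩
          intro h
          rw [List.append_eq_nil_iff] at h
          exact this h.2
  have k := key (A ρ) []
  simp only [List.nil_append] at k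
  rw [Bool.eq_iff_iff, decide_eq_true_iff, ← k]
  simp [List.isEmpty_iff]

/-- equality of words -/
theorem FPB.eq [DecidableEq C] {A B : (Fin m → List C) → List C} (hA : FP m A) (hB : FP m B) :
    FPB m (fun ρ => decide (A ρ = B ρ)) := by
  have h := ((FPB.lenEq hA hB).and (FPB.any hA (b := fun c σ =>
    !(decide ((B fun i => σ i.succ)[(σ 0).length]? = some c))) (fun c =>
      (FPB.get hB.weak (FP.var 0) (fun o => decide (o = some c))).not)).not)
  refine h.congr fun ρ => ?_
  rw [Bool.eq_iff_iff, decide_eq_true_iff, Bool.and_eq_true, decide_eq_true_iff,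
    Bool.not_eq_true', decide_eq_false_iff_not]
  constructor
  · intro h
    refine ⟨by rw [h], ?_⟩
    rintro ⟨d, l, c, hd, h2⟩
    simp only [Matrix.cons_val_zero, Matrix.cons_val_succ, Bool.not_eq_true',
      decide_eq_false_iff_not] at h2
    apply h2
    change (B ρ)[d.length]? = some c
    rw [← h, ← hd]
    simp
  · rintro ⟨h1, h2⟩
    refine List.ext_getElem? fun i => ?_
    by_cases hi : i < (A ρ).length
    · by_contra hne
      apply h2
      refine ⟨(A ρ).take i, (A ρ).drop (i + 1), (A ρ)[i],
        by rw [← List.drop_eq_getElem_cons hi, List.take_append_drop], ?_⟩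
      simp only [Matrix.cons_val_zero, Matrix.cons_val_succ, Bool.not_eq_true',
        decide_eq_false_iff_not]
      rw [List.length_take_of_le hi.le]
      intro h3
      apply hne
      rw [List.getElem?_eq_getElem hi]
      exact h3.symm
    · rw [List.getElem?_eq_none (by omega), List.getElem?_eq_none (by omega)]

end Bools

end

end Pool.Agent.H2XG
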