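import Pool.Agent.Helper2_XG.Clk

/-!
# Unary number functions

`FPN m f`: the number `f ρ`, written in unary, is computed by a function of the class `FP`.
-/

set_option autoImplicit false

namespace Pool.Agent.H2XG

open Finset Function
open Pool.Agent.Helper53_CookLevin (scan scan_append size size_cons length_le_size size_rename)

/-- the unary word of length `n` -/
abbrev un {C : Type} [Inhabited C] (n : ℕ) : List C := List.replicate n default

/-- number functions -/
def FPN {C : Type} [Inhabited C] (m : ℕ) (f : (Fin m → List C) → ℕ) : Prop :=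
  FP m (fun ρ => un (f ρ))

section

variable {C : Type} [Fintype C] [Inhabited C] {m : ℕ}

omit [Fintype C] in
theorem FPN.congr {f g : (Fin m → List C) → ℕ} (h : FPN m f) (e : ∀ ρ, g ρ = f ρ) :
    FPN m g := by
  have : g = f := funext e
  rw [this]
  exact h

omit [Fintype C] in
theorem FPN.word {f : (Fin m → List C) → ℕ} (h : FPN m f) : FP m (fun ρ => un (f ρ)) := h

omit [Fintype C] in
theorem FPN.len {A : (Fin m → List C) → List C} (hA : FP m A) :
    FPN m (fun ρ => (A ρ).length) := hA.unary default

omit [Fintype C] in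
/-- the length of a variable -/
theorem FPN.var (j : Fin m) : FPN m (fun ρ : Fin m → List C => (ρ j).length) :=
  FPN.len (FP.var j)

omit [Fintype C] in
theorem FPN.const (n : ℕ) : FPN (C := C) m (fun _ => n) := FP.const _

omit [Fintype C] in
theorem FPN.weak {f : (Fin m → List C) → ℕ} (h : FPN m f) :
    FPN (m + 1) (fun ρ => f (fun i => ρ i.succ)) := FP.weak h

omit [Fintype C] in
theorem FPB.weak {b : (Fin m → List C) → Bool} (h : FPB m b) :
    FPB (m + 1) (fun ρ => b (fun i => ρ i.succ)) := FP.weak h

omit [Fintype C] in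
theorem FPN.add {f g : (Fin m → List C) → ℕ} (hf : FPN m f) (hg : FPN m g) :
    FPN m (fun ρ => f ρ + g ρ) :=
  (FP.append hf hg).congr fun ρ => by rw [un, List.replicate_add]

omit [Fintype C] in
theorem FPN.mul {f g : (Fin m → List C) → ℕ} (hf : FPN m f) (hg : FPN m g) :
    FPN m (fun ρ => f ρ * g ρ) :=
  (FPN.len (FP.mulW hf hg)).congr fun ρ => by
    rw [length_flatMap_const, List.length_replicate, List.length_replicate]

omit [Fintype C] in
theorem FPN.sub {f g : (Fin m → List C) → ℕ} (hf : FPN m f) (hg : FPN m g) :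
    FPN m (fun ρ => f ρ - g ρ) :=
  (FPN.len (FP.dropLen hf hg)).congr fun ρ => by
    rw [List.length_drop, List.length_replicate, List.length_replicate]

omit [Fintype C] in
theorem FPN.ite {b : (Fin m → List C) → Bool} (hb : FPB m b) {f g : (Fin m → List C) → ℕ}
    (hf : FPN m f) (hg : FPN m g) : FPN m (fun ρ => if b ρ then f ρ else g ρ) :=
  (FP.ite hb hf hg).congr fun ρ => by beta_reduce; split_ifs <;> rfl

omit [Fintype C] in
theorem FPB.ite {b : (Fin m → List C) → Bool} (hb : FPB m b) {f g : (Fin m → List C) → Bool}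
    (hf : FPB m f) (hg : FPB m g) : FPB m (fun ρ => if b ρ then f ρ else g ρ) :=
  (FP.ite hb hf hg).congr fun ρ => by
    rcases h : b ρ <;> simp [h]

omit [Fintype C] in
theorem FPB.leN {f g : (Fin m → List C) → ℕ} (hf : FPN m f) (hg : FPN m g) :
    FPB m (fun ρ => decide (f ρ ≤ g ρ)) :=
  (FPB.le hf hg).congr fun ρ => by rw [List.length_replicate, List.length_replicate]

omit [Fintype C] in
theorem FPB.ltN {f g : (Fin m → List C) → ℕ} (hf : FPN m f) (hg : FPN m g) :
    FPB m (fun ρ => decide (f ρ < g ρ)) :=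
  (FPB.lt hf hg).congr fun ρ => by rw [List.length_replicate, List.length_replicate]

omit [Fintype C] in
theorem FPB.eqN {f g : (Fin m → List C) → ℕ} (hf : FPN m f) (hg : FPN m g) :
    FPB m (fun ρ => decide (f ρ = g ρ)) :=
  (FPB.lenEq hf hg).congr fun ρ => by rw [List.length_replicate, List.length_replicate]

omit [Fintype C] in
theorem FPN.ofBool {b : (Fin m → List C) → Bool} (hb : FPB m b) :
    FPN m (fun ρ => (b ρ).toNat) :=
  (FPN.ite hb (FPN.const 1) (FPN.const 0)).congr fun ρ => by rcases h : b ρ <;> simp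

omit [Fintype C] in
theorem FPN.min {f g : (Fin m → List C) → ℕ} (hf : FPN m f) (hg : FPN m g) :
    FPN m (fun ρ => min (f ρ) (g ρ)) :=
  (FPN.ite (FPB.leN hf hg) hf hg).congr fun ρ => by
    simp only [decide_eq_true_eq]; split_ifs <;> omega

omit [Fintype C] in
theorem FPN.max {f g : (Fin m → List C) → ℕ} (hf : FPN m f) (hg : FPN m g) :
    FPN m (fun ρ => max (f ρ) (g ρ)) :=
  (FPN.ite (FPB.leN hf hg) hg hf).congr fun ρ => by
    simp only [decide_eq_true_eq]; split_ifs <;> omega

omit [Fintype C] in
theorem FPN.pow {f : (Fin m → List C) → ℕ} (hf : FPN m f) : ∀ n : ℕ, FPN m (fun ρ => f ρ ^ n)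
  | 0 => (FPN.const 1).congr fun ρ => by simp
  | n + 1 => ((FPN.pow hf n).mul hf).congr fun ρ => by rw [pow_succ]

omit [Fintype C] in
theorem FPN.poly {f : (Fin m → List C) → ℕ} (hf : FPN m f) (q : Polynomial ℕ) :
    FPN m (fun ρ => q.eval (f ρ)) := by
  obtain ⟨W, hW, h⟩ := FP.poly hf q
  exact (FPN.len hW).congr fun ρ => by rw [h, List.length_replicate]

/-! ### Loops over ranges -/

omit [Fintype C] in
theorem scan_un (F : List C → List C) : ∀ (n k : ℕ),
    scan (fun p _ => F p) (un k) (un n : List C) =
      (List.range n).flatMap (fun i => F (un (k + i)))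
  | 0, k => by simp [scan]
  | n + 1, k => by
    have h := scan_un F n (k + 1)
    have e1 : (un (n + 1) : List C) = default :: un n := List.replicate_succ
    have e2 : (un k : List C) ++ [default] = un (k + 1) := (List.replicate_succ').symm
    rw [e1, scan, e2, h, List.range_succ_eq_map, List.flatMap_cons, List.flatMap_map]
    simp only [Nat.add_zero]
    congr 1
    congr 1
    funext i
    rw [show k + 1 + i = k + i.succ by omega]

omit [Fintype C] in
/-- concatenation over a range -/
theorem FP.range {N : (Fin m → List C) → ℕ} (hN : FPN m N)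
    {F : ℕ → (Fin m → List C) → List C}
    (hF : FP (m + 1) (fun σ => F (σ 0).length (fun i => σ i.succ))) :
    FP m (fun ρ => (List.range (N ρ)).flatMap (fun i => F i ρ)) :=
  (FP.scanOver hN (F := fun _ σ => F (σ 0).length (fun i => σ i.succ)) (fun _ => hF)).congr
    fun ρ => by
      have h := scan_un (fun p => F p.length ρ) (N ρ) 0
      simp only [Matrix.cons_val_zero, Matrix.cons_val_succ]
      rw [show ([] : List C) = un 0 from rfl, h]
      congr 1
      funext i
      rw [Nat.zero_add, List.length_replicate]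

omit [Fintype C] in
/-- the instance of a function at a number -/
theorem FP.inst {F : ℕ → (Fin m → List C) → List C}
    (hF : FP (m + 1) (fun σ => F (σ 0).length (fun i => σ i.succ)))
    {f : (Fin m → List C) → ℕ} (hf : FPN m f) : FP m (fun ρ => F (f ρ) ρ) :=
  (FP.letw hf hF).congr fun ρ => by
    simp only [Matrix.cons_val_zero, Matrix.cons_val_succ]
    rw [List.length_replicate]

omit [Fintype C] in
theorem FPN.inst {F : ℕ → (Fin m → List C) → ℕ}
    (hF : FPN (m + 1) (fun σ => F (σ 0).length (fun i => σ i.succ)))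
    {f : (Fin m → List C) → ℕ} (hf : FPN m f) : FPN m (fun ρ => F (f ρ) ρ) :=
  FP.inst (F := fun n ρ => un (F n ρ)) hF hf

omit [Fintype C] in
theorem FPB.inst {F : ℕ → (Fin m → List C) → Bool}
    (hF : FPB (m + 1) (fun σ => F (σ 0).length (fun i => σ i.succ)))
    {f : (Fin m → List C) → ℕ} (hf : FPN m f) : FPB m (fun ρ => F (f ρ) ρ) :=
  FP.inst (F := fun n ρ => if F n ρ then [default] else []) hF hf

omit [Fintype C] in
theorem flatMap_un (f : ℕ → ℕ) : ∀ l : List ℕ, l.flatMap (fun i => (un (f i) : List C)) =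
    un (l.map f).sum
  | [] => rfl
  | a :: l => by
    rw [List.flatMap_cons, flatMap_un f l, List.map_cons, List.sum_cons]
    exact (List.replicate_add ..).symm

omit [Fintype C] in
/-- sums over a range -/
theorem FPN.sum {N : (Fin m → List C) → ℕ} (hN : FPN m N) {f : ℕ → (Fin m → List C) → ℕ}
    (hf : FPN (m + 1) (fun σ => f (σ 0).length (fun i => σ i.succ))) :
    FPN m (fun ρ => ∑ i ∈ Finset.range (N ρ), f i ρ) :=
  (FP.range hN (F := fun i ρ => un (f i ρ)) hf).congr fun ρ => by
    beta_reduce
    rw [flatMap_un (fun i => f i ρ), Finset.sum_range, ← List.sum_ofFn, List.ofFn_eq_map,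
      ← List.map_coe_finRange_eq_range, List.map_map]
    rfl

omit [Fintype C] in
/-- counting in a range -/
theorem FPN.count {N : (Fin m → List C) → ℕ} (hN : FPN m N) {b : ℕ → (Fin m → List C) → Bool}
    (hb : FPB (m + 1) (fun σ => b (σ 0).length (fun i => σ i.succ))) :
    FPN m (fun ρ => (List.range (N ρ)).countP (fun i => b i ρ)) :=
  (FP.range hN (F := fun i ρ => un (b i ρ).toNat) (FPN.ofBool hb)).congr fun ρ => by
    rw [flatMap_un (fun i => (b i ρ).toNat)]
    beta_reduce
    congr 1
    induction List.range (N ρ) with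
    | nil => rfl
    | cons a l ih =>
      rw [List.countP_cons, ih, List.map_cons, List.sum_cons, add_comm]
      congr 1
      rcases h : b a ρ <;> simp

omit [Fintype C] in
theorem FPB.exRange {N : (Fin m → List C) → ℕ} (hN : FPN m N)
    {b : ℕ → (Fin m → List C) → Bool}
    (hb : FPB (m + 1) (fun σ => b (σ 0).length (fun i => σ i.succ))) :
    FPB m (fun ρ => decide (∃ i < N ρ, b i ρ = true)) :=
  (FPB.ltN (FPN.const 0) (FPN.count hN hb)).congr fun ρ => by
    rw [Bool.eq_iff_iff, decide_eq_true_iff, decide_eq_true_iff, List.countP_pos_iff]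
    simp only [List.mem_range]

omit [Fintype C] in
theorem FPB.allRange {N : (Fin m → List C) → ℕ} (hN : FPN m N)
    {b : ℕ → (Fin m → List C) → Bool}
    (hb : FPB (m + 1) (fun σ => b (σ 0).length (fun i => σ i.succ))) :
    FPB m (fun ρ => decide (∀ i < N ρ, b i ρ = true)) :=
  (FPB.exRange hN (b := fun i ρ => !b i ρ) hb.not).not.congr fun ρ => by
    rw [Bool.eq_iff_iff]
    simp

/-! ### Division -/

theorem div_eq_count (a b : ℕ) :
    a / b = if b = 0 then 0 else (List.range a).countP (fun k => decide ((k + 1) * b ≤ a)) := by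
  split_ifs with hb
  · subst hb; simp
  · have hb' : 0 < b := Nat.pos_of_ne_zero hb
    have e : (List.range a).countP (fun k => decide ((k + 1) * b ≤ a)) =
        (List.range a).countP (fun k => decide (k < a / b)) := by
      congr 1
      funext k
      rw [Bool.eq_iff_iff, decide_eq_true_iff, decide_eq_true_iff, ← Nat.le_div_iff_mul_le hb']
      rfl
    rw [e]
    have h : ∀ n c : ℕ, (List.range n).countP (fun k => decide (k < c)) = min c n := by
      intro n c
      induction n with
      | zero => simp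
      | succ n ih =>
        rw [List.range_succ, List.countP_append, ih, List.countP_singleton]
        simp only [decide_eq_true_eq]
        split_ifs <;> omega
    rw [h]
    exact (min_eq_left (Nat.div_le_self a b)).symm

omit [Fintype C] in
theorem FPN.div {f g : (Fin m → List C) → ℕ} (hf : FPN m f) (hg : FPN m g) :
    FPN m (fun ρ => f ρ / g ρ) :=
  (FPN.ite (FPB.eqN hg (FPN.const 0)) (FPN.const 0)
    (FPN.count hf (b := fun k ρ => decide ((k + 1) * g ρ ≤ f ρ))
      (FPB.leN (((FPN.var 0).add (FPN.const 1)).mul hg.weak) hf.weak))).congr fun ρ => by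
    beta_reduce
    rw [div_eq_count]
    simp only [decide_eq_true_eq]

omit [Fintype C] in
theorem FPN.mod {f g : (Fin m → List C) → ℕ} (hf : FPN m f) (hg : FPN m g) :
    FPN m (fun ρ => f ρ % g ρ) :=
  (hf.sub (hg.mul (hf.div hg))).congr fun ρ => by
    have h := Nat.mod_add_div (f ρ) (g ρ)
    exact Nat.eq_sub_of_add_eq h

/-! ### Powers -/

theorem min_mul_min (x a c : ℕ) : min (min x c * a) c = min (x * a) c := by
  rcases le_total x c with h | h
  · rw [min_eq_left h]
  · rw [min_eq_right h]
    rcases Nat.eq_zero_or_pos a with rfl | ha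
    · simp
    · have h1 : c ≤ c * a := Nat.le_mul_of_pos_right _ ha
      have h2 : c * a ≤ x * a := Nat.mul_le_mul_right _ h
      omega

/-- recursion with clipped values -/
theorem FPN.recClip {f g c : (Fin m → List C) → ℕ} {h : ℕ → ℕ → (Fin m → List C) → ℕ}
    (hf : FPN m f) (hg : FPN m g) (hc : FPN m c)
    (hh : FPN (m + 2) (fun σ => h (σ 1).length (σ 0).length (fun i => σ i.succ.succ))) :
    FPN m (fun ρ => Nat.rec (motive := fun _ => ℕ) (Min.min (g ρ) (c ρ))
      (fun n x => Min.min (h n x ρ) (c ρ)) (f ρ)) := by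
  have key := FP.foldClip hf (F := fun _ σ => un (h (σ 1).length (σ 0).length
    (fun i => σ i.succ.succ))) (fun _ => hh) hg hc
  refine key.congr fun ρ => ?_
  have h1 : ∀ n : ℕ, foldS (fun _ p w => (un (h p.length w.length ρ) : List C).take
      (un (c ρ) : List C).length) ((un (g ρ)).take (un (c ρ) : List C).length) []
        (un n : List C) = un (Nat.rec (motive := fun _ => ℕ) (Min.min (g ρ) (c ρ))
      (fun n x => Min.min (h n x ρ) (c ρ)) n) := by
    intro n
    induction n with
    | zero =>
      have e0 : (un 0 : List C) = [] := rfl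
      rw [e0]
      simp only [foldS]
      rw [List.length_replicate, List.take_replicate, min_comm (c ρ)]
      rfl
    | succ n ih =>
      have e1 : (un (n + 1) : List C) = un n ++ [default] := List.replicate_succ'
      rw [e1, foldS_append, ih]
      simp only [foldS, List.nil_append]
      rw [List.length_replicate, List.length_replicate, List.length_replicate,
        List.take_replicate, min_comm (c ρ)]
  exact (h1 (f ρ)).symm

/-- clipped powers -/
theorem FPN.powClip {f g c : (Fin m → List C) → ℕ} (hf : FPN m f) (hg : FPN m g)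
    (hc : FPN m c) : FPN m (fun ρ => Min.min (f ρ ^ g ρ) (c ρ)) := by
  have h := FPN.recClip (h := fun _ x ρ => x * f ρ) hg (FPN.const 1) hc
    ((FPN.var 0).mul hf.weak.weak)
  refine h.congr fun ρ => ?_
  have h1 : ∀ n : ℕ, (Nat.rec (motive := fun _ => ℕ) (Min.min 1 (c ρ))
      (fun _ x => Min.min (x * f ρ) (c ρ)) n) = Min.min (f ρ ^ n) (c ρ) := by
    intro n
    induction n with
    | zero => simp
    | succ n ih =>
      show Min.min ((Nat.rec (motive := fun _ => ℕ) (Min.min 1 (c ρ))
        (fun _ x => Min.min (x * f ρ) (c ρ)) n) * f ρ) (c ρ) = _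
      rw [ih, min_mul_min, pow_succ]
  exact (h1 (g ρ)).symm

/-- powers which are bounded by a number function -/
theorem FPN.powBdd {f g c : (Fin m → List C) → ℕ} (hf : FPN m f) (hg : FPN m g)
    (hc : FPN m c) (h : ∀ ρ, f ρ ^ g ρ ≤ c ρ) : FPN m (fun ρ => f ρ ^ g ρ) :=
  (FPN.powClip hf hg hc).congr fun ρ => (min_eq_left (h ρ)).symm

/-- binary logarithm, rounded up -/
theorem FPN.clog {f : (Fin m → List C) → ℕ} (hf : FPN m f) :
    FPN m (fun ρ => Nat.clog 2 (f ρ)) := by
  refine (FPN.count hf (b := fun k ρ => decide (Min.min (2 ^ k) (f ρ) < f ρ))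
    (FPB.ltN (FPN.powClip (FPN.const 2) (FPN.var 0) hf.weak) hf.weak)).congr fun ρ => ?_
  have e : (List.range (f ρ)).countP (fun k => decide (Min.min (2 ^ k) (f ρ) < f ρ)) =
      (List.range (f ρ)).countP (fun k => decide (k < Nat.clog 2 (f ρ))) := by
    congr 1
    funext k
    rw [Bool.eq_iff_iff, decide_eq_true_iff, decide_eq_true_iff, Nat.lt_clog_iff_pow_lt (by norm_num)]
    omega
  rw [e]
  have h : ∀ n c : ℕ, (List.range n).countP (fun k => decide (k < c)) = Min.min c n := by
    intro n c
    induction n with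
    | zero => simp
    | succ n ih =>
      rw [List.range_succ, List.countP_append, ih, List.countP_singleton]
      simp only [decide_eq_true_eq]
      split_ifs <;> omega
  rw [h, min_eq_left]
  exact Nat.clog_le_of_le_pow (Nat.lt_two_pow_self.le)

/-- `2 ^ clog` -/
theorem FPN.powClog {f : (Fin m → List C) → ℕ} (hf : FPN m f) :
    FPN m (fun ρ => 2 ^ Nat.clog 2 (f ρ)) := by
  refine FPN.powBdd (FPN.const 2) hf.clog (c := fun ρ => 2 * f ρ + 1)
    (((FPN.const 2).mul hf).add (FPN.const 1)) (fun ρ => ?_)
  by_cases h : 1 < f ρ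
  · have h1 := Nat.pow_pred_clog_lt_self (b := 2) (by norm_num) h
    have h2 : 0 < Nat.clog 2 (f ρ) := Nat.clog_pos (by norm_num) h
    obtain ⟨k, hk⟩ : ∃ k, Nat.clog 2 (f ρ) = k + 1 := ⟨_, (Nat.succ_pred_eq_of_pos h2).symm⟩
    rw [hk, Nat.pred_succ] at h1
    rw [hk, pow_succ]
    omega
  · rw [Nat.clog_of_right_le_one (by omega)]
    omega

end

end Pool.Agent.H2XG
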