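import Pool.Agent.Helper87_UT.XProg

/-!
# Calling a machine, changing memory and stacks
-/

set_option autoImplicit false

namespace Pool.Agent.H2XG

open Turing Function Computability StateTransition Pool.Agent.Helper32_Poly Pool.Agent.UT

section Call

variable (tm : FinTM2)

/-- memory while a machine is called: its own memory and the label -/
abbrev CallMem : Type := tm.σ × Option tm.Λ

/-- a statement of the machine as a straight-line statement which records the next label -/
def callSt : TM2.Stmt tm.Γ tm.Λ tm.σ → TM2.Stmt tm.Γ Unit (CallMem tm)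
  | .push k f q => .push k (fun v => f v.1) (callSt q)
  | .peek k f q => .peek k (fun v s => (f v.1 s, v.2)) (callSt q)
  | .pop k f q => .pop k (fun v s => (f v.1 s, v.2)) (callSt q)
  | .load f q => .load (fun v => (f v.1, v.2)) (callSt q)
  | .branch c q₁ q₂ => .branch (fun v => c v.1) (callSt q₁) (callSt q₂)
  | .goto l => .load (fun v => (v.1, some (l v.1))) (.goto fun _ => ())
  | .halt => .load (fun v => (v.1, none)) (.goto fun _ => ())

theorem callSt_run : ∀ (q : TM2.Stmt tm.Γ tm.Λ tm.σ) (v : tm.σ) (o : Option tm.Λ)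
    (S : ∀ k, List (tm.Γ k)), TM2.stepAux (callSt tm q) (v, o) S =
      ⟨some (), ((TM2.stepAux q v S).var, (TM2.stepAux q v S).l), (TM2.stepAux q v S).stk⟩
  | .push k f q, v, o, S => callSt_run q v o (update S k (f v :: S k))
  | .peek k f q, v, o, S => callSt_run q (f v (S k).head?) o S
  | .pop k f q, v, o, S => callSt_run q (f v (S k).head?) o (update S k (S k).tail)
  | .load f q, v, o, S => callSt_run q (f v) o S
  | .branch c q₁ q₂, v, o, S => by
    have h1 := callSt_run q₁ v o S
    have h2 := callSt_run q₂ v o S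
    simp only [callSt, TM2.stepAux] at h1 h2 ⊢
    cases c v
    · exact h2
    · exact h1
  | .goto _, v, o, S => rfl
  | .halt, v, o, S => rfl

open Classical in
/-- the statement of the current label -/
noncomputable def dispatch : List tm.Λ → TM2.Stmt tm.Γ Unit (CallMem tm)
  | [] => .goto fun _ => ()
  | l :: L => .branch (fun v => decide (v.2 = some l)) (callSt tm (tm.m l)) (dispatch L)

open Classical in
theorem dispatch_run (l : tm.Λ) (v : tm.σ) (S : ∀ k, List (tm.Γ k)) : ∀ (L : List tm.Λ), l ∈ L →
    TM2.stepAux (dispatch tm L) (v, some l) S =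
      TM2.stepAux (callSt tm (tm.m l)) (v, some l) S
  | [], h => by simp at h
  | l' :: L, h => by
    unfold dispatch
    simp only [TM2.stepAux]
    by_cases hl : l = l'
    · subst hl
      simp
    · have h' : l ∈ L := by
        rcases List.mem_cons.1 h with h | h
        · exact absurd h hl
        · exact h
      have e : decide ((some l : Option tm.Λ) = some l') = false := by simp [hl]
      rw [e, cond_false]
      exact dispatch_run l v S L h'

/-- all labels -/
noncomputable def labels : List tm.Λ := (@Finset.univ tm.Λ tm.ΛFin).toList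

/-- run the machine -/
noncomputable def callProg : XProg tm.Γ (CallMem tm) :=
  .seq (.prog (.load fun _ => (tm.initialState, some tm.main)))
    (.loop (fun v => v.2.isSome) (.basic (dispatch tm (labels tm))))

theorem call_loop : ∀ (n : ℕ) (l : Option tm.Λ) (v : tm.σ) (S : ∀ k, List (tm.Γ k))
    (v' : tm.σ) (S' : ∀ k, List (tm.Γ k)),
    Steps tm.m n ⟨l, v, S⟩ ⟨none, v', S'⟩ →
    XProg.Run (.loop (fun v => v.2.isSome) (.basic (dispatch tm (labels tm)))) (v, l) S
      (v', none) S' (2 * n + 1)
  | 0, l, v, S, v', S', h => by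
    have h1 : some (⟨l, v, S⟩ : TM2.Cfg tm.Γ tm.Λ tm.σ) = some ⟨none, v', S'⟩ := h
    cases h1
    exact XProg.Run.loop_false _ rfl
  | n + 1, l, v, S, v', S', h => by
    unfold Steps at h
    rw [Function.iterate_succ_apply] at h
    have h1 : (flip bind (TM2.step tm.m)) (some (⟨l, v, S⟩ : TM2.Cfg tm.Γ tm.Λ tm.σ)) =
        TM2.step tm.m ⟨l, v, S⟩ := rfl
    rw [h1] at h
    cases l with
    | none =>
      exfalso
      have h2 : TM2.step tm.m (⟨none, v, S⟩ : TM2.Cfg tm.Γ tm.Λ tm.σ) = none := rfl
      rw [h2] at h
      have : ∀ m, (flip bind (TM2.step tm.m))^[m] none = none := by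
        intro m
        induction m with
        | zero => rfl
        | succ m ih => rw [Function.iterate_succ_apply]; exact ih
      rw [this] at h
      cases h
    | some l =>
      have h2 : TM2.step tm.m (⟨some l, v, S⟩ : TM2.Cfg tm.Γ tm.Λ tm.σ) =
          some (TM2.stepAux (tm.m l) v S) := rfl
      rw [h2] at h
      have h3 := call_loop n (TM2.stepAux (tm.m l) v S).l (TM2.stepAux (tm.m l) v S).var
        (TM2.stepAux (tm.m l) v S).stk v' S' h
      have h4 := XProg.Run.basic (dispatch tm (labels tm)) (v, some l) S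
      have h5 : TM2.stepAux (dispatch tm (labels tm)) (v, some l) S = _ :=
        (dispatch_run tm l v S (labels tm) (by simp [labels])).trans (callSt_run tm _ v _ S)
      unfold bvar bstk at h4
      rw [h5] at h4
      have h6 := XProg.Run.loop_true (c := fun v : CallMem tm => v.2.isSome) rfl h4 h3
      have e : 1 + 1 + (2 * n + 1) = 2 * (n + 1) + 1 := by ring
      rw [e] at h6
      exact h6

/-- calling the machine -/
theorem callProg_run {x : List (tm.Γ tm.k₀)} {y : List (tm.Γ tm.k₁)} {T : ℕ}
    (h : TM2OutputsInTime tm x (some y) T) (v : CallMem tm) :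
    ∃ t, t ≤ 2 * T + 2 ∧ XProg.Run (callProg tm) v (update (fun _ => []) tm.k₀ x)
      (tm.initialState, none) (update (fun _ => []) tm.k₁ y) t := by
  have h1 : (flip bind tm.step)^[h.steps] (some (initList tm x)) = some (haltList tm y) :=
    h.evals_in_steps
  have h1' := (congrArg (fun c => (flip bind tm.step)^[h.steps] (some c))
    (initList_eq tm x).symm).trans (h1.trans (congrArg some (haltList_eq tm y)))
  have h2 := call_loop tm h.steps _ _ _ _ _ h1'
  have h3 := h.steps_le_m
  refine ⟨1 + (2 * h.steps + 1), by omega, ?_⟩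
  exact XProg.Run.seq (XProg.Run.prog (Prog.Run.load _ v _)) h2

end Call

section Mem

variable {K : Type} {Γ : K → Type} {σ ρ : Type} (g : ρ → σ) (p : ρ → σ → ρ)

/-- let a statement act on a part of the memory -/
def memS {Λ : Type} (gg : ρ → σ) (pp : ρ → σ → ρ) : TM2.Stmt Γ Λ σ → TM2.Stmt Γ Unit ρ
  | .push k f q => .push k (fun v => f (gg v)) (memS gg pp q)
  | .peek k f q => .peek k (fun v s => pp v (f (gg v) s)) (memS gg pp q)
  | .pop k f q => .pop k (fun v s => pp v (f (gg v) s)) (memS gg pp q)
  | .load f q => .load (fun v => pp v (f (gg v))) (memS gg pp q)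
  | .branch c q₁ q₂ => .branch (fun v => c (gg v)) (memS gg pp q₁) (memS gg pp q₂)
  | .goto _ => .goto fun _ => ()
  | .halt => .goto fun _ => ()

/-- let a program act on a part of the memory -/
def memP : Prog Γ σ → Prog Γ ρ
  | .push k f => .push k (fun v => f (g v))
  | .pop k f => .pop k (fun v s => p v (f (g v) s))
  | .load f => .load (fun v => p v (f (g v)))
  | .seq a b => .seq (memP a) (memP b)
  | .ite c a b => .ite (fun v => c (g v)) (memP a) (memP b)
  | .loop c a => .loop (fun v => c (g v)) (memP a)

/-- let a program act on a part of the memory -/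
def memX : XProg Γ σ → XProg Γ ρ
  | .prog a => .prog (memP g p a)
  | .basic q => .basic (memS g p q)
  | .seq a b => .seq (memX a) (memX b)
  | .ite c a b => .ite (fun v => c (g v)) (memX a) (memX b)
  | .loop c a => .loop (fun v => c (g v)) (memX a)

variable [DecidableEq K] {g p} (gp : ∀ r s, g (p r s) = s) (pp : ∀ r s s', p (p r s) s' = p r s')
  (pg : ∀ r, p r (g r) = r)

include gp pp pg

theorem memS_run {Λ : Type} : ∀ (q : TM2.Stmt Γ Λ σ) (r : ρ) (S : ∀ k, List (Γ k)),
    TM2.stepAux (memS g p q) r S = ⟨some (), p r (bvar q (g r) S), bstk q (g r) S⟩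
  | .push k f q, r, S => memS_run q r (update S k (f (g r) :: S k))
  | .peek k f q, r, S => by
    have h := memS_run q (p r (f (g r) (S k).head?)) S
    rw [gp, pp] at h
    exact h
  | .pop k f q, r, S => by
    have h := memS_run q (p r (f (g r) (S k).head?)) (update S k (S k).tail)
    rw [gp, pp] at h
    exact h
  | .load f q, r, S => by
    have h := memS_run q (p r (f (g r))) S
    rw [gp, pp] at h
    exact h
  | .branch c q₁ q₂, r, S => by
    have h1 := memS_run q₁ r S
    have h2 := memS_run q₂ r S
    simp only [memS, TM2.stepAux, bvar, bstk] at h1 h2 ⊢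
    cases c (g r)
    · exact h2
    · exact h1
  | .goto _, r, S => by
    simp only [memS, TM2.stepAux, bvar, bstk, pg]
  | .halt, r, S => by
    simp only [memS, TM2.stepAux, bvar, bstk, pg]

theorem memP_run {a : Prog Γ σ} {v : σ} {S : ∀ k, List (Γ k)} {v' : σ} {S' : ∀ k, List (Γ k)}
    {t : ℕ} (h : Prog.Run a v S v' S' t) : ∀ r, g r = v →
    Prog.Run (memP g p a) r S (p r v') S' t := by
  induction h with
  | push k f v S =>
    intro r hr
    have h1 := Prog.Run.push (Γ := Γ) k (fun v => f (g v)) r S
    subst hr
    rw [pg]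
    exact h1
  | pop k f v S =>
    intro r hr
    subst hr
    exact Prog.Run.pop (Γ := Γ) k (fun v s => p v (f (g v) s)) r S
  | load f v S =>
    intro r hr
    subst hr
    exact Prog.Run.load (Γ := Γ) (fun v => p v (f (g v))) r S
  | seq h1 h2 ih1 ih2 =>
    intro r hr
    have a2 := ih2 (p r _) (gp r _)
    rw [pp] at a2
    exact Prog.Run.seq (ih1 r hr) a2
  | ite_true hc h1 ih1 =>
    intro r hr
    subst hr
    exact Prog.Run.ite_true (c := fun v => _) hc (ih1 r rfl)
  | ite_false hc h1 ih1 =>
    intro r hr
    subst hr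
    exact Prog.Run.ite_false (c := fun v => _) hc (ih1 r rfl)
  | loop_false S hc =>
    intro r hr
    subst hr
    rw [pg]
    exact Prog.Run.loop_false (c := fun v => _) _ hc
  | loop_true hc h1 h2 ih1 ih2 =>
    intro r hr
    subst hr
    have a2 := ih2 (p r _) (gp r _)
    rw [pp] at a2
    exact Prog.Run.loop_true (c := fun v => _) hc (ih1 r rfl) a2

theorem memX_run {a : XProg Γ σ} {v : σ} {S : ∀ k, List (Γ k)} {v' : σ} {S' : ∀ k, List (Γ k)}
    {t : ℕ} (h : XProg.Run a v S v' S' t) : ∀ r, g r = v →
    XProg.Run (memX g p a) r S (p r v') S' t := by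
  induction h with
  | prog h =>
    intro r hr
    exact XProg.Run.prog (memP_run gp pp pg h r hr)
  | basic q v S =>
    intro r hr
    subst hr
    have h1 := XProg.Run.basic (memS g p q) r S
    unfold bvar bstk at h1
    rw [memS_run gp pp pg q r S] at h1
    exact h1
  | seq h1 h2 ih1 ih2 =>
    intro r hr
    have a2 := ih2 (p r _) (gp r _)
    rw [pp] at a2
    exact XProg.Run.seq (ih1 r hr) a2
  | ite_true hc h1 ih1 =>
    intro r hr
    subst hr
    exact XProg.Run.ite_true (c := fun v => _) hc (ih1 r rfl)
  | ite_false hc h1 ih1 =>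
    intro r hr
    subst hr
    exact XProg.Run.ite_false (c := fun v => _) hc (ih1 r rfl)
  | loop_false S hc =>
    intro r hr
    subst hr
    rw [pg]
    exact XProg.Run.loop_false (c := fun v => _) _ hc
  | loop_true hc h1 h2 ih1 ih2 =>
    intro r hr
    subst hr
    have a2 := ih2 (p r _) (gp r _)
    rw [pp] at a2
    exact XProg.Run.loop_true (c := fun v => _) hc (ih1 r rfl) a2

end Mem

end Pool.Agent.H2XG
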