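import Pool.Agent.Helper2_XG.RunN

/-!
# Calling a machine on words
-/

set_option autoImplicit false

namespace Pool.Agent.H2XG

open Turing Function Computability StateTransition Pool.Agent.Helper32_Poly Pool.Agent.UT

section

variable {C A : Type} {ι : Type} {tm : ι → FinTM2} [DecidableEq A] [DecidableEq ι]

/-- one stack of a machine is used -/
def St (S : A → List C) (i : ι) (k : (tm i).K) (l : List ((tm i).Γ k)) :
    ∀ k, List (AG C A tm k) :=
  update (mk tm S) (.inr ⟨i, k⟩) l

theorem St_push (S : A → List C) (i : ι) (k : (tm i).K) (l : List ((tm i).Γ k))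
    (x : (tm i).Γ k) :
    update (St S i k l) (.inr ⟨i, k⟩) (x :: (St S i k l) (.inr ⟨i, k⟩)) = St S i k (x :: l) := by
  unfold St
  rw [update_idem, update_self]

theorem St_pop (S : A → List C) (i : ι) (k : (tm i).K) (l l' : List ((tm i).Γ k)) :
    update (St S i k l) (.inr ⟨i, k⟩) l' = St S i k l' := by
  unfold St
  rw [update_idem]

theorem St_self (S : A → List C) (i : ι) (k : (tm i).K) (l : List ((tm i).Γ k)) :
    (St S i k l) (.inr ⟨i, k⟩) = l := by
  unfold St
  rw [update_self]

theorem St_inl (S : A → List C) (i : ι) (k : (tm i).K) (l : List ((tm i).Γ k)) (a : A) :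
    (St S i k l) (.inl a) = S a := by
  unfold St
  rw [update_of_ne (by simp)]
  rfl

theorem St_update (S : A → List C) (i : ι) (k : (tm i).K) (l : List ((tm i).Γ k)) (a : A)
    (l' : List C) : update (St S i k l) (.inl a) l' = St (update S a l') i k l := by
  unfold St
  rw [update_comm (by simp), update_mk]

theorem St_nil (S : A → List C) (i : ι) (k : (tm i).K) : St S i k [] = mk tm S := by
  unfold St
  funext j
  by_cases h : j = .inr ⟨i, k⟩
  · subst h
    rw [update_self]
    rfl
  · rw [update_of_ne h]

/-- move a word to a stack of the machine `i` -/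
def inP (a : A) (i : ι) (k : (tm i).K) (g : C → (tm i).Γ k) [Inhabited C] : XP C A tm :=
  .seq (.prog (.pop (.inl a) (fun r o => (o, r.2)))) (.loop (fun r => r.1.isSome)
    (.seq (.prog (.push (.inr ⟨i, k⟩) (fun r => g (r.1.getD default))))
      (.prog (.pop (.inl a) (fun r o => (o, r.2))))))

theorem inP_loop (a : A) (i : ι) (k : (tm i).K) (g : C → (tm i).Γ k) [Inhabited C]
    (m : ∀ i, CallMem (tm i)) : ∀ (l : List C) (acc : List ((tm i).Γ k)) (S : A → List C),
    S a = l.tail →
    XProg.Run (.loop (fun r : AM C tm => r.1.isSome)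
    (.seq (.prog (.push (.inr ⟨i, k⟩) (fun r => g (r.1.getD default))))
      (.prog (.pop (.inl a) (fun r o => (o, r.2)))))) (l.head?, m) (St S i k acc)
      (none, m) (St (update S a []) i k ((l.map g).reverse ++ acc)) (3 * l.length + 1)
  | [], acc, S, hS => by
    have e : update S a [] = S := by
      rw [List.tail_nil] at hS
      rw [← hS, update_eq_self]
    rw [e]
    exact XProg.Run.loop_false _ rfl
  | c :: l, acc, S, hS => by
    have h1 := XProg.Run.prog (Prog.Run.push (Γ := AG C A tm) (.inr ⟨i, k⟩)
      (fun r : AM C tm => g (r.1.getD default)) (some c, m) (St S i k acc))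
    rw [St_push] at h1
    have h2 := XProg.Run.prog (Prog.Run.pop (Γ := AG C A tm) (.inl a)
      (fun (r : AM C tm) (o : Option C) => (o, r.2)) (some c, m) (St S i k (g c :: acc)))
    rw [St_update, St_inl] at h2
    have h3 := inP_loop a i k g m l (g c :: acc) (update S a (S a).tail)
      (by rw [update_self, hS]; rfl)
    rw [update_idem] at h3
    rw [List.tail_cons] at hS
    rw [hS] at h2 h3
    have h4 := XProg.Run.loop_true (c := fun r : AM C tm => r.1.isSome) rfl
      (XProg.Run.seq h1 h2) h3
    have e1 : ((c :: l).map g).reverse ++ acc = (l.map g).reverse ++ (g c :: acc) := by simp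
    have e2 : 3 * (c :: l).length + 1 = 1 + (1 + 1) + (3 * l.length + 1) := by
      simp only [List.length_cons]; ring
    rw [e1, e2]
    exact h4

theorem inP_run (a : A) (i : ι) (k : (tm i).K) (g : C → (tm i).Γ k) [Inhabited C]
    (r : AM C tm) (S : A → List C) :
    XProg.Run (inP a i k g) r (mk tm S) (none, r.2)
      (St (update S a []) i k ((S a).map g).reverse) (3 * (S a).length + 2) := by
  have h1 : XProg.Run (.prog (.pop (.inl a) (fun r o => (o, r.2))) : XP C A tm) r (mk tm S)
      ((S a).head?, r.2) (St (update S a (S a).tail) i k []) 1 := by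
    rw [St_nil, ← update_mk]
    exact XProg.Run.prog (Prog.Run.pop (Γ := AG C A tm) (.inl a)
      (fun (r : AM C tm) (o : Option C) => (o, r.2)) r (mk tm S))
  have h2 := inP_loop a i k g r.2 (S a) [] (update S a (S a).tail) (by rw [update_self])
  rw [update_idem, List.append_nil] at h2
  have h3 := XProg.Run.seq h1 h2
  have e : 3 * (S a).length + 2 = 1 + (3 * (S a).length + 1) := by ring
  rw [e]
  exact h3

/-- move the word on a stack of the machine `i` to a word variable -/
def outP (o : A) (i : ι) (k : (tm i).K) (g : (tm i).Γ k → C) [Inhabited C] : XP C A tm :=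
  .seq (.prog (.pop (.inr ⟨i, k⟩) (fun r x => (x.map g, r.2)))) (.loop (fun r => r.1.isSome)
    (.seq (.prog (.push (.inl o) (fun r => r.1.getD default)))
      (.prog (.pop (.inr ⟨i, k⟩) (fun r x => (x.map g, r.2))))))

theorem outP_loop (o : A) (i : ι) (k : (tm i).K) (g : (tm i).Γ k → C) [Inhabited C]
    (m : ∀ i, CallMem (tm i)) : ∀ (l : List ((tm i).Γ k)) (S : A → List C),
    XProg.Run (.loop (fun r : AM C tm => r.1.isSome)
    (.seq (.prog (.push (.inl o) (fun r => r.1.getD default)))
      (.prog (.pop (.inr ⟨i, k⟩) (fun r x => (x.map g, r.2)))))) (l.head?.map g, m)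
      (St S i k l.tail)
      (none, m) (St (update S o ((l.map g).reverse ++ S o)) i k []) (3 * l.length + 1)
  | [], S => by
    have e : update S o ((([] : List ((tm i).Γ k)).map g).reverse ++ S o) = S := by simp
    rw [e]
    exact XProg.Run.loop_false _ rfl
  | c :: l, S => by
    have h1 := XProg.Run.prog (Prog.Run.push (Γ := AG C A tm) (.inl o)
      (fun r : AM C tm => r.1.getD default) (some (g c), m) (St S i k l))
    rw [St_update, St_inl] at h1
    have h2 := XProg.Run.prog (Prog.Run.pop (Γ := AG C A tm) (.inr ⟨i, k⟩)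
      (fun (r : AM C tm) (x : Option ((tm i).Γ k)) => (x.map g, r.2)) (some (g c), m)
      (St (update S o (g c :: S o)) i k l))
    rw [St_pop, St_self] at h2
    have h3 := outP_loop o i k g m l (update S o (g c :: S o))
    rw [update_idem, update_self] at h3
    have h4 := XProg.Run.loop_true (c := fun r : AM C tm => r.1.isSome) rfl
      (XProg.Run.seq h1 h2) h3
    have e1 : ((c :: l).map g).reverse ++ S o = (l.map g).reverse ++ (g c :: S o) := by simp
    have e2 : 3 * (c :: l).length + 1 = 1 + (1 + 1) + (3 * l.length + 1) := by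
      simp only [List.length_cons]; ring
    rw [e1, e2]
    exact h4

theorem outP_run (o : A) (i : ι) (k : (tm i).K) (g : (tm i).Γ k → C) [Inhabited C]
    (r : AM C tm) (S : A → List C) (l : List ((tm i).Γ k)) :
    XProg.Run (outP o i k g) r (St S i k l) (none, r.2)
      (mk tm (update S o ((l.map g).reverse ++ S o))) (3 * l.length + 2) := by
  have h1 := XProg.Run.prog (Prog.Run.pop (Γ := AG C A tm) (.inr ⟨i, k⟩)
      (fun (r : AM C tm) (x : Option ((tm i).Γ k)) => (x.map g, r.2)) r (St S i k l))
  rw [St_pop, St_self] at h1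
  have h2 := outP_loop o i k g r.2 l S
  rw [St_nil] at h2
  have h3 := XProg.Run.seq h1 h2
  have e : 3 * l.length + 2 = 1 + (3 * l.length + 1) := by ring
  rw [e]
  exact h3

/-- run the machine `i` -/
noncomputable def runP (i : ι) : XP C A tm :=
  embX (fun k : (tm i).K => (Sum.inr ⟨i, k⟩ : AK A tm)) (AG C A tm)
    (memX (fun r : AM C tm => r.2 i) (fun r s => (r.1, update r.2 i s)) (callProg (tm i)))

theorem runP_run (i : ι) {x : List ((tm i).Γ (tm i).k₀)} {y : List ((tm i).Γ (tm i).k₁)} {T : ℕ}
    (h : TM2OutputsInTime (tm i) x (some y) T) (r : AM C tm) (S : A → List C) :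
    ∃ r' t, t ≤ 2 * T + 2 ∧ XProg.Run (runP i : XP C A tm) r (St S i (tm i).k₀ x) r'
      (St S i (tm i).k₁ y) t := by
  obtain ⟨t, ht, h1⟩ := callProg_run (tm i) h (r.2 i)
  have h2 := memX_run (g := fun r : AM C tm => r.2 i) (p := fun r s => (r.1, update r.2 i s))
    (by intro r s; simp) (by intro r s s'; simp) (by intro r; simp) h1 r rfl
  have hinj : Injective (fun k : (tm i).K => (Sum.inr ⟨i, k⟩ : AK A tm)) := by
    intro k k' hk
    simpa using hk
  have e0 : pull (fun k : (tm i).K => (Sum.inr ⟨i, k⟩ : AK A tm)) (St S i (tm i).k₀ x) =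
      update (fun _ => []) (tm i).k₀ x := by
    unfold St
    rw [pull_update _ hinj]
    rfl
  obtain ⟨S', h3, h4, h5⟩ := embX_run _ hinj h2 (St S i (tm i).k₀ x) e0
  have e1 : S' = St S i (tm i).k₁ y := by
    funext k
    rcases k with k | ⟨j, k⟩
    · rw [h5 (.inl k) (fun j => by simp), St_inl, St_inl]
    · by_cases hj : j = i
      · subst hj
        have h6 := congrFun h4 k
        unfold pull at h6
        rw [h6]
        unfold St
        by_cases hk : k = (tm j).k₁
        · subst hk
          rw [update_self, update_self]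
        · rw [update_of_ne hk, update_of_ne (by simpa using hk)]
          rfl
      · have hne : ∀ k', (Sum.inr ⟨j, k⟩ : AK A tm) ≠ Sum.inr ⟨i, k'⟩ := by
          intro k' h
          exact hj (congrArg Sigma.fst (Sum.inr.inj h))
        rw [h5 (.inr ⟨j, k⟩) (fun k' h => hne k' h.symm)]
        unfold St
        rw [update_of_ne (hne _), update_of_ne (hne _)]
  rw [← e1]
  exact ⟨_, t, ht, h3⟩

end

/-- a machine outputs at most polynomially many letters -/
theorem outputs_length (tm : FinTM2) : ∃ c : ℕ, ∀ (x : List (tm.Γ tm.k₀)) (y : List (tm.Γ tm.k₁))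
    (T : ℕ), TM2OutputsInTime tm x (some y) T → y.length ≤ x.length + c * T := by
  let _ := tm.kDecidableEq
  let _ := tm.kFin
  let _ := tm.ΛFin
  refine ⟨∑ l, pushes (tm.m l), fun x y T h => ?_⟩
  obtain ⟨⟨n, E⟩, L⟩ := h
  simp only at L
  have E' : (flip bind tm.step)^[n] (some (initList tm x)) = some (haltList tm y) := E
  have h := steps_size tm.m n (initList tm x) (haltList tm y) E'
  have h2 : totalSize (initList tm x).stk = x.length := by
    rw [initList_eq]
    have := totalSize_update (fun k => ([] : List (tm.Γ k))) tm.k₀ x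
    simpa [totalSize] using this
  have h3 : totalSize (haltList tm y).stk = y.length := by
    rw [haltList_eq]
    have := totalSize_update (fun k => ([] : List (tm.Γ k))) tm.k₁ y
    simpa [totalSize] using this
  rw [h2, h3] at h
  exact h.trans (Nat.add_le_add_left (Nat.mul_le_mul_left _ L) _)

end Pool.Agent.H2XG
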