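import Pool.Agent.Helper2_XG.Lib

/-!
# Calls with a clock

A machine which computes a function in polynomial time on encodings only is called with a clock;
this gives a function on all words which is computable in polynomial time.
-/

set_option autoImplicit false

namespace Pool.Agent.H2XG

open Turing Function Computability StateTransition Pool.Agent.Helper32_Poly Pool.Agent.UT
open Pool.Agent.Helper53_CookLevin (size clearP clearP_run)

/-- one step, or nothing if the machine has halted -/
def stay (tm : FinTM2) (c : TM2.Cfg tm.Γ tm.Λ tm.σ) : TM2.Cfg tm.Γ tm.Λ tm.σ :=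
  (TM2.step tm.m c).getD c

/-- the first configuration -/
def init (tm : FinTM2) (x : List (tm.Γ tm.k₀)) : TM2.Cfg tm.Γ tm.Λ tm.σ :=
  ⟨some tm.main, tm.initialState, update (fun _ => []) tm.k₀ x⟩

/-- the content of the output stack after `n` steps -/
def clkN {C : Type} (tm : FinTM2) (g : C → tm.Γ tm.k₀) (h : tm.Γ tm.k₁ → C) (n : ℕ)
    (w : List C) : List C :=
  (((stay tm)^[n] (init tm (w.map g))).stk tm.k₁).map h

theorem stay_of_steps (tm : FinTM2) : ∀ (n : ℕ) (a b : TM2.Cfg tm.Γ tm.Λ tm.σ),
    Steps tm.m n a b → (stay tm)^[n] a = b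
  | 0, a, b, h => by
    have : some a = some b := h
    cases this
    rfl
  | n + 1, a, b, h => by
    unfold Steps at h
    rw [Function.iterate_succ_apply] at h
    have h1 : (flip bind (TM2.step tm.m)) (some a) = TM2.step tm.m a := rfl
    rw [h1] at h
    rcases h2 : TM2.step tm.m a with _ | c
    · rw [h2] at h
      exfalso
      have : ∀ m, (flip bind (TM2.step tm.m))^[m] none = none := by
        intro m
        induction m with
        | zero => rfl
        | succ m ih => rw [Function.iterate_succ_apply]; exact ih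
      rw [this] at h
      cases h
    · rw [h2] at h
      rw [Function.iterate_succ_apply]
      have h3 : stay tm a = c := by
        unfold stay
        rw [h2]
        rfl
      rw [h3]
      exact stay_of_steps tm n c b h

theorem stay_halted (tm : FinTM2) (v : tm.σ) (S : ∀ k, List (tm.Γ k)) (n : ℕ) :
    (stay tm)^[n] ⟨none, v, S⟩ = ⟨none, v, S⟩ := by
  induction n with
  | zero => rfl
  | succ n ih =>
    rw [Function.iterate_succ_apply]
    exact ih

theorem stay_outputs (tm : FinTM2) {n : ℕ} {x : List (tm.Γ tm.k₀)} {y : List (tm.Γ tm.k₁)}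
    (H : TM2OutputsInTime tm x (some y) n) :
    (stay tm)^[n] (init tm x) = ⟨none, tm.initialState, update (fun _ => []) tm.k₁ y⟩ := by
  have h1 : (flip bind tm.step)^[H.steps] (some (initList tm x)) =
    some (haltList tm y) := H.evals_in_steps
  have h1' := (congrArg (fun c => (flip bind tm.step)^[H.steps] (some c))
    (initList_eq tm x).symm).trans (h1.trans (congrArg some (haltList_eq tm y)))
  have h2 := stay_of_steps tm H.steps _ _ h1'
  unfold init
  obtain ⟨k, hk⟩ := Nat.exists_eq_add_of_le H.steps_le_m
  rw [hk, Nat.add_comm, Function.iterate_add_apply, h2, stay_halted]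

theorem clkN_eq {C : Type} (tm : FinTM2) (g : C → tm.Γ tm.k₀) (h : tm.Γ tm.k₁ → C) (n : ℕ)
    (w : List C) (y : List (tm.Γ tm.k₁)) (H : TM2OutputsInTime tm (w.map g) (some y) n) :
    clkN tm g h n w = y.map h := by
  unfold clkN
  rw [stay_outputs tm H]
  change List.map h (update (fun _ => []) tm.k₁ y tm.k₁) = _
  rw [update_self]

section

variable {C A : Type} {ι : Type} {tm : ι → FinTM2} [DecidableEq A] [DecidableEq ι]

/-- the stacks are those of the words `S` and the stacks `T` of the machine `i` -/
structure Rep (S : A → List C) (i : ι) (T : ∀ k, List ((tm i).Γ k))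
    (X : ∀ k, List (AG C A tm k)) : Prop where
  word : ∀ a, X (.inl a) = S a
  mach : ∀ k, X (.inr ⟨i, k⟩) = T k
  other : ∀ j k, j ≠ i → X (.inr ⟨j, k⟩) = []

theorem Rep.eq_mk {S : A → List C} {i : ι} {X : ∀ k, List (AG C A tm k)}
    (h : Rep S i (fun _ => []) X) : X = H2XG.mk tm S := by
  funext k
  rcases k with a | ⟨j, k⟩
  · exact h.word a
  · by_cases hj : j = i
    · subst hj
      exact h.mach k
    · exact h.other j k hj

theorem Rep.st (S : A → List C) (i : ι) (x : List ((tm i).Γ (tm i).k₀)) :
    Rep S i (update (fun _ => []) (tm i).k₀ x) (St S i (tm i).k₀ x : ∀ k, List (AG C A tm k)) where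
  word a := St_inl _ _ _ _ _
  mach k := by
    by_cases hk : k = (tm i).k₀
    · subst hk
      rw [St_self, update_self]
    · unfold St
      rw [update_of_ne (by simpa using hk), update_of_ne hk]
      rfl
  other j k hj := by
    unfold St
    rw [update_of_ne (fun h => hj (congrArg Sigma.fst (Sum.inr.inj h)))]
    rfl

theorem Rep.inl {S : A → List C} {i : ι} {T : ∀ k, List ((tm i).Γ k)}
    {X : ∀ k, List (AG C A tm k)} (h : Rep S i T X) (a : A) (l : List C) :
    Rep (update S a l) i T (update X (.inl a) l) where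
  word b := by
    by_cases hb : b = a
    · subst hb; rw [update_self, update_self]
    · rw [update_of_ne (by simpa using hb), update_of_ne hb]; exact h.word b
  mach k := by rw [update_of_ne (by simp)]; exact h.mach k
  other j k hj := by rw [update_of_ne (by simp)]; exact h.other j k hj

theorem Rep.inr {S : A → List C} {i : ι} {T : ∀ k, List ((tm i).Γ k)}
    {X : ∀ k, List (AG C A tm k)} (h : Rep S i T X) (k : (tm i).K) (l : List ((tm i).Γ k)) :
    Rep S i (update T k l) (update X (.inr ⟨i, k⟩) l) where
  word b := by rw [update_of_ne (by simp)]; exact h.word b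
  mach k' := by
    by_cases hk : k' = k
    · subst hk; rw [update_self, update_self]
    · rw [update_of_ne (by simpa using hk), update_of_ne hk]; exact h.mach k'
  other j k' hj := by
    rw [update_of_ne (fun h => hj (congrArg Sigma.fst (Sum.inr.inj h)))]; exact h.other j k' hj

theorem dispatch_none (tm : FinTM2) (v : tm.σ) (S : ∀ k, List (tm.Γ k)) : ∀ (L : List tm.Λ),
    TM2.stepAux (dispatch tm L) (v, none) S = ⟨some (), (v, none), S⟩
  | [] => rfl
  | l' :: L => by
    unfold dispatch
    simp only [TM2.stepAux]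
    rw [show decide ((none : Option tm.Λ) = some l') = false by simp, cond_false]
    exact dispatch_none tm v S L

theorem dispatch_stay (tm : FinTM2) (o : Option tm.Λ) (v : tm.σ) (S : ∀ k, List (tm.Γ k)) :
    XProg.Run (.basic (dispatch tm (labels tm))) (v, o) S
      ((stay tm ⟨o, v, S⟩).var, (stay tm ⟨o, v, S⟩).l) (stay tm ⟨o, v, S⟩).stk 1 := by
  have h4 := XProg.Run.basic (dispatch tm (labels tm)) (v, o) S
  cases o with
  | none =>
    have h5 := dispatch_none tm v S (labels tm)
    unfold bvar bstk at h4
    rw [h5] at h4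
    exact h4
  | some l =>
    have h5 : TM2.stepAux (dispatch tm (labels tm)) (v, some l) S = _ :=
      (dispatch_run tm l v S (labels tm) (by simp [labels])).trans (callSt_run tm _ v _ S)
    unfold bvar bstk at h4
    rw [h5] at h4
    exact h4

/-- one step of the machine `i` -/
noncomputable def stepP (i : ι) : XP C A tm :=
  embX (fun k : (tm i).K => (Sum.inr ⟨i, k⟩ : AK A tm)) (AG C A tm)
    (memX (fun r : AM C tm => r.2 i) (fun r s => (r.1, update r.2 i s))
      (.basic (dispatch (tm i) (labels (tm i)))))

theorem stepP_run (i : ι) (r : AM C tm) (S : A → List C) (T : ∀ k, List ((tm i).Γ k))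
    (X : ∀ k, List (AG C A tm k)) (hX : Rep S i T X) :
    ∃ X', XProg.Run (stepP i : XP C A tm) r X
      (r.1, update r.2 i ((stay (tm i) ⟨(r.2 i).2, (r.2 i).1, T⟩).var,
        (stay (tm i) ⟨(r.2 i).2, (r.2 i).1, T⟩).l)) X' 1 ∧
      Rep S i (stay (tm i) ⟨(r.2 i).2, (r.2 i).1, T⟩).stk X' := by
  have h1 := dispatch_stay (tm i) (r.2 i).2 (r.2 i).1 T
  have h2 := memX_run (g := fun r : AM C tm => r.2 i) (p := fun r s => (r.1, update r.2 i s))
    (by intro r s; simp) (by intro r s s'; simp) (by intro r; simp) h1 r rfl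
  have hinj : Injective (fun k : (tm i).K => (Sum.inr ⟨i, k⟩ : AK A tm)) := by
    intro k k' hk
    simpa using hk
  obtain ⟨X', h3, h4, h5⟩ := embX_run _ hinj h2 X (funext fun k => hX.mach k)
  refine ⟨X', h3, fun a => ?_, fun k => congrFun h4 k, fun j k hj => ?_⟩
  · rw [h5 (.inl a) (fun j => by simp)]; exact hX.word a
  · rw [h5 (.inr ⟨j, k⟩) (fun k' h => hj (congrArg Sigma.fst (Sum.inr.inj h)).symm)]
    exact hX.other j k hj

/-- run the machine `i`, one step for each letter in stack `a` -/
noncomputable def clkP (a : A) (i : ι) : XP C A tm :=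
  .seq (.prog (.load (fun r => (none, update r.2 i ((tm i).initialState, some (tm i).main)))))
    (.seq (.prog (.pop (.inl a) (fun r o => (o, r.2))))
      (.loop (fun r => r.1.isSome) (.seq (stepP i)
        (.prog (.pop (.inl a) (fun r o => (o, r.2)))))))

theorem clkP_loop (a : A) (i : ι) : ∀ (l : List C) (m : ∀ i, CallMem (tm i)) (S : A → List C)
    (T : ∀ k, List ((tm i).Γ k)) (X : ∀ k, List (AG C A tm k)), Rep S i T X → S a = l.tail →
    ∃ m' X', XProg.Run (.loop (fun r : AM C tm => r.1.isSome) (.seq (stepP i)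
        (.prog (.pop (.inl a) (fun r o => (o, r.2)))))) (l.head?, m) X (none, m') X'
        (3 * l.length + 1) ∧
      Rep (update S a []) i ((stay (tm i))^[l.length] ⟨(m i).2, (m i).1, T⟩).stk X'
  | [], m, S, T, X, hX, hS => by
    refine ⟨m, X, XProg.Run.loop_false _ rfl, ?_⟩
    have e : update S a [] = S := by
      rw [List.tail_nil] at hS
      rw [← hS, update_eq_self]
    rw [e]
    exact hX
  | c :: l, m, S, T, X, hX, hS => by
    obtain ⟨X1, h1, h1'⟩ := stepP_run i (some c, m) S T X hX
    set c1 := stay (tm i) ⟨(m i).2, (m i).1, T⟩ with hc1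
    have h2 := XProg.Run.prog (Prog.Run.pop (Γ := AG C A tm) (.inl a)
      (fun (r : AM C tm) (o : Option C) => (o, r.2)) (some c, update m i (c1.var, c1.l)) X1)
    have e1 : X1 (.inl a) = l := by rw [h1'.word a, hS]; rfl
    rw [e1] at h2
    have h1'' := h1'.inl a l.tail
    obtain ⟨m', X', h3, h3'⟩ := clkP_loop a i l (update m i (c1.var, c1.l)) (update S a l.tail)
      c1.stk (update X1 (.inl a) l.tail) h1'' (by rw [update_self])
    rw [update_idem, update_self] at h3'
    refine ⟨m', X', ?_, ?_⟩
    · have h4 := XProg.Run.loop_true (c := fun r : AM C tm => r.1.isSome) rfl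
        (XProg.Run.seq h1 h2) h3
      have e2 : 3 * (c :: l).length + 1 = 1 + (1 + 1) + (3 * l.length + 1) := by
        simp only [List.length_cons]; ring
      rw [e2]
      exact h4
    · rw [List.length_cons, Function.iterate_succ_apply, ← hc1]
      exact h3'

theorem clkP_run (a : A) (i : ι) (r : AM C tm) (S : A → List C) (x : List ((tm i).Γ (tm i).k₀)) :
    ∃ m' X', XProg.Run (clkP a i) r (St S i (tm i).k₀ x) (none, m') X'
        (3 * (S a).length + 3) ∧
      Rep (update S a []) i ((stay (tm i))^[(S a).length] (init (tm i) x)).stk X' := by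
  have h1 := XProg.Run.prog (Prog.Run.load (Γ := AG C A tm)
    (fun r : AM C tm => (none, update r.2 i ((tm i).initialState, some (tm i).main))) r
    (St S i (tm i).k₀ x))
  have h2 := XProg.Run.prog (Prog.Run.pop (Γ := AG C A tm) (.inl a)
      (fun (r : AM C tm) (o : Option C) => (o, r.2))
      (none, update r.2 i ((tm i).initialState, some (tm i).main)) (St S i (tm i).k₀ x))
  rw [St_inl] at h2
  have h0 := (Rep.st (A := A) (C := C) (tm := tm) S i x).inl a (S a).tail
  obtain ⟨m', X', h3, h3'⟩ := clkP_loop a i (S a)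
    (update r.2 i ((tm i).initialState, some (tm i).main)) (update S a (S a).tail) _ _ h0
    (by rw [update_self])
  rw [update_idem, update_self] at h3'
  refine ⟨m', X', ?_, h3'⟩
  have h4 := XProg.Run.seq h1 (XProg.Run.seq h2 h3)
  have e : 3 * (S a).length + 3 = 1 + (1 + (3 * (S a).length + 1)) := by ring
  rw [e]
  exact h4

theorem outP_raw (o : A) (i : ι) (k : (tm i).K) (g : (tm i).Γ k → C) [Inhabited C]
    (m : ∀ i, CallMem (tm i)) : ∀ (l : List ((tm i).Γ k)) (X : ∀ k, List (AG C A tm k)),
    X (.inr ⟨i, k⟩) = l.tail →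
    XProg.Run (.loop (fun r : AM C tm => r.1.isSome)
    (.seq (.prog (.push (.inl o) (fun r => r.1.getD default)))
      (.prog (.pop (.inr ⟨i, k⟩) (fun r x => (x.map g, r.2)))))) (l.head?.map g, m) X
      (none, m) (update (update X (.inl o) ((l.map g).reverse ++ X (.inl o)))
        (.inr ⟨i, k⟩) []) (3 * l.length + 1)
  | [], X, hX => by
    have e : update (update X (.inl o) ((([] : List ((tm i).Γ k)).map g).reverse ++ X (.inl o)))
        (.inr ⟨i, k⟩) [] = X := by
      rw [List.map_nil, List.reverse_nil, List.nil_append, update_eq_self]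
      rw [List.tail_nil] at hX
      rw [← hX, update_eq_self]
    rw [e]
    exact XProg.Run.loop_false _ rfl
  | c :: l, X, hX => by
    rw [List.tail_cons] at hX
    have h1 := XProg.Run.prog (Prog.Run.push (Γ := AG C A tm) (.inl o)
      (fun r : AM C tm => r.1.getD default) (some (g c), m) X)
    have h2 := XProg.Run.prog (Prog.Run.pop (Γ := AG C A tm) (.inr ⟨i, k⟩)
      (fun (r : AM C tm) (x : Option ((tm i).Γ k)) => (x.map g, r.2)) (some (g c), m)
      (update X (.inl o) (g c :: X (.inl o))))
    have e0 : update X (.inl o) (g c :: X (.inl o)) (.inr ⟨i, k⟩) = l := by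
      rw [update_of_ne (by simp)]; exact hX
    rw [e0] at h2
    have h3 := outP_raw o i k g m l (update (update X (.inl o) (g c :: X (.inl o)))
      (.inr ⟨i, k⟩) l.tail) (by rw [update_self])
    have e1 : update (update X (.inl o) (g c :: X (.inl o))) (.inr ⟨i, k⟩) l.tail (.inl o) =
        g c :: X (.inl o) := by
      rw [update_of_ne (by simp), update_self]
    have e3 : update (update (update (update X (.inl o) (g c :: X (.inl o))) (.inr ⟨i, k⟩) l.tail)
        (.inl o) ((l.map g).reverse ++ (g c :: X (.inl o)))) (.inr ⟨i, k⟩) [] =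
        update (update X (.inl o) (((c :: l).map g).reverse ++ X (.inl o)))
        (.inr ⟨i, k⟩) [] := by
      rw [update_comm (show (Sum.inr ⟨i, k⟩ : AK A tm) ≠ .inl o by simp), update_idem,
        update_idem]
      simp
    rw [e1, e3] at h3
    have h4 := XProg.Run.loop_true (c := fun r : AM C tm => r.1.isSome) rfl
      (XProg.Run.seq h1 h2) h3
    have e2 : 3 * (c :: l).length + 1 = 1 + (1 + 1) + (3 * l.length + 1) := by
      simp only [List.length_cons]; ring
    rw [e2]
    exact h4

theorem outP_rep (o : A) (i : ι) (k : (tm i).K) (g : (tm i).Γ k → C) [Inhabited C]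
    (r : AM C tm) (S : A → List C) (T : ∀ k, List ((tm i).Γ k)) (X : ∀ k, List (AG C A tm k))
    (hX : Rep S i T X) : ∃ X', XProg.Run (outP o i k g) r X (none, r.2) X'
      (3 * (T k).length + 2) ∧
      Rep (update S o (((T k).map g).reverse ++ S o)) i (update T k []) X' := by
  have h1 := XProg.Run.prog (Prog.Run.pop (Γ := AG C A tm) (.inr ⟨i, k⟩)
      (fun (r : AM C tm) (x : Option ((tm i).Γ k)) => (x.map g, r.2)) r X)
  rw [hX.mach] at h1
  have h2 := outP_raw o i k g r.2 (T k) (update X (.inr ⟨i, k⟩) (T k).tail) (by rw [update_self])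
  have e : 3 * (T k).length + 2 = 1 + (3 * (T k).length + 1) := by ring
  refine ⟨_, by rw [e]; exact XProg.Run.seq h1 h2, ?_⟩
  have h3 := ((hX.inr k (T k).tail).inl o (((T k).map g).reverse ++ S o)).inr k []
  rw [update_idem] at h3
  rw [update_of_ne (show (Sum.inl o : AK A tm) ≠ .inr ⟨i, k⟩ by simp), hX.word]
  exact h3

/-- clear a stack of the machine `i` -/
def clrP (i : ι) (k : (tm i).K) [Inhabited C] : XP C A tm :=
  .seq (.prog (.pop (.inr ⟨i, k⟩) (fun r x => (x.map (fun _ => default), r.2))))
    (.loop (fun r => r.1.isSome)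
      (.prog (.pop (.inr ⟨i, k⟩) (fun r x => (x.map (fun _ => default), r.2)))))

theorem clrP_raw (i : ι) (k : (tm i).K) [Inhabited C]
    (m : ∀ i, CallMem (tm i)) : ∀ (l : List ((tm i).Γ k)) (X : ∀ k, List (AG C A tm k)),
    X (.inr ⟨i, k⟩) = l.tail →
    XProg.Run (.loop (fun r : AM C tm => r.1.isSome)
      (.prog (.pop (.inr ⟨i, k⟩) (fun r x => (x.map (fun _ => default), r.2)))))
      (l.head?.map (fun _ => default), m) X
      (none, m) (update X (.inr ⟨i, k⟩) []) (2 * l.length + 1)
  | [], X, hX => by
    have e : update X (.inr ⟨i, k⟩) [] = X := by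
      rw [List.tail_nil] at hX
      rw [← hX, update_eq_self]
    rw [e]
    exact XProg.Run.loop_false _ rfl
  | c :: l, X, hX => by
    rw [List.tail_cons] at hX
    have h2 := XProg.Run.prog (Prog.Run.pop (Γ := AG C A tm) (.inr ⟨i, k⟩)
      (fun (r : AM C tm) (x : Option ((tm i).Γ k)) => (x.map (fun _ => (default : C)), r.2))
      (some default, m) X)
    rw [hX] at h2
    have h3 := clrP_raw i k m l (update X (.inr ⟨i, k⟩) l.tail) (by rw [update_self])
    rw [update_idem] at h3
    have h4 := XProg.Run.loop_true (c := fun r : AM C tm => r.1.isSome) rfl h2 h3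
    have e2 : 2 * (c :: l).length + 1 = 1 + 1 + (2 * l.length + 1) := by
      simp only [List.length_cons]; ring
    rw [e2]
    exact h4

theorem clrP_rep (i : ι) (k : (tm i).K) [Inhabited C]
    (r : AM C tm) (S : A → List C) (T : ∀ k, List ((tm i).Γ k)) (X : ∀ k, List (AG C A tm k))
    (hX : Rep S i T X) : ∃ X', XProg.Run (clrP i k : XP C A tm) r X (none, r.2) X'
      (2 * (T k).length + 2) ∧ Rep S i (update T k []) X' := by
  have h1 := XProg.Run.prog (Prog.Run.pop (Γ := AG C A tm) (.inr ⟨i, k⟩)
      (fun (r : AM C tm) (x : Option ((tm i).Γ k)) => (x.map (fun _ => (default : C)), r.2)) r X)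
  rw [hX.mach] at h1
  have h2 := clrP_raw i k r.2 (T k) (update X (.inr ⟨i, k⟩) (T k).tail) (by rw [update_self])
  have e : 2 * (T k).length + 2 = 1 + (2 * (T k).length + 1) := by ring
  refine ⟨_, by rw [e]; exact XProg.Run.seq h1 h2, ?_⟩
  rw [update_idem]
  exact hX.inr k []

/-- clear some stacks of the machine `i` -/
def clrL (i : ι) [Inhabited C] : List (tm i).K → XP C A tm
  | [] => skipN
  | k :: L => .seq (clrP i k) (clrL i L)

theorem clrL_rep (i : ι) [Inhabited C] (B : ℕ) : ∀ (L : List (tm i).K)
    (r : AM C tm) (S : A → List C) (T : ∀ k, List ((tm i).Γ k)) (X : ∀ k, List (AG C A tm k)),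
    Rep S i T X → (∀ k, (T k).length ≤ B) →
    ∃ r' T' X' t, t ≤ L.length * (2 * B + 2) + 1 ∧ XProg.Run (clrL i L : XP C A tm) r X r' X' t ∧
      Rep S i T' X' ∧ (∀ k ∈ L, T' k = []) ∧ (∀ k, T k = [] → T' k = [])
  | [], r, S, T, X, hX, hB => by
    refine ⟨r, T, X, 1, by simp, XProg.Run.prog (Prog.Run.load id r X), hX, by simp, fun _ h => h⟩
  | k :: L, r, S, T, X, hX, hB => by
    obtain ⟨X1, h1, h2⟩ := clrP_rep i k r S T X hX
    obtain ⟨r', T', X', t, ht, h3, h4, h5, h6⟩ := clrL_rep i B L (none, r.2) S (update T k []) X1 h2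
      (by
        intro k'
        by_cases hk : k' = k
        · subst hk; rw [update_self]; simp
        · rw [update_of_ne hk]; exact hB k')
    refine ⟨r', T', X', _, ?_, XProg.Run.seq h1 h3, h4, ?_, ?_⟩
    · rw [List.length_cons, Nat.add_mul, Nat.one_mul]
      have := hB k
      omega
    · intro k' hk'
      rcases List.mem_cons.1 hk' with rfl | hk'
      · exact h6 _ (by rw [update_self])
      · exact h5 k' hk'
    · intro k' hk'
      apply h6
      by_cases hk : k' = k
      · subst hk; rw [update_self]
      · rw [update_of_ne hk]; exact hk'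

end

theorem stay_size (tm : FinTM2) : ∃ c : ℕ, ∀ (x : List (tm.Γ tm.k₀)) (n : ℕ) (k : tm.K),
    (((stay tm)^[n] (init tm x)).stk k).length ≤ x.length + c * n := by
  let _ := tm.kDecidableEq
  let _ := tm.kFin
  let _ := tm.ΛFin
  refine ⟨∑ l, pushes (tm.m l), fun x n k => ?_⟩
  have h1 : ∀ c : TM2.Cfg tm.Γ tm.Λ tm.σ, totalSize (stay tm c).stk ≤
      totalSize c.stk + ∑ l, pushes (tm.m l) := by
    rintro ⟨l, v, S⟩
    cases l with
    | none => exact Nat.le_add_right _ _
    | some l =>
      have h5 := stepAux_size (tm.m l) v S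
      have h6 : pushes (tm.m l) ≤ ∑ l, pushes (tm.m l) :=
        Finset.single_le_sum (f := fun l => pushes (tm.m l)) (fun _ _ => Nat.zero_le _)
          (Finset.mem_univ l)
      exact h5.trans (Nat.add_le_add_left h6 _)
  have h2 : ∀ n, totalSize ((stay tm)^[n] (init tm x)).stk ≤
      x.length + (∑ l, pushes (tm.m l)) * n := by
    intro n
    induction n with
    | zero =>
      have := totalSize_update (fun k => ([] : List (tm.Γ k))) tm.k₀ x
      simpa [totalSize, init] using this.le
    | succ n ih =>
      rw [Function.iterate_succ_apply']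
      refine (h1 _).trans ?_
      rw [Nat.mul_add, Nat.mul_one]
      omega
  refine le_trans ?_ (h2 n)
  unfold totalSize
  exact Finset.single_le_sum (f := fun k => (((stay tm)^[n] (init tm x)).stk k).length)
    (fun _ _ => Nat.zero_le _) (Finset.mem_univ k)

section

variable {C : Type} {ι : Type} {tm : ι → FinTM2} [DecidableEq ι] [Inhabited C]

theorem goodX_clk {m : ℕ} {F W : (Fin m → List C) → List C} (i : ι)
    (g : C → (tm i).Γ (tm i).k₀) (h : (tm i).Γ (tm i).k₁ → C)
    (hF : GoodX tm F) (hW : GoodX tm W) :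
    GoodX tm (fun ρ : Fin m → List C => clkN (tm i) g h (W ρ).length (F ρ)) := by
  obtain ⟨⟨b, hb⟩, q, hq⟩ := hF
  obtain ⟨⟨b', hb'⟩, q', hq'⟩ := hW
  obtain ⟨c, hc⟩ := stay_size (tm i)
  let _ := (tm i).kFin
  have hlen : ∀ (ρ : Fin m → List C) (k : (tm i).K),
      (((stay (tm i))^[(W ρ).length] (init (tm i) ((F ρ).map g))).stk k).length ≤
        (b + (c : Polynomial ℕ) * b').eval (size ρ) := by
    intro ρ k
    refine (hc _ _ _).trans ?_
    rw [List.length_map]
    simp only [Polynomial.eval_add, Polynomial.eval_mul, Polynomial.eval_natCast, Nat.cast_id]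
    exact Nat.add_le_add (hb ρ) (Nat.mul_le_mul_left _ (hb' ρ))
  refine ⟨⟨b + (c : Polynomial ℕ) * b', fun ρ => ?_⟩,
    q' + (q + (3 * b + 2 + (3 * b' + 3 + (3 * (b + (c : Polynomial ℕ) * b') + 2 +
      ((Fintype.card (tm i).K : Polynomial ℕ) * (2 * (b + (c : Polynomial ℕ) * b') + 2) + 1))))),
    fun vm o s hv ho hvo => ?_⟩
  · unfold clkN
    rw [List.length_map]
    exact hlen ρ _
  · obtain ⟨p', hp'⟩ := hq' vm s (s + 1) (fun i => by have := hv i; omega) (by omega)
      (fun i => by have := hv i; omega)
    obtain ⟨p, hp⟩ := hq vm (s + 1) (s + 2) (fun i => by have := hv i; omega) (by omega)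
      (fun i => by have := hv i; omega)
    refine ⟨.seq p' (.seq p (.seq (inP (s + 1) i (tm i).k₀ g) (.seq (clkP s i)
      (.seq (outP o i (tm i).k₁ h) (clrL i Finset.univ.toList))))), fun ρ S r hS hs => ?_⟩
    obtain ⟨r0, t0, ht0, hr0⟩ := hp' ρ S r hS (fun j hj => hs j (by omega))
    rw [hs s le_rfl, List.append_nil] at hr0
    obtain ⟨r1, t1, ht1, hr1⟩ := hp ρ (update S s (W ρ).reverse) r0
      (fun i => by rw [update_of_ne (by have := hv i; omega)]; exact hS i)
      (fun j hj => by rw [update_of_ne (by omega)]; exact hs j (by omega))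
    rw [update_of_ne (show s + 1 ≠ s by omega), hs (s + 1) (by omega), List.append_nil] at hr1
    have hr2 := inP_run (s + 1) i (tm i).k₀ g r1
      (update (update S s (W ρ).reverse) (s + 1) (F ρ).reverse)
    rw [update_self, update_idem, List.map_reverse, List.reverse_reverse] at hr2
    have e1 : update (update S s (W ρ).reverse) (s + 1) [] = update S s (W ρ).reverse := by
      rw [← hs (s + 1) (by omega), show S (s + 1) = update S s (W ρ).reverse (s + 1) by
        rw [update_of_ne (by omega)], update_eq_self]
    rw [e1] at hr2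
    obtain ⟨m3, X3, hr3, hR3⟩ := clkP_run s i (none, r1.2) (update S s (W ρ).reverse)
      ((F ρ).map g)
    rw [update_self, update_idem, List.length_reverse] at hR3
    rw [update_self, List.length_reverse] at hr3
    have e2 : update S s [] = S := by rw [← hs s le_rfl, update_eq_self]
    rw [e2] at hR3
    obtain ⟨X4, hr4, hR4⟩ := outP_rep o i (tm i).k₁ h (none, m3) S _ X3 hR3
    obtain ⟨r5, T5, X5, t5, ht5, hr5, hR5, h5, -⟩ := clrL_rep i
      ((b + (c : Polynomial ℕ) * b').eval (size ρ)) Finset.univ.toList (none, m3) _ _ X4 hR4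
      (by
        intro k
        by_cases hk : k = (tm i).k₁
        · subst hk; rw [update_self]; simp
        · rw [update_of_ne hk]; exact hlen ρ k)
    have e5 : T5 = fun _ => [] := by
      funext k
      exact h5 k (by simp)
    subst e5
    have e6 := hR5.eq_mk
    subst e6
    refine ⟨r5, _, ?_, XProg.Run.seq hr0 (XProg.Run.seq hr1 (XProg.Run.seq hr2
      (XProg.Run.seq hr3 (XProg.Run.seq hr4 hr5))))⟩
    have a1 := hb ρ
    have a2 := hb' ρ
    have a3 := hlen ρ (tm i).k₁
    rw [Finset.length_toList, Finset.card_univ] at ht5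
    simp only [Polynomial.eval_add, Polynomial.eval_mul, Polynomial.eval_ofNat,
      Polynomial.eval_natCast, Nat.cast_id, List.length_reverse, Polynomial.eval_one] at ht5 a3 ⊢
    omega

end

section

variable {C : Type} [Fintype C] [Inhabited C]

omit [Fintype C] in
theorem pgen_poly (q : Polynomial ℕ) : ∃ W : (Fin 1 → List C) → List C,
    Helper53_CookLevin.PGen 1 W ∧ ∀ ρ, (W ρ).length = q.eval (ρ 0).length := by
  have hmul : ∀ V : (Fin 1 → List C) → List C, Helper53_CookLevin.PGen 1 V →
      ∀ ρ : Fin 1 → List C, ∀ l p : List C,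
        (Helper53_CookLevin.scan (fun p _ => (fun σ : Fin 2 → List C => V (σ ∘ Fin.succ))
          (Matrix.vecCons p ρ)) p l).length = l.length * (V ρ).length := by
    intro V _ ρ l
    induction l with
    | nil => intro p; simp [Helper53_CookLevin.scan]
    | cons c l ih =>
      intro p
      rw [Helper53_CookLevin.scan, List.length_append, ih, List.length_cons]
      have : (Matrix.vecCons p ρ) ∘ Fin.succ = ρ := by funext i; simp
      simp only [this]
      ring
  induction q using Polynomial.induction_on' with
  | add p q hp hq =>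
    obtain ⟨V, hV, hV'⟩ := hp
    obtain ⟨W, hW, hW'⟩ := hq
    exact ⟨_, .append hV hW, fun ρ => by
      rw [List.length_append, hV', hW', Polynomial.eval_add]⟩
  | monomial n a =>
    induction n with
    | zero => exact ⟨_, .const (List.replicate a default), fun ρ => by simp⟩
    | succ n ih =>
      obtain ⟨V, hV, hV'⟩ := ih
      refine ⟨_, .loop 0 (fun _ σ => V (σ ∘ Fin.succ)) (fun _ => .rename Fin.succ hV),
        fun ρ => ?_⟩
      rw [hmul V hV ρ (ρ 0) [], hV', Polynomial.eval_monomial, Polynomial.eval_monomial]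
      ring

/-- Calling a machine with a polynomial clock gives a function computable in polynomial time. -/
theorem clk_pt (tm : FinTM2) (g : C → tm.Γ tm.k₀) (h : tm.Γ tm.k₁ → C) (q : Polynomial ℕ) :
    PT (fun w => clkN tm g h (q.eval w.length) w) := by
  obtain ⟨W, hW, hW'⟩ := pgen_poly (C := C) q
  have h1 : GoodX (fun _ : Unit => tm) W := GoodX.of_good hW.good
  have hv : Helper53_CookLevin.PGen 1 (fun ρ : Fin 1 → List C => ρ 0) := by
    have h := Helper53_CookLevin.PGen.loop (C := C) (m := 1) 0 (fun c _ => [c])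
      (fun c => .const [c])
    have e : (fun ρ : Fin 1 → List C => Helper53_CookLevin.scan
        (fun p c => (fun c (_ : Fin 2 → List C) => [c]) c (Matrix.vecCons p ρ)) [] (ρ 0)) =
        fun ρ => ρ 0 := by
      funext ρ
      exact scan_singleton [] (ρ 0)
    rw [e] at h
    exact h
  have h2 : GoodX (fun _ : Unit => tm) (fun ρ : Fin 1 → List C => ρ 0) := GoodX.of_good hv.good
  have h3 := goodX_computable (fun _ : Unit => tm) _ (goodX_clk () g h h2 h1)
  refine (congrArg PT (funext fun w => ?_)).mp h3
  rw [hW']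
  rfl

end

/-! ### Functions between types with encodings -/

section

variable {α β A B : Type} {ea : α → List A} {eb : β → List B} {f : α → β}


/-- A function computable in polynomial time on encodings is given by a total word function
computable in polynomial time. -/
theorem exists_total {C : Type} [Fintype C] [Inhabited C]
    (hf : Nonempty (TM2ComputableInPolyTime ea eb f)) {iA : A → C} (hiA : Injective iA)
    (iB : B → C) :
    ∃ F : List C → List C, PT F ∧ ∀ a, F ((ea a).map iA) = (eb (f a)).map iB := by
  obtain ⟨hf⟩ := hf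
  by_cases hA : Nonempty A
  · let g : C → hf.tm.Γ hf.tm.k₀ := fun c => hf.inputAlphabet.symm (invFun iA c)
    let h : hf.tm.Γ hf.tm.k₁ → C := fun x => iB (hf.outputAlphabet x)
    refine ⟨_, clk_pt hf.tm g h hf.time, fun a => ?_⟩
    have H := hf.outputsFun a
    have e1 : ((ea a).map iA).map g = (ea a).map hf.inputAlphabet.invFun := by
      rw [List.map_map]
      congr 1
      funext x
      simp only [g, comp_apply]
      rw [leftInverse_invFun hiA x]
      rfl
    rw [List.length_map, clkN_eq hf.tm g h _ _ ((eb (f a)).map hf.outputAlphabet.invFun)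
      (by rw [e1]; exact H), List.map_map]
    congr 1
    funext x
    simp [h]
  · have hA' : IsEmpty A := not_nonempty_iff.1 hA
    have hnil : ∀ a, ea a = [] := by
      intro a
      rcases h : ea a with _ | ⟨x, l⟩
      · rfl
      · exact hA'.elim x
    by_cases hα : Nonempty α
    · obtain ⟨a₀⟩ := hα
      refine ⟨fun _ => (eb (f a₀)).map iB, (FP.const ((eb (f a₀)).map iB)).pt, fun a => ?_⟩
      have H := hf.outputsFun a
      have H₀ := hf.outputsFun a₀
      rw [hnil a] at H
      rw [hnil a₀] at H₀
      have h1 := stay_outputs hf.tm H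
      have h2 := stay_outputs hf.tm H₀
      rw [h2] at h1
      have h3 : update (fun k => ([] : List (hf.tm.Γ k))) hf.tm.k₁
          ((eb (f a₀)).map hf.outputAlphabet.invFun) = update (fun k => []) hf.tm.k₁
          ((eb (f a)).map hf.outputAlphabet.invFun) := congrArg TM2.Cfg.stk h1
      have h4 := congrFun h3 hf.tm.k₁
      rw [update_self, update_self] at h4
      have h5 := congrArg (List.map (fun x => iB (hf.outputAlphabet x))) h4
      rw [List.map_map, List.map_map] at h5
      have e : ((fun x => iB (hf.outputAlphabet x)) ∘ hf.outputAlphabet.invFun) = iB := by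
        funext x
        simp
      rw [e] at h5
      exact h5
    · exact ⟨fun _ => [], (FP.const []).pt, fun a => (hα ⟨a⟩).elim⟩

theorem pt_congr {g : α → List B}
    (h : Nonempty (TM2ComputableInPolyTime ea (id : List B → List B) g))
    (H : ∀ a, g a = eb (f a)) : Nonempty (TM2ComputableInPolyTime ea eb f) := by
  obtain ⟨h⟩ := h
  exact ⟨{ h with
    outputsFun := fun a => by
      have h1 := h.outputsFun a
      rw [H a] at h1
      exact h1 }⟩

/-- A word function computable in polynomial time gives a function computable in polynomial time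
on encodings. -/
theorem pt_of_total {C : Type} [Fintype C] [Fintype A] {F : List C → List C} (hF : PT F)
    (iA : A → List C) (jB : C → List B)
    (H : ∀ a, (F ((ea a).flatMap iA)).flatMap jB = eb (f a)) :
    Nonempty (TM2ComputableInPolyTime ea eb f) := by
  have h1 : Nonempty (TM2ComputableInPolyTime ea (id : List C → List C)
      (fun a => (ea a).flatMap iA)) := ⟨morphComputable _ _ _ [] iA (fun a => by simp)⟩
  have h3 : Nonempty (TM2ComputableInPolyTime (id : List C → List C) (id : List B → List B)
      (fun w => w.flatMap jB)) := ⟨morphComputable _ _ _ [] jB (fun a => by simp)⟩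
  obtain ⟨h1⟩ := h1
  obtain ⟨h2⟩ := hF
  obtain ⟨h3⟩ := h3
  obtain ⟨h12⟩ := TM2ComputableInPolyTime.comp h1 h2
  obtain ⟨h123⟩ := TM2ComputableInPolyTime.comp h12 h3
  exact pt_congr ⟨h123⟩ H

/-- Functions of the class give functions computable in polynomial time on encodings. -/
theorem FP.toPT {C : Type} [Fintype C] [Inhabited C] [Fintype A]
    {F : (Fin 1 → List C) → List C} (hF : FP 1 F) (iA : A → C) {iB : B → C} (hiB : Injective iB)
    (H : ∀ a, F ![(ea a).map iA] = (eb (f a)).map iB) :
    Nonempty (TM2ComputableInPolyTime ea eb f) := by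
  classical
  refine pt_of_total hF.pt (fun x => [iA x])
    (fun c => if h : ∃ b, iB b = c then [h.choose] else []) (fun a => ?_)
  have e1 : (ea a).flatMap (fun x => [iA x]) = (ea a).map iA := by
    rw [List.map_eq_flatMap]
  rw [e1, H a, List.flatMap_map]
  have e2 : ∀ b : B, (if h : ∃ b', iB b' = iB b then [h.choose] else []) = [b] := by
    intro b
    have h : ∃ b', iB b' = iB b := ⟨b, rfl⟩
    rw [dif_pos h]
    rw [hiB h.choose_spec]
  rw [funext e2]
  simp

/-- letters satisfying a test -/
theorem FP.filter {C : Type} {m : ℕ} {A : (Fin m → List C) → List C} (hA : FP m A)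
    (P : C → Bool) : FP m (fun ρ => (A ρ).filter P) :=
  (hA.flatMap (F := fun c _ => if P c then [c] else []) (fun c => .const _)).congr fun ρ => by
    induction A ρ with
    | nil => rfl
    | cons c l ih => rw [List.filter_cons, List.flatMap_cons, ← ih]; cases P c <;> simp

end

end Pool.Agent.H2XG
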