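import Pool.Agent.Helper2_XG.Call
import Pool.Agent.Helper53_CookLevin.Gen

/-!
# Structured programs on more or on fewer stacks
-/

set_option autoImplicit false

namespace Pool.Agent.H2XG

open Turing Function Computability StateTransition Pool.Agent.Helper32_Poly Pool.Agent.UT

section Emb

variable {K₁ K₂ : Type} (e : K₁ → K₂) (Γ : K₂ → Type) {σ : Type}

/-- a statement acting on some of the stacks -/
def embS {Λ : Type} : TM2.Stmt (fun k => Γ (e k)) Λ σ → TM2.Stmt Γ Unit σ
  | .push k f q => .push (e k) f (embS q)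
  | .peek k f q => .peek (e k) f (embS q)
  | .pop k f q => .pop (e k) f (embS q)
  | .load f q => .load f (embS q)
  | .branch c q₁ q₂ => .branch c (embS q₁) (embS q₂)
  | .goto _ => .goto fun _ => ()
  | .halt => .goto fun _ => ()

/-- a program acting on some of the stacks -/
def embP : Prog (fun k => Γ (e k)) σ → Prog Γ σ
  | .push k f => .push (e k) f
  | .pop k f => .pop (e k) f
  | .load f => .load f
  | .seq a b => .seq (embP a) (embP b)
  | .ite c a b => .ite c (embP a) (embP b)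
  | .loop c a => .loop c (embP a)

/-- a program acting on some of the stacks -/
def embX : XProg (fun k => Γ (e k)) σ → XProg Γ σ
  | .prog a => .prog (embP e Γ a)
  | .basic q => .basic (embS e Γ q)
  | .seq a b => .seq (embX a) (embX b)
  | .ite c a b => .ite c (embX a) (embX b)
  | .loop c a => .loop c (embX a)

variable {Γ}

/-- the contents of some of the stacks -/
def pull (S : ∀ k, List (Γ k)) : ∀ k, List (Γ (e k)) := fun k => S (e k)

/-- the other stacks are equal -/
def Agree (S S' : ∀ k, List (Γ k)) : Prop := ∀ k, (∀ j, e j ≠ k) → S' k = S k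

theorem Agree.trans {e : K₁ → K₂} {S S' S'' : ∀ k, List (Γ k)} (h : Agree e S S')
    (h' : Agree e S' S'') : Agree e S S'' :=
  fun k hk => (h' k hk).trans (h k hk)

variable [DecidableEq K₁] [DecidableEq K₂]

theorem pull_update (he : Injective e) (S : ∀ k, List (Γ k)) (k : K₁) (l : List (Γ (e k))) :
    pull e (update S (e k) l) = update (pull e S) k l := by
  funext j
  by_cases h : j = k
  · subst h; simp [pull]
  · have : e j ≠ e k := fun h' => h (he h')
    simp [pull, h, this]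

theorem agree_update (S : ∀ k, List (Γ k)) (k : K₁) (l : List (Γ (e k))) :
    Agree e S (update S (e k) l) := by
  intro j hj
  rw [update_of_ne (hj k).symm]

theorem embS_run {Λ : Type} (he : Injective e) : ∀ (q : TM2.Stmt (fun k => Γ (e k)) Λ σ) (v : σ)
    (S : ∀ k, List (Γ k)), ∃ S', TM2.stepAux (embS e Γ q) v S = ⟨some (), bvar q v (pull e S), S'⟩ ∧
      pull e S' = bstk q v (pull e S) ∧ Agree e S S'
  | .push k f q, v, S => by
    obtain ⟨S', h1, h2, h3⟩ := embS_run he q v (update S (e k) (f v :: S (e k)))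
    rw [pull_update e he] at h1 h2
    exact ⟨S', h1, h2, (agree_update e _ _ _).trans h3⟩
  | .peek k f q, v, S => embS_run he q (f v (S (e k)).head?) S
  | .pop k f q, v, S => by
    obtain ⟨S', h1, h2, h3⟩ := embS_run he q (f v (S (e k)).head?) (update S (e k) (S (e k)).tail)
    rw [pull_update e he] at h1 h2
    exact ⟨S', h1, h2, (agree_update e _ _ _).trans h3⟩
  | .load f q, v, S => embS_run he q (f v) S
  | .branch c q₁ q₂, v, S => by
    have h1 := embS_run he q₁ v S
    have h2 := embS_run he q₂ v S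
    simp only [embS, TM2.stepAux, bvar, bstk] at h1 h2 ⊢
    cases c v
    · exact h2
    · exact h1
  | .goto _, v, S => ⟨S, rfl, rfl, fun _ _ => rfl⟩
  | .halt, v, S => ⟨S, rfl, rfl, fun _ _ => rfl⟩

theorem embP_run (he : Injective e) {a : Prog (fun k => Γ (e k)) σ} {v : σ}
    {S₁ : ∀ k, List (Γ (e k))} {v' : σ} {S₁' : ∀ k, List (Γ (e k))} {t : ℕ}
    (h : Prog.Run a v S₁ v' S₁' t) : ∀ S : ∀ k, List (Γ k), pull e S = S₁ →
    ∃ S', Prog.Run (embP e Γ a) v S v' S' t ∧ pull e S' = S₁' ∧ Agree e S S' := by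
  induction h with
  | push k f v S₁ =>
    rintro S rfl
    exact ⟨_, Prog.Run.push (Γ := Γ) (e k) f v S, pull_update e he _ _ _, agree_update e _ _ _⟩
  | pop k f v S₁ =>
    rintro S rfl
    exact ⟨_, Prog.Run.pop (Γ := Γ) (e k) f v S, pull_update e he _ _ _, agree_update e _ _ _⟩
  | load f v S₁ =>
    rintro S rfl
    exact ⟨_, Prog.Run.load (Γ := Γ) f v S, rfl, fun _ _ => rfl⟩
  | seq _ _ ih1 ih2 =>
    rintro S hS
    obtain ⟨S', r1, e1, a1⟩ := ih1 S hS
    obtain ⟨S'', r2, e2, a2⟩ := ih2 S' e1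
    exact ⟨S'', Prog.Run.seq r1 r2, e2, a1.trans a2⟩
  | ite_true hc _ ih =>
    rintro S hS
    obtain ⟨S', r1, e1, a1⟩ := ih S hS
    exact ⟨S', Prog.Run.ite_true hc r1, e1, a1⟩
  | ite_false hc _ ih =>
    rintro S hS
    obtain ⟨S', r1, e1, a1⟩ := ih S hS
    exact ⟨S', Prog.Run.ite_false hc r1, e1, a1⟩
  | loop_false S₁ hc =>
    rintro S hS
    exact ⟨S, Prog.Run.loop_false _ hc, hS, fun _ _ => rfl⟩
  | loop_true hc _ _ ih1 ih2 =>
    rintro S hS
    obtain ⟨S', r1, e1, a1⟩ := ih1 S hS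
    obtain ⟨S'', r2, e2, a2⟩ := ih2 S' e1
    exact ⟨S'', Prog.Run.loop_true hc r1 r2, e2, a1.trans a2⟩

theorem embX_run (he : Injective e) {a : XProg (fun k => Γ (e k)) σ} {v : σ}
    {S₁ : ∀ k, List (Γ (e k))} {v' : σ} {S₁' : ∀ k, List (Γ (e k))} {t : ℕ}
    (h : XProg.Run a v S₁ v' S₁' t) : ∀ S : ∀ k, List (Γ k), pull e S = S₁ →
    ∃ S', XProg.Run (embX e Γ a) v S v' S' t ∧ pull e S' = S₁' ∧ Agree e S S' := by
  induction h with
  | prog h =>
    rintro S hS
    obtain ⟨S', r1, e1, a1⟩ := embP_run e he h S hS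
    exact ⟨S', XProg.Run.prog r1, e1, a1⟩
  | basic q v S₁ =>
    rintro S rfl
    obtain ⟨S', r1, e1, a1⟩ := embS_run e he q v S
    have h1 := XProg.Run.basic (embS e Γ q) v S
    unfold bvar bstk at h1
    rw [r1] at h1
    exact ⟨S', h1, e1, a1⟩
  | seq _ _ ih1 ih2 =>
    rintro S hS
    obtain ⟨S', r1, e1, a1⟩ := ih1 S hS
    obtain ⟨S'', r2, e2, a2⟩ := ih2 S' e1
    exact ⟨S'', XProg.Run.seq r1 r2, e2, a1.trans a2⟩
  | ite_true hc _ ih =>
    rintro S hS
    obtain ⟨S', r1, e1, a1⟩ := ih S hS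
    exact ⟨S', XProg.Run.ite_true hc r1, e1, a1⟩
  | ite_false hc _ ih =>
    rintro S hS
    obtain ⟨S', r1, e1, a1⟩ := ih S hS
    exact ⟨S', XProg.Run.ite_false hc r1, e1, a1⟩
  | loop_false S₁ hc =>
    rintro S hS
    exact ⟨S, XProg.Run.loop_false _ hc, hS, fun _ _ => rfl⟩
  | loop_true hc _ _ ih1 ih2 =>
    rintro S hS
    obtain ⟨S', r1, e1, a1⟩ := ih1 S hS
    obtain ⟨S'', r2, e2, a2⟩ := ih2 S' e1
    exact ⟨S'', XProg.Run.loop_true hc r1 r2, e2, a1.trans a2⟩

end Emb

end Pool.Agent.H2XG
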