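import Pool.Agent.Helper2_XG.Fold

/-!
# A class of word functions computable in polynomial time

`FP m F`: the function `F` from `m` words to a word is built from constants by concatenation,
loops over the letters of a variable, local definitions, case distinction on the last letter,
difference of lengths, calls of ARBITRARY word functions computable in polynomial time and
folds over the letters of a variable with a polynomial bound for the length of the state.
`FP.pt`: such functions of one variable are computable in polynomial time.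
-/

set_option autoImplicit false

namespace Pool.Agent.H2XG

open Turing Function Computability StateTransition Pool.Agent.Helper32_Poly Pool.Agent.UT
open Pool.Agent.Helper53_CookLevin (scan scan_append size size_cons length_le_size size_rename
  Good good_const good_drop clearP clearP_run moveP moveP_run copyP copyP_run)

/-! ### From stacks indexed by `ℕ` to finitely many stacks -/

section Restrict

variable {K₁ K₂ : Type} {Γ : K₂ → Type} {σ : Type} (R : K₂ → Prop)

/-- all stacks used by the statement satisfy `R` -/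
def UsesS {Λ : Type} : TM2.Stmt Γ Λ σ → Prop
  | .push k _ q => R k ∧ UsesS q
  | .peek k _ q => R k ∧ UsesS q
  | .pop k _ q => R k ∧ UsesS q
  | .load _ q => UsesS q
  | .branch _ q₁ q₂ => UsesS q₁ ∧ UsesS q₂
  | .goto _ => True
  | .halt => True

/-- all stacks used by the program satisfy `R` -/
def UsesP : Prog Γ σ → Prop
  | .push k _ => R k
  | .pop k _ => R k
  | .load _ => True
  | .seq p q => UsesP p ∧ UsesP q
  | .ite _ p q => UsesP p ∧ UsesP q
  | .loop _ p => UsesP p

/-- all stacks used by the program satisfy `R` -/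
def UsesX : XProg Γ σ → Prop
  | .prog p => UsesP R p
  | .basic q => UsesS R q
  | .seq p q => UsesX p ∧ UsesX q
  | .ite _ p q => UsesX p ∧ UsesX q
  | .loop _ p => UsesX p

variable {R} in
theorem UsesS.mono {R' : K₂ → Prop} {Λ : Type} (h : ∀ k, R k → R' k) :
    ∀ (q : TM2.Stmt Γ Λ σ), UsesS R q → UsesS R' q
  | .push k _ q, hq => ⟨h k hq.1, UsesS.mono h q hq.2⟩
  | .peek k _ q, hq => ⟨h k hq.1, UsesS.mono h q hq.2⟩
  | .pop k _ q, hq => ⟨h k hq.1, UsesS.mono h q hq.2⟩
  | .load _ q, hq => UsesS.mono h q hq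
  | .branch _ q₁ q₂, hq => ⟨UsesS.mono h q₁ hq.1, UsesS.mono h q₂ hq.2⟩
  | .goto _, _ => trivial
  | .halt, _ => trivial

variable {R} in
theorem UsesP.mono {R' : K₂ → Prop} (h : ∀ k, R k → R' k) :
    ∀ (p : Prog Γ σ), UsesP R p → UsesP R' p
  | .push k _, hp => h k hp
  | .pop k _, hp => h k hp
  | .load _, _ => trivial
  | .seq p q, hp => ⟨UsesP.mono h p hp.1, UsesP.mono h q hp.2⟩
  | .ite _ p q, hp => ⟨UsesP.mono h p hp.1, UsesP.mono h q hp.2⟩
  | .loop _ p, hp => UsesP.mono h p hp

variable {R} in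
theorem UsesX.mono {R' : K₂ → Prop} (h : ∀ k, R k → R' k) :
    ∀ (p : XProg Γ σ), UsesX R p → UsesX R' p
  | .prog p, hp => UsesP.mono h p hp
  | .basic q, hp => UsesS.mono h q hp
  | .seq p q, hp => ⟨UsesX.mono h p hp.1, UsesX.mono h q hp.2⟩
  | .ite _ p q, hp => ⟨UsesX.mono h p hp.1, UsesX.mono h q hp.2⟩
  | .loop _ p, hp => UsesX.mono h p hp

variable (e : K₁ → K₂) [DecidableEq K₁] [DecidableEq K₂]

theorem exists_restrS {Λ : Type} (he : Injective e) : ∀ (q : TM2.Stmt Γ Λ σ),
    UsesS (fun k => ∃ j, e j = k) q →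
    ∃ q' : TM2.Stmt (fun k => Γ (e k)) Unit σ, ∀ v S,
      bvar q' v (pull e S) = bvar q v S ∧ bstk q' v (pull e S) = pull e (bstk q v S)
  | .push k f q, h => by
    obtain ⟨⟨j, rfl⟩, hq⟩ := h
    obtain ⟨q', hq'⟩ := exists_restrS he q hq
    refine ⟨.push j f q', fun v S => ?_⟩
    have h := hq' v (update S (e j) (f v :: S (e j)))
    rw [pull_update e he] at h
    exact h
  | .peek k f q, h => by
    obtain ⟨⟨j, rfl⟩, hq⟩ := h
    obtain ⟨q', hq'⟩ := exists_restrS he q hq
    exact ⟨.peek j f q', fun v S => hq' (f v (S (e j)).head?) S⟩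
  | .pop k f q, h => by
    obtain ⟨⟨j, rfl⟩, hq⟩ := h
    obtain ⟨q', hq'⟩ := exists_restrS he q hq
    refine ⟨.pop j f q', fun v S => ?_⟩
    have h := hq' (f v (S (e j)).head?) (update S (e j) (S (e j)).tail)
    rw [pull_update e he] at h
    exact h
  | .load f q, h => by
    obtain ⟨q', hq'⟩ := exists_restrS he q h
    exact ⟨.load f q', fun v S => hq' (f v) S⟩
  | .branch c q₁ q₂, h => by
    obtain ⟨q₁', h1⟩ := exists_restrS he q₁ h.1
    obtain ⟨q₂', h2⟩ := exists_restrS he q₂ h.2
    refine ⟨.branch c q₁' q₂', fun v S => ?_⟩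
    have h1 := h1 v S
    have h2 := h2 v S
    simp only [bvar, bstk, TM2.stepAux] at h1 h2 ⊢
    cases c v
    · exact h2
    · exact h1
  | .goto _, _ => ⟨.goto fun _ => (), fun _ _ => ⟨rfl, rfl⟩⟩
  | .halt, _ => ⟨.goto fun _ => (), fun _ _ => ⟨rfl, rfl⟩⟩

theorem exists_restrP (he : Injective e) : ∀ (p : Prog Γ σ),
    UsesP (fun k => ∃ j, e j = k) p →
    ∃ p' : Prog (fun k => Γ (e k)) σ, ∀ v S v' S' t,
      Prog.Run p v S v' S' t → Prog.Run p' v (pull e S) v' (pull e S') t
  | .push k f, h => by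
    obtain ⟨j, rfl⟩ := h
    refine ⟨.push j f, fun v S v' S' t h => ?_⟩
    cases h
    rw [pull_update e he]
    exact Prog.Run.push (Γ := fun k => Γ (e k)) j f v (pull e S)
  | .pop k f, h => by
    obtain ⟨j, rfl⟩ := h
    refine ⟨.pop j f, fun v S v' S' t h => ?_⟩
    cases h
    rw [pull_update e he]
    exact Prog.Run.pop (Γ := fun k => Γ (e k)) j f v (pull e S)
  | .load f, h => by
    refine ⟨.load f, fun v S v' S' t h => ?_⟩
    cases h
    exact Prog.Run.load (Γ := fun k => Γ (e k)) f v (pull e S)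
  | .seq p q, h => by
    obtain ⟨p', hp⟩ := exists_restrP he p h.1
    obtain ⟨q', hq⟩ := exists_restrP he q h.2
    refine ⟨.seq p' q', fun v S v' S' t h => ?_⟩
    cases h with
    | seq h1 h2 => exact Prog.Run.seq (hp _ _ _ _ _ h1) (hq _ _ _ _ _ h2)
  | .ite c p q, h => by
    obtain ⟨p', hp⟩ := exists_restrP he p h.1
    obtain ⟨q', hq⟩ := exists_restrP he q h.2
    refine ⟨.ite c p' q', fun v S v' S' t h => ?_⟩
    cases h with
    | ite_true hc h1 => exact Prog.Run.ite_true hc (hp _ _ _ _ _ h1)
    | ite_false hc h1 => exact Prog.Run.ite_false hc (hq _ _ _ _ _ h1)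
  | .loop c p, h => by
    obtain ⟨p', hp⟩ := exists_restrP he p h
    refine ⟨.loop c p', fun v S v' S' t h => ?_⟩
    generalize hq : Prog.loop c p = q at h
    induction h with
    | loop_false S hc =>
      cases hq
      exact Prog.Run.loop_false _ hc
    | loop_true hc h1 h2 ih1 ih2 =>
      cases hq
      exact Prog.Run.loop_true hc (hp _ _ _ _ _ h1) (ih2 rfl)
    | _ => cases hq

theorem exists_restrX (he : Injective e) : ∀ (p : XProg Γ σ),
    UsesX (fun k => ∃ j, e j = k) p →
    ∃ p' : XProg (fun k => Γ (e k)) σ, ∀ v S v' S' t,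
      XProg.Run p v S v' S' t → XProg.Run p' v (pull e S) v' (pull e S') t
  | .prog p, h => by
    obtain ⟨p', hp⟩ := exists_restrP e he p h
    refine ⟨.prog p', fun v S v' S' t h => ?_⟩
    cases h with
    | prog h => exact XProg.Run.prog (hp _ _ _ _ _ h)
  | .basic q, h => by
    obtain ⟨q', hq⟩ := exists_restrS e he q h
    refine ⟨.basic q', fun v S v' S' t h => ?_⟩
    cases h with
    | basic =>
      rw [← (hq v S).1, ← (hq v S).2]
      exact XProg.Run.basic q' v (pull e S)
  | .seq p q, h => by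
    obtain ⟨p', hp⟩ := exists_restrX he p h.1
    obtain ⟨q', hq⟩ := exists_restrX he q h.2
    refine ⟨.seq p' q', fun v S v' S' t h => ?_⟩
    cases h with
    | seq h1 h2 => exact XProg.Run.seq (hp _ _ _ _ _ h1) (hq _ _ _ _ _ h2)
  | .ite c p q, h => by
    obtain ⟨p', hp⟩ := exists_restrX he p h.1
    obtain ⟨q', hq⟩ := exists_restrX he q h.2
    refine ⟨.ite c p' q', fun v S v' S' t h => ?_⟩
    cases h with
    | ite_true hc h1 => exact XProg.Run.ite_true hc (hp _ _ _ _ _ h1)
    | ite_false hc h1 => exact XProg.Run.ite_false hc (hq _ _ _ _ _ h1)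
  | .loop c p, h => by
    obtain ⟨p', hp⟩ := exists_restrX he p h
    refine ⟨.loop c p', fun v S v' S' t h => ?_⟩
    generalize hq : XProg.loop c p = q at h
    induction h with
    | loop_false S hc =>
      cases hq
      exact XProg.Run.loop_false _ hc
    | loop_true hc h1 h2 ih1 ih2 =>
      cases hq
      exact XProg.Run.loop_true hc (hp _ _ _ _ _ h1) (ih2 rfl)
    | _ => cases hq

end Restrict

section

variable {C : Type} {ι : Type} {tm : ι → FinTM2}

/-- stacks with index below `N` -/
def Below (tm : ι → FinTM2) (N : ℕ) : AK ℕ tm → Prop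
  | .inl k => k < N
  | .inr _ => True

theorem Below.mono {N N' : ℕ} (h : N ≤ N') : ∀ k, Below tm N k → Below tm N' k
  | .inl _, hk => lt_of_lt_of_le hk h
  | .inr _, _ => trivial

theorem exists_usesS {Λ σ : Type} : ∀ (q : TM2.Stmt (AG C ℕ tm) Λ σ), ∃ N, UsesS (Below tm N) q
  | .push k f q => by
    obtain ⟨N, hN⟩ := exists_usesS q
    rcases k with k | k
    · exact ⟨max N (k + 1), show k < _ by omega, UsesS.mono (Below.mono (le_max_left _ _)) q hN⟩
    · exact ⟨N, trivial, hN⟩
  | .peek k f q => by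
    obtain ⟨N, hN⟩ := exists_usesS q
    rcases k with k | k
    · exact ⟨max N (k + 1), show k < _ by omega, UsesS.mono (Below.mono (le_max_left _ _)) q hN⟩
    · exact ⟨N, trivial, hN⟩
  | .pop k f q => by
    obtain ⟨N, hN⟩ := exists_usesS q
    rcases k with k | k
    · exact ⟨max N (k + 1), show k < _ by omega, UsesS.mono (Below.mono (le_max_left _ _)) q hN⟩
    · exact ⟨N, trivial, hN⟩
  | .load _ q => by
    obtain ⟨N, hN⟩ := exists_usesS q
    exact ⟨N, hN⟩
  | .branch _ q₁ q₂ => by
    obtain ⟨N, hN⟩ := exists_usesS q₁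
    obtain ⟨N', hN'⟩ := exists_usesS q₂
    exact ⟨max N N', UsesS.mono (Below.mono (le_max_left _ _)) _ hN,
      UsesS.mono (Below.mono (le_max_right _ _)) _ hN'⟩
  | .goto _ => ⟨0, trivial⟩
  | .halt => ⟨0, trivial⟩

theorem exists_usesP {σ : Type} : ∀ (q : Prog (AG C ℕ tm) σ), ∃ N, UsesP (Below tm N) q
  | .push k f => by
    rcases k with k | k
    · exact ⟨k + 1, Nat.lt_succ_self k⟩
    · exact ⟨0, trivial⟩
  | .pop k f => by
    rcases k with k | k
    · exact ⟨k + 1, Nat.lt_succ_self k⟩
    · exact ⟨0, trivial⟩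
  | .load _ => ⟨0, trivial⟩
  | .seq q₁ q₂ => by
    obtain ⟨N, hN⟩ := exists_usesP q₁
    obtain ⟨N', hN'⟩ := exists_usesP q₂
    exact ⟨max N N', UsesP.mono (Below.mono (le_max_left _ _)) _ hN,
      UsesP.mono (Below.mono (le_max_right _ _)) _ hN'⟩
  | .ite _ q₁ q₂ => by
    obtain ⟨N, hN⟩ := exists_usesP q₁
    obtain ⟨N', hN'⟩ := exists_usesP q₂
    exact ⟨max N N', UsesP.mono (Below.mono (le_max_left _ _)) _ hN,
      UsesP.mono (Below.mono (le_max_right _ _)) _ hN'⟩
  | .loop _ p => exists_usesP p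

theorem exists_usesX {σ : Type} : ∀ (q : XProg (AG C ℕ tm) σ), ∃ N, UsesX (Below tm N) q
  | .prog p => exists_usesP p
  | .basic q => exists_usesS q
  | .seq q₁ q₂ => by
    obtain ⟨N, hN⟩ := exists_usesX q₁
    obtain ⟨N', hN'⟩ := exists_usesX q₂
    exact ⟨max N N', UsesX.mono (Below.mono (le_max_left _ _)) _ hN,
      UsesX.mono (Below.mono (le_max_right _ _)) _ hN'⟩
  | .ite _ q₁ q₂ => by
    obtain ⟨N, hN⟩ := exists_usesX q₁
    obtain ⟨N', hN'⟩ := exists_usesX q₂
    exact ⟨max N N', UsesX.mono (Below.mono (le_max_left _ _)) _ hN,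
      UsesX.mono (Below.mono (le_max_right _ _)) _ hN'⟩
  | .loop _ p => exists_usesX p

end

/-- finitely many of the stacks -/
def eN {ι : Type} (tm : ι → FinTM2) (N : ℕ) : AK (Fin N) tm → AK ℕ tm := Sum.map Fin.val id

/-- the alphabet of the first stack is finite -/
@[instance_reducible]
def fintypeE (C : Type) [Fintype C] {ι : Type} (tm : ι → FinTM2) (N : ℕ) :
    Fintype (AG C ℕ tm (eN tm (N + 1) (.inl 0))) :=
  inferInstanceAs (Fintype C)

/-- word functions computable in polynomial time -/
abbrev PT {C : Type} (f : List C → List C) : Prop :=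
  Nonempty (TM2ComputableInPolyTime (id : List C → List C) (id : List C → List C) f)

section Final

variable {C : Type} [Inhabited C]

theorem goodX_computable [Fintype C] {ι : Type} [Fintype ι] [DecidableEq ι] (tm : ι → FinTM2)
    (F : (Fin 1 → List C) → List C) (h : GoodX tm F) : PT (fun w => F ![w]) := by
  obtain ⟨⟨b, hb⟩, q, hq⟩ := h
  obtain ⟨p, hp⟩ := hq (fun _ => 1) 2 3 (by simp) (by omega) (by simp)
  let v₀ : AM C tm := (none, fun i => ((tm i).initialState, none))
  let P : XP C ℕ tm := .seq (liftN (moveP 0 1)) (.seq p (.seq (liftN (.seq (clearP 1) (moveP 2 0)))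
    (.prog (.load (fun _ => v₀)))))
  obtain ⟨N, hN⟩ := exists_usesX P
  have hN1 : UsesX (Below tm (N + 3)) P := UsesX.mono (Below.mono (by omega)) P hN
  have he : Injective (eN tm (N + 3)) := Sum.map_injective.2 ⟨Fin.val_injective, injective_id⟩
  have hN2 : UsesX (fun k => ∃ j, eN tm (N + 3) j = k) P := by
    refine UsesX.mono (fun k hk => ?_) P hN1
    rcases k with k | k
    · exact ⟨.inl ⟨k, hk⟩, rfl⟩
    · exact ⟨.inr k, rfl⟩
  obtain ⟨P', hP'⟩ := exists_restrX (eN tm (N + 3)) he P hN2
  let _ : ∀ i, Fintype (tm i).K := fun i => (tm i).kFin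
  let _ : ∀ i, Fintype (tm i).σ := fun i => (tm i).σFin
  let _ : ∀ i, Fintype (tm i).Λ := fun i => (tm i).ΛFin
  let _ := fintypeE C tm (N + 2)
  refine ⟨XProg.computable (K := AK (Fin (N + 3)) tm) (Γ := fun k => AG C ℕ tm (eN tm (N + 3) k))
    (σ := AM C tm) id id _ v₀ (.inl 0) (.inl 0) P'
    (Equiv.refl C) (Equiv.refl C) (q + 3 * b + 6 * Polynomial.X + 10) ?_⟩
  intro w
  obtain ⟨t1, ht1, hr1⟩ := moveP_run 0 1 (by omega) (update (fun _ => []) 0 w) (none : Option C)
  have e1 : update (update (update (fun _ : ℕ => ([] : List C)) 0 w) 0 []) 1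
      ((update (fun _ => []) 0 w 0).reverse ++ update (fun _ => []) 0 w 1) =
      update (fun _ => []) 1 w.reverse := by
    funext k
    rcases k with _ | _ | k <;> simp [Function.update_apply]
  rw [e1] at hr1
  have hr1 := liftN_run hr1 v₀.2
  obtain ⟨r2, t2, ht2, hr2⟩ := hp ![w] (update (fun _ => []) 1 w.reverse) (none, v₀.2)
    (by intro i; fin_cases i; simp)
    (by intro j hj; rw [update_of_ne (by omega)])
  obtain ⟨t3, ht3, hr3⟩ := clearP_run (C := C) 1 (update (update (fun _ => []) 1 w.reverse) 2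
    ((F ![w]).reverse ++ update (fun _ => []) 1 w.reverse 2)) r2.1
  have e3 : update (update (update (fun _ : ℕ => ([] : List C)) 1 w.reverse) 2
    ((F ![w]).reverse ++ update (fun _ => []) 1 w.reverse 2)) 1 [] =
      update (fun _ => []) 2 (F ![w]).reverse := by
    funext k
    rcases k with _ | _ | _ | k <;> simp [Function.update_apply]
  rw [e3] at hr3
  obtain ⟨t4, ht4, hr4⟩ := moveP_run 2 0 (by omega) (update (fun _ => []) 2 (F ![w]).reverse)
    (none : Option C)
  have e4 : update (update (update (fun _ : ℕ => ([] : List C)) 2 (F ![w]).reverse) 2 []) 0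
      ((update (fun _ => []) 2 (F ![w]).reverse 2).reverse ++
        update (fun _ => []) 2 (F ![w]).reverse 0) = update (fun _ => []) 0 (F ![w]) := by
    funext k
    rcases k with _ | _ | _ | k <;> simp [Function.update_apply]
  rw [e4] at hr4
  have hr34 := liftN_run (Prog.Run.seq hr3 hr4) r2.2
  have hr5 := RunN.load (tm := tm) (fun _ => v₀) (none, r2.2)
    (update (fun _ => []) 0 (F ![w]))
  have hR : RunN P v₀ (update (fun _ => []) 0 w) v₀ (update (fun _ => []) 0 (F ![w]))
      (t1 + (t2 + (t3 + t4 + 1))) := RunN.seq hr1 (RunN.seq hr2 (RunN.seq hr34 hr5))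
  have hR' := hP' _ _ _ _ _ hR
  have e5 : ∀ u : List C, pull (eN tm (N + 3)) (mk tm (update (fun _ => []) 0 u)) =
      @update (AK (Fin (N + 3)) tm) (fun k => List (AG C ℕ tm (eN tm (N + 3) k))) _
        (fun _ => []) (.inl 0) u := by
    intro u
    rw [← update_mk]
    have h := pull_update (Γ := AG C ℕ tm) (eN tm (N + 3)) he (mk tm (fun _ => [])) (.inl 0) u
    refine h.trans ?_
    congr 1
    funext k
    rcases k with k | k <;> rfl
  rw [e5, e5] at hR'
  refine ⟨t1 + (t2 + (t3 + t4 + 1)), ?_, ?_⟩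
  rotate_left
  · have key : ∀ u : List C, (List.map (Equiv.symm
        (α := AG C ℕ tm (eN tm (N + 3) (Sum.inl 0))) (β := C) (Equiv.refl C)) u :
        List (AG C ℕ tm (eN tm (N + 3) (Sum.inl 0)))) = u := fun u => List.map_id u
    have h7 := congrArg₂ (fun (x y : List (AG C ℕ tm (eN tm (N + 3) (Sum.inl 0)))) =>
      XProg.Run P' v₀ (@update (AK (Fin (N + 3)) tm)
        (fun k => List (AG C ℕ tm (eN tm (N + 3) k))) _ (fun _ => []) (.inl 0) x) v₀
        (@update (AK (Fin (N + 3)) tm)
        (fun k => List (AG C ℕ tm (eN tm (N + 3) k))) _ (fun _ => []) (.inl 0) y)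
        (t1 + (t2 + (t3 + t4 + 1)))) (key w) (key (F ![w]))
    exact h7.mpr hR'
  · have s1 : size ![w] = w.length := by simp [size]
    have s2 := hb ![w]
    rw [s1] at s2 ht2
    simp only [update_self, List.length_reverse] at ht1 ht4
    rw [update_of_ne (by omega), update_self, List.length_reverse] at ht3
    simp only [Polynomial.eval_add, Polynomial.eval_mul, Polynomial.eval_X,
      Polynomial.eval_ofNat, id_eq]
    omega

end Final

/-- Functions from `m` words to a word which are given by polynomial-time generators with calls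
of the functions `f i`. -/
inductive XGen {C ι : Type} (f : ι → List C → List C) :
    (m : ℕ) → ((Fin m → List C) → List C) → Prop
  | const {m : ℕ} (w : List C) : XGen f m (fun _ => w)
  | append {m : ℕ} {F G : (Fin m → List C) → List C} :
      XGen f m F → XGen f m G → XGen f m (fun ρ => F ρ ++ G ρ)
  | loop {m : ℕ} (j : Fin m) (F : C → (Fin (m + 1) → List C) → List C)
      (h : ∀ c, XGen f (m + 1) (F c)) :
      XGen f m (fun ρ => scan (fun p c => F c (Matrix.vecCons p ρ)) [] (ρ j))
  | letw {m : ℕ} {F : (Fin m → List C) → List C} {G : (Fin (m + 1) → List C) → List C} :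
      XGen f m F → XGen f (m + 1) G → XGen f m (fun ρ => G (Matrix.vecCons (F ρ) ρ))
  | rename {m m' : ℕ} {F : (Fin m → List C) → List C} (g : Fin m → Fin m') :
      XGen f m F → XGen f m' (fun ρ => F (ρ ∘ g))
  | caseLast {m : ℕ} (j : Fin m) (F : Option C → (Fin m → List C) → List C)
      (h : ∀ c, XGen f m (F c)) : XGen f m (fun ρ => F (ρ j).getLast? ρ)
  | drop {m : ℕ} (i j : Fin m) : XGen f m (fun ρ => (ρ i).drop (ρ j).length)
  | call {m : ℕ} (i : ι) {F : (Fin m → List C) → List C} :
      XGen f m F → XGen f m (fun ρ => f i (F ρ))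
  | fold {m : ℕ} (j : Fin m) (F : C → (Fin (m + 2) → List C) → List C)
      (G : (Fin m → List C) → List C) (B : Polynomial ℕ) (h : ∀ c, XGen f (m + 2) (F c))
      (hG : XGen f m G)
      (hB : ∀ (ρ : Fin m → List C) (d l : List C), d ++ l = ρ j →
        (foldS (fun c p w => F c (Matrix.vecCons w (Matrix.vecCons p ρ))) (G ρ) [] d).length ≤
          B.eval (size ρ)) :
      XGen f m (fun ρ =>
        foldS (fun c p w => F c (Matrix.vecCons w (Matrix.vecCons p ρ))) (G ρ) [] (ρ j))

theorem XGen.good {C : Type} [Fintype C] [Inhabited C] {ι : Type} [DecidableEq ι]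
    {tm : ι → FinTM2} {f : ι → List C → List C} (hf : ∀ i, Comp (tm i) (f i)) {m : ℕ}
    {F : (Fin m → List C) → List C} (h : XGen f m F) : GoodX tm F := by
  induction h with
  | const w => exact GoodX.of_good (good_const w)
  | append _ _ h1 h2 => exact goodX_append h1 h2
  | loop j F _ h => exact goodX_loop j F h
  | letw _ _ h1 h2 => exact goodX_letw h1 h2
  | rename f _ h => exact goodX_rename f h
  | caseLast j F _ h => exact goodX_caseLast j F h
  | drop i j => exact GoodX.of_good (good_drop i j)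
  | call i _ h => exact goodX_call i (hf i) h
  | fold j F G B _ _ hB h hG => exact goodX_fold j F G B h hG hB

theorem XGen.map {C ι ι' : Type} {f : ι → List C → List C} {f' : ι' → List C → List C}
    (g : ι → ι') (hg : ∀ i, f' (g i) = f i) {m : ℕ} {F : (Fin m → List C) → List C}
    (h : XGen f m F) : XGen f' m F := by
  induction h with
  | const w => exact .const w
  | append _ _ h1 h2 => exact .append h1 h2
  | loop j F _ h => exact .loop j F h
  | letw _ _ h1 h2 => exact .letw h1 h2
  | rename f _ h => exact .rename f h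
  | caseLast j F _ h => exact .caseLast j F h
  | drop i j => exact .drop i j
  | call i _ h => rw [← hg i]; exact .call (g i) h
  | fold j F G B _ _ hB h hG => exact .fold j F G B h hG hB

/-- Functions from `m` words to a word which are built by polynomial-time constructions. -/
inductive FP {C : Type} : (m : ℕ) → ((Fin m → List C) → List C) → Prop
  | const {m : ℕ} (w : List C) : FP m (fun _ => w)
  | append {m : ℕ} {F G : (Fin m → List C) → List C} :
      FP m F → FP m G → FP m (fun ρ => F ρ ++ G ρ)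
  | loop {m : ℕ} (j : Fin m) (F : C → (Fin (m + 1) → List C) → List C)
      (h : ∀ c, FP (m + 1) (F c)) :
      FP m (fun ρ => scan (fun p c => F c (Matrix.vecCons p ρ)) [] (ρ j))
  | letw {m : ℕ} {F : (Fin m → List C) → List C} {G : (Fin (m + 1) → List C) → List C} :
      FP m F → FP (m + 1) G → FP m (fun ρ => G (Matrix.vecCons (F ρ) ρ))
  | rename {m m' : ℕ} {F : (Fin m → List C) → List C} (g : Fin m → Fin m') :
      FP m F → FP m' (fun ρ => F (ρ ∘ g))
  | caseLast {m : ℕ} (j : Fin m) (F : Option C → (Fin m → List C) → List C)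
      (h : ∀ c, FP m (F c)) : FP m (fun ρ => F (ρ j).getLast? ρ)
  | drop {m : ℕ} (i j : Fin m) : FP m (fun ρ => (ρ i).drop (ρ j).length)
  | call {m : ℕ} {f : List C → List C} {F : (Fin m → List C) → List C} :
      PT f → FP m F → FP m (fun ρ => f (F ρ))
  | fold {m : ℕ} (j : Fin m) (F : C → (Fin (m + 2) → List C) → List C)
      (G : (Fin m → List C) → List C) (B : Polynomial ℕ) (h : ∀ c, FP (m + 2) (F c))
      (hG : FP m G)
      (hB : ∀ (ρ : Fin m → List C) (d l : List C), d ++ l = ρ j →
        (foldS (fun c p w => F c (Matrix.vecCons w (Matrix.vecCons p ρ))) (G ρ) [] d).length ≤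
          B.eval (size ρ)) :
      FP m (fun ρ =>
        foldS (fun c p w => F c (Matrix.vecCons w (Matrix.vecCons p ρ))) (G ρ) [] (ρ j))

theorem FP.exists_xgen {C : Type} [Fintype C] {m : ℕ} {F : (Fin m → List C) → List C}
    (h : FP m F) : ∃ (ι : Type) (_ : Fintype ι) (f : ι → List C → List C), (∀ i, PT (f i)) ∧
      XGen f m F := by
  induction h with
  | const w => exact ⟨Empty, inferInstance, Empty.elim, Empty.rec, .const w⟩
  | append _ _ h1 h2 =>
    obtain ⟨ι, _, f, hf, h⟩ := h1
    obtain ⟨ι', _, f', hf', h'⟩ := h2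
    exact ⟨ι ⊕ ι', inferInstance, Sum.elim f f', Sum.rec hf hf',
      .append (h.map Sum.inl fun _ => rfl) (h'.map Sum.inr fun _ => rfl)⟩
  | loop j F _ h =>
    choose ι inst f hf h using h
    exact ⟨Σ c, ι c, inferInstance, fun x => f x.1 x.2, fun x => hf x.1 x.2,
      .loop j F (fun c => (h c).map (fun i => ⟨c, i⟩) fun _ => rfl)⟩
  | letw _ _ h1 h2 =>
    obtain ⟨ι, _, f, hf, h⟩ := h1
    obtain ⟨ι', _, f', hf', h'⟩ := h2
    exact ⟨ι ⊕ ι', inferInstance, Sum.elim f f', Sum.rec hf hf',
      .letw (h.map Sum.inl fun _ => rfl) (h'.map Sum.inr fun _ => rfl)⟩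
  | rename g _ h =>
    obtain ⟨ι, inst, f, hf, h⟩ := h
    exact ⟨ι, inst, f, hf, .rename g h⟩
  | caseLast j F _ h =>
    choose ι inst f hf h using h
    exact ⟨Σ c, ι c, inferInstance, fun x => f x.1 x.2, fun x => hf x.1 x.2,
      .caseLast j F (fun c => (h c).map (fun i => ⟨c, i⟩) fun _ => rfl)⟩
  | drop i j => exact ⟨Empty, inferInstance, Empty.elim, Empty.rec, .drop i j⟩
  | @call m f₀ F hf₀ _ h =>
    obtain ⟨ι, _, f, hf, h⟩ := h
    exact ⟨Option ι, inferInstance, fun i => i.elim f₀ f, fun i => by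
      cases i with
      | none => exact hf₀
      | some i => exact hf i,
      .call (f := fun i : Option ι => i.elim f₀ f) none (h.map some fun _ => rfl)⟩
  | fold j F G B _ _ hB h hG =>
    choose ι inst f hf h using h
    obtain ⟨ι', _, f', hf', h'⟩ := hG
    exact ⟨(Σ c, ι c) ⊕ ι', inferInstance, Sum.elim (fun x => f x.1 x.2) f',
      Sum.rec (fun x => hf x.1 x.2) hf',
      .fold j F G B (fun c => (h c).map (fun i => .inl ⟨c, i⟩) fun _ => rfl)
        (h'.map Sum.inr fun _ => rfl) hB⟩

/-- Functions of one variable in the class are computable in polynomial time. -/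
theorem FP.pt {C : Type} [Fintype C] [Inhabited C] {F : (Fin 1 → List C) → List C}
    (h : FP 1 F) : PT (fun w => F ![w]) := by
  classical
  obtain ⟨ι, _, f, hf, h⟩ := h.exists_xgen
  let H := fun i => (hf i).some
  exact goodX_computable (fun i => (H i).tm) F (h.good (fun i =>
    { inp := (H i).inputAlphabet
      out := (H i).outputAlphabet
      time := (H i).time
      outputs := fun w => ⟨(H i).outputsFun w⟩ }))

/-- Functions in the class have polynomial length. -/
theorem FP.bound {C : Type} [Fintype C] [Inhabited C] {m : ℕ} {F : (Fin m → List C) → List C}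
    (h : FP m F) : ∃ b : Polynomial ℕ, ∀ ρ, (F ρ).length ≤ b.eval (size ρ) := by
  classical
  obtain ⟨ι, _, f, hf, h⟩ := h.exists_xgen
  let H := fun i => (hf i).some
  exact (h.good (tm := fun i => (H i).tm) (fun i =>
    { inp := (H i).inputAlphabet
      out := (H i).outputAlphabet
      time := (H i).time
      outputs := fun w => ⟨(H i).outputsFun w⟩ })).1

end Pool.Agent.H2XG
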