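import Pool.Agent.Helper2_XG.Good

/-!
# Folds and calls
-/

set_option autoImplicit false

namespace Pool.Agent.H2XG

open Turing Function Computability StateTransition Pool.Agent.Helper32_Poly Pool.Agent.UT
open Pool.Agent.Helper53_CookLevin (scan scan_append size size_cons length_le_size size_rename
  Good good_const good_drop clearP clearP_run moveP moveP_run copyP copyP_run)

section

variable {C : Type} {ι : Type} {tm : ι → FinTM2} [DecidableEq ι] [Inhabited C]

/-- replace the state (stack `s+3`) by the word in stack `s+2` -/
def swapX (s : ℕ) : XP C ℕ tm :=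
  liftN (.seq (clearP (s + 3)) (.seq (moveP (s + 2) (s + 4)) (moveP (s + 4) (s + 3))))

theorem swapX_run (s : ℕ) (S : ℕ → List C) (r : AM C tm) (h4 : S (s + 4) = []) :
    ∃ r' t, t ≤ (S (s + 3)).length * 3 + (S (s + 2)).length * 6 + 6 ∧
      RunN (swapX s : XP C ℕ tm) r S r' (update (update S (s + 3) (S (s + 2))) (s + 2) []) t := by
  obtain ⟨t1, ht1, hr1⟩ := clearP_run (s + 3) S r.1
  obtain ⟨t2, ht2, hr2⟩ := moveP_run (s + 2) (s + 4) (by omega) (update S (s + 3) []) none
  obtain ⟨t3, ht3, hr3⟩ := moveP_run (s + 4) (s + 3) (by omega)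
    (update (update (update S (s + 3) []) (s + 2) []) (s + 4)
      ((update S (s + 3) [] (s + 2)).reverse ++ update S (s + 3) [] (s + 4))) none
  have e1 : update S (s + 3) [] (s + 2) = S (s + 2) := by rw [update_of_ne (by omega)]
  have e2 : update S (s + 3) [] (s + 4) = [] := by rw [update_of_ne (by omega), h4]
  rw [e1, e2] at hr2 hr3
  rw [e1] at ht2
  rw [e1, e2] at ht3
  have e3 : (update (update (update (update (update S (s + 3) []) (s + 2) []) (s + 4)
      ((S (s + 2)).reverse ++ [])) (s + 4) []) (s + 3)
      ((update (update (update S (s + 3) []) (s + 2) []) (s + 4)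
      ((S (s + 2)).reverse ++ []) (s + 4)).reverse ++
        (update (update (update S (s + 3) []) (s + 2) []) (s + 4)
      ((S (s + 2)).reverse ++ []) (s + 3)))) =
      update (update S (s + 3) (S (s + 2))) (s + 2) [] := by
    funext k
    simp only [Function.update_apply, List.append_nil]
    split_ifs
    all_goals first
      | rfl
      | omega
      | (subst_vars; simp_all)
  rw [e3] at hr3
  refine ⟨(none, r.2), t1 + (t2 + t3), ?_, liftN_run (Prog.Run.seq hr1 (Prog.Run.seq hr2 hr3)) r.2⟩
  have e4 : (update (update (update S (s + 3) []) (s + 2) []) (s + 4)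
      ((S (s + 2)).reverse ++ []) (s + 4)).length = (S (s + 2)).length := by
    rw [update_self]; simp
  rw [e4] at ht3
  omega

/-- program for a fold over the variable in stack `a` -/
noncomputable def foldX [Fintype C] (a s o : ℕ) (Q : XP C ℕ tm) (P : C → XP C ℕ tm) :
    XP C ℕ tm :=
  .seq Q (.seq (liftN (copyP a s)) (.seq
    (forEachN (s + 1)
      (switchN (fun r => r.1) (fun c => .seq (P c) (.seq (swapX s)
        (.prog (.push (.inl s) (fun _ => c)))))
        (Finset.univ : Finset C).toList))
    (liftN (.seq (clearP s) (.seq (moveP (s + 3) (s + 4)) (moveP (s + 4) o))))))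

theorem foldX_run [Fintype C] (a s o : ℕ) (ha : a < s) (ho : o < s) (hao : a ≠ o)
    (Q : XP C ℕ tm) (P : C → XP C ℕ tm) (f : C → List C → List C → List C) (g : List C)
    (S : ℕ → List C) (r : AM C tm) (w : List C)
    (T B T0 : ℕ) (hw : S a = w.reverse) (hs : ∀ j, s ≤ j → S j = [])
    (hQ : ∃ r' t, t ≤ T0 ∧ RunN Q r S r' (update S (s + 3) g.reverse) t)
    (hB : ∀ d l, d ++ l = w → (foldS f g [] d).length ≤ B)
    (hP : ∀ (c : C) (d l : List C), d ++ c :: l = w → ∀ (S' : ℕ → List C) (r : AM C tm),
      (∀ j, j < s → S' j = S j) → S' s = d.reverse →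
      S' (s + 3) = (foldS f g [] d).reverse → S' (s + 2) = [] → (∀ j, s + 4 ≤ j → S' j = []) →
      ∃ r' t, t ≤ T ∧ RunN (P c) r S' r'
        (update S' (s + 2) (f c d (foldS f g [] d)).reverse) t) :
    ∃ r' t, t ≤ T0 + w.length * (T + 9 * B + Fintype.card C + 30) + 6 * B + 30 ∧
      RunN (foldX a s o Q P) r S r' (update S o ((foldS f g [] w).reverse ++ S o)) t := by
  obtain ⟨r0, t0, ht0, hr0⟩ := hQ
  obtain ⟨t1, ht1, hr1⟩ := copyP_run a s ha (update S (s + 3) g.reverse) r0.1 w
    (by rw [update_of_ne (by omega)]; exact hw)
    (by rw [update_of_ne (by omega)]; exact hs _ (by omega))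
    (by rw [update_of_ne (by omega)]; exact hs _ (by omega))
  have hr1 := liftN_run hr1 r0.2
  obtain ⟨v2, S2, t2, ht2, hr2, hI2, -⟩ := forEachN_run (s + 1)
    (switchN (fun r : AM C tm => r.1) (fun c => .seq (P c) (.seq (swapX s)
        (.prog (.push (.inl s) (fun _ => c)))))
        (Finset.univ : Finset C).toList)
    (fun l _ S' => ∃ d, d ++ l = w ∧
      S' = update (update (update S (s + 1) l) s d.reverse) (s + 3) (foldS f g [] d).reverse)
    (T + 9 * B + 7 + Fintype.card C)
    (by
      rintro c l v S' ⟨d, hd, rfl⟩ -
      obtain ⟨r', t, ht, hr⟩ := hP c d l hd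
        (update (update (update (update S (s + 1) (c :: l)) s d.reverse) (s + 3)
          (foldS f g [] d).reverse) (s + 1) l) (some c, v.2)
        (by
          intro j hj
          simp only [Function.update_apply]
          split_ifs <;> first | rfl | omega)
        (by
          simp only [Function.update_apply]
          split_ifs <;> first | rfl | omega)
        (by
          simp only [Function.update_apply]
          split_ifs <;> first | rfl | omega)
        (by
          simp only [Function.update_apply]
          split_ifs <;> first | exact hs _ (by omega) | omega)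
        (by
          intro j hj
          simp only [Function.update_apply]
          split_ifs <;> first | exact hs j (by omega) | omega)
      obtain ⟨r'', t', ht', hr'⟩ := swapX_run s (update
        (update (update (update (update S (s + 1) (c :: l)) s d.reverse) (s + 3)
          (foldS f g [] d).reverse) (s + 1) l) (s + 2) (f c d (foldS f g [] d)).reverse) r'
        (by
          simp only [Function.update_apply]
          split_ifs <;> first | exact hs _ (by omega) | omega)
      have hr3 := RunN.seq hr (RunN.seq hr' (RunN.push s (fun _ => c) _ _))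
      obtain ⟨t3, ht3, hr4⟩ := switchN_run (fun r : AM C tm => r.1)
        (fun c => .seq (P c) (.seq (swapX s)
        (.prog (.push (.inl s) (fun _ => c))))) (a := c) (v := (some c, v.2))
        rfl hr3 (Finset.univ : Finset C).toList (by simp)
      have hfold : foldS f g [] (d ++ [c]) = f c d (foldS f g [] d) := by
        rw [foldS_append]; simp [foldS]
      refine ⟨_, _, t3, ?_, hr4, ⟨d ++ [c], by simpa using hd, ?_⟩, ?_⟩
      · rw [Finset.length_toList, Finset.card_univ] at ht3
        have b1 := hB d (c :: l) hd
        have b2 := hB (d ++ [c]) l (by simpa using hd)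
        rw [hfold] at b2
        have e1 : (update (update (update (update (update S (s + 1) (c :: l)) s d.reverse) (s + 3)
          (foldS f g [] d).reverse) (s + 1) l) (s + 2) (f c d (foldS f g [] d)).reverse
          (s + 3)).length = (foldS f g [] d).length := by
          simp only [Function.update_apply]
          split_ifs <;> first | omega | simp
        have e2 : (update (update (update (update (update S (s + 1) (c :: l)) s d.reverse) (s + 3)
          (foldS f g [] d).reverse) (s + 1) l) (s + 2) (f c d (foldS f g [] d)).reverse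
          (s + 2)).length = (f c d (foldS f g [] d)).length := by
          simp only [Function.update_apply]
          split_ifs <;> first | omega | simp
        rw [e1, e2] at ht'
        omega
      · rw [hfold]
        funext k
        simp only [List.nil_append, List.append_nil,
          List.reverse_append, List.reverse_cons, List.reverse_nil,
          List.singleton_append, Function.update_apply]
        split_ifs
        all_goals first
          | rfl
          | omega
          | (subst_vars; first | rfl | exact hs _ (by omega) | exact (hs _ (by omega)).symm)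
      · simp only [Function.update_apply]
        split_ifs <;> first | rfl | omega)
    w (none, r0.2) (update (update S (s + 3) g.reverse) (s + 1) w) (by simp) ⟨[], rfl, by
      funext k
      simp only [Function.update_apply, foldS, List.reverse_nil]
      split_ifs
      all_goals first
        | rfl
        | omega
        | (subst_vars; first | rfl | exact hs _ (by omega) | exact (hs _ (by omega)).symm)⟩
  obtain ⟨d, hd, rfl⟩ := hI2
  rw [List.append_nil] at hd
  subst hd
  obtain ⟨t3, ht3, hr3⟩ := clearP_run (C := C) s (update (update (update S (s + 1) []) s d.reverse)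
    (s + 3) (foldS f g [] d).reverse) none
  obtain ⟨t4, ht4, hr4⟩ := moveP_run (C := C) (s + 3) (s + 4) (by omega)
    (update (update (update (update S (s + 1) []) s d.reverse)
    (s + 3) (foldS f g [] d).reverse) s []) none
  have e4 : update (update (update (update (update (update S (s + 1) []) s d.reverse)
      (s + 3) (foldS f g [] d).reverse) s []) (s + 3) []) (s + 4)
      ((update (update (update (update S (s + 1) []) s d.reverse)
        (s + 3) (foldS f g [] d).reverse) s [] (s + 3)).reverse ++
      (update (update (update (update S (s + 1) []) s d.reverse)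
        (s + 3) (foldS f g [] d).reverse) s [] (s + 4))) =
      update S (s + 4) (foldS f g [] d) := by
    funext k
    simp only [Function.update_apply]
    split_ifs
    all_goals first
      | rfl
      | omega
      | (subst_vars; rw [hs _ (by omega)]; simp)
      | (subst_vars; exact (hs _ (by omega)).symm)
  rw [e4] at hr4
  have l4 : (update (update (update (update S (s + 1) []) s d.reverse)
    (s + 3) (foldS f g [] d).reverse) s [] (s + 3)).length = (foldS f g [] d).length := by
    simp only [Function.update_apply]
    split_ifs <;> first | omega | simp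
  rw [l4] at ht4
  obtain ⟨t5, ht5, hr5⟩ := moveP_run (C := C) (s + 4) o (by omega)
    (update S (s + 4) (foldS f g [] d)) none
  have e5 : update (update (update S (s + 4) (foldS f g [] d)) (s + 4) []) o
      ((update S (s + 4) (foldS f g [] d) (s + 4)).reverse ++
        update S (s + 4) (foldS f g [] d) o) =
      update S o ((foldS f g [] d).reverse ++ S o) := by
    funext k
    simp only [Function.update_apply]
    split_ifs
    all_goals first
      | rfl
      | omega
      | (subst_vars; first | rfl | exact hs _ (by omega) | exact (hs _ (by omega)).symm)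
  rw [e5] at hr5
  rw [update_self] at ht5
  have e3 : (update (update (update S (s + 1) []) s d.reverse)
    (s + 3) (foldS f g [] d).reverse s).length = d.length := by
    simp only [Function.update_apply]
    split_ifs <;> first | omega | simp
  rw [e3] at ht3
  have hr6 := liftN_run (Prog.Run.seq hr3 (Prog.Run.seq hr4 hr5)) v2.2
  refine ⟨_, t0 + (t1 + (t2 + (t3 + (t4 + t5)))), ?_,
    RunN.seq hr0 (RunN.seq hr1 (RunN.seq hr2 hr6))⟩
  have b1 := hB d [] (by simp)
  have h1 : d.length * (T + 9 * B + Fintype.card C + 30) =
    d.length * 7 + d.length * (T + 9 * B + 7 + Fintype.card C + 2) + d.length * 14 := by ring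
  omega

theorem goodX_fold [Fintype C] {m : ℕ} (j : Fin m) (F : C → (Fin (m + 2) → List C) → List C)
    (G : (Fin m → List C) → List C) (B : Polynomial ℕ)
    (h : ∀ c, GoodX tm (F c)) (hG : GoodX tm G)
    (hB : ∀ (ρ : Fin m → List C) (d l : List C), d ++ l = ρ j →
      (foldS (fun c p w => F c (Matrix.vecCons w (Matrix.vecCons p ρ))) (G ρ) [] d).length ≤
        B.eval (size ρ)) :
    GoodX tm (fun ρ : Fin m → List C =>
      foldS (fun c p w => F c (Matrix.vecCons w (Matrix.vecCons p ρ))) (G ρ) [] (ρ j)) := by
  have h2 := fun c => (h c).2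
  choose q hq using h2
  clear h
  obtain ⟨-, q0, hq0⟩ := hG
  have hsz : ∀ (ρ : Fin m → List C) (d l : List C) (c : C), d ++ c :: l = ρ j →
      size (Matrix.vecCons (foldS (fun c p w => F c (Matrix.vecCons w (Matrix.vecCons p ρ)))
        (G ρ) [] d) (Matrix.vecCons d ρ)) ≤ (2 * Polynomial.X + B).eval (size ρ) := by
    intro ρ d l c hd
    rw [size_cons, size_cons]
    have h1 := length_le_size ρ j
    rw [← hd, List.length_append] at h1
    have h2 := hB ρ d _ hd
    simp only [Polynomial.eval_add, Polynomial.eval_mul, Polynomial.eval_X,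
      Polynomial.eval_ofNat]
    omega
  refine ⟨⟨B, fun ρ => hB ρ _ [] (by simp)⟩,
    q0 + Polynomial.X * ((∑ c, q c).comp (2 * Polynomial.X + B) + 9 * B +
      (Fintype.card C : Polynomial ℕ) + 30) + 6 * B + 30, fun vm o s hv ho hvo => ?_⟩
  have hc : ∀ c, ∃ p : XP C ℕ tm, ∀ (ρ : Fin (m + 2) → List C) (S : ℕ → List C) (r : AM C tm),
      (∀ i, S ((Matrix.vecCons (s + 3) (Matrix.vecCons s vm) : Fin (m + 2) → ℕ) i) =
        (ρ i).reverse) →
      (∀ j, s + 4 ≤ j → S j = []) →
      ∃ r' t, t ≤ (q c).eval (size ρ) ∧
        RunN p r S r' (update S (s + 2) ((F c ρ).reverse ++ S (s + 2))) t := by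
    intro c
    refine hq c _ (s + 2) (s + 4) ?_ (by omega) ?_
    · intro i
      refine Fin.cases ?_ (fun i => ?_) i
      · simp
      · refine Fin.cases ?_ (fun i => ?_) i
        · simp
        · have := hv i; simp; omega
    · intro i
      refine Fin.cases ?_ (fun i => ?_) i
      · simp
      · refine Fin.cases ?_ (fun i => ?_) i
        · simp
        · have := hv i; simp; omega
  choose P hP using hc
  obtain ⟨Q, hQ⟩ := hq0 vm (s + 3) (s + 4) (fun i => by have := hv i; omega) (by omega)
    (fun i => by have := hv i; omega)
  refine ⟨foldX (vm j) s o Q P, fun ρ S r hS hs => ?_⟩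
  obtain ⟨r', t, ht, hr⟩ := foldX_run (vm j) s o (hv j) ho (hvo j) Q P
    (fun c p w => F c (Matrix.vecCons w (Matrix.vecCons p ρ))) (G ρ) S r (ρ j)
    ((∑ c, q c).eval ((2 * Polynomial.X + B).eval (size ρ))) (B.eval (size ρ))
    (q0.eval (size ρ)) (hS j) hs
    (by
      obtain ⟨r', t, ht, hr⟩ := hQ ρ S r hS (fun j hj => hs j (by omega))
      rw [hs (s + 3) (by omega), List.append_nil] at hr
      exact ⟨r', t, ht, hr⟩)
    (hB ρ)
    (by
      intro c d l hd S' r hS' hs0 hs3 hs2 hs4
      obtain ⟨r', t, ht, hr⟩ := hP c (Matrix.vecCons (foldS (fun c p w =>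
        F c (Matrix.vecCons w (Matrix.vecCons p ρ))) (G ρ) [] d) (Matrix.vecCons d ρ)) S' r
        (by
          intro i
          refine Fin.cases ?_ (fun i => ?_) i
          · simpa using hs3
          · refine Fin.cases ?_ (fun i => ?_) i
            · simpa using hs0
            · simp only [Matrix.cons_val_succ]
              rw [hS' _ (hv i)]
              exact hS i) hs4
      rw [hs2, List.append_nil] at hr
      refine ⟨r', t, ht.trans ((poly_eval_mono _ (hsz ρ d l c hd)).trans ?_), hr⟩
      rw [Polynomial.eval_finsetSum]
      exact Finset.single_le_sum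
        (f := fun c => (q c).eval ((2 * Polynomial.X + B).eval (size ρ)))
        (fun _ _ => Nat.zero_le _) (Finset.mem_univ c))
  refine ⟨r', t, ht.trans ?_, hr⟩
  simp only [Polynomial.eval_add, Polynomial.eval_mul, Polynomial.eval_X,
    Polynomial.eval_comp, Polynomial.eval_ofNat, Polynomial.eval_natCast, Nat.cast_id]
  have := Nat.mul_le_mul_right ((∑ c, q c).eval (2 * size ρ + B.eval (size ρ)) +
    9 * B.eval (size ρ) + Fintype.card C + 30) (length_le_size ρ j)
  omega

/-- the function of machine `i` -/
structure Comp (tm : FinTM2) (f : List C → List C) where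
  inp : tm.Γ tm.k₀ ≃ C
  out : tm.Γ tm.k₁ ≃ C
  time : Polynomial ℕ
  outputs : ∀ w, Nonempty (TM2OutputsInTime tm (w.map inp.symm) (some ((f w).map out.symm))
    (time.eval w.length))

theorem goodX_call {m : ℕ} {F : (Fin m → List C) → List C} (i : ι) {f : List C → List C}
    (hf : Comp (tm i) f) (hF : GoodX tm F) : GoodX tm (fun ρ : Fin m → List C => f (F ρ)) := by
  obtain ⟨⟨b, hb⟩, q, hq⟩ := hF
  obtain ⟨c, hc⟩ := outputs_length (tm i)
  have hlen : ∀ w, (f w).length ≤ w.length + c * hf.time.eval w.length := by
    intro w
    obtain ⟨h⟩ := hf.outputs w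
    have h2 := hc _ _ _ h
    rw [List.length_map, List.length_map] at h2
    exact h2
  refine ⟨⟨b + (c : Polynomial ℕ) * hf.time.comp b, fun ρ => ?_⟩,
    q + 3 * b + 2 + (2 * hf.time.comp b + 2) + (3 * (b + (c : Polynomial ℕ) * hf.time.comp b) + 2),
    fun vm o s hv ho hvo => ?_⟩
  · refine (hlen (F ρ)).trans ?_
    simp only [Polynomial.eval_add, Polynomial.eval_mul, Polynomial.eval_comp,
      Polynomial.eval_natCast, Nat.cast_id]
    exact Nat.add_le_add (hb ρ) (Nat.mul_le_mul_left _ (poly_eval_mono _ (hb ρ)))
  · obtain ⟨p, hp⟩ := hq vm s (s + 1) (fun i => by have := hv i; omega) (by omega)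
      (fun i => by have := hv i; omega)
    refine ⟨.seq p (.seq (inP s i (tm i).k₀ hf.inp.symm) (.seq (runP i)
      (outP o i (tm i).k₁ hf.out))), fun ρ S r hS hs => ?_⟩
    obtain ⟨r1, t1, ht1, hr1⟩ := hp ρ S r hS (fun j hj => hs j (by omega))
    rw [hs s le_rfl, List.append_nil] at hr1
    have hr2 := inP_run s i (tm i).k₀ hf.inp.symm r1 (update S s (F ρ).reverse)
    rw [update_self, update_idem, List.map_reverse, List.reverse_reverse] at hr2
    have e1 : update S s [] = S := by rw [← hs s le_rfl, update_eq_self]
    rw [e1] at hr2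
    obtain ⟨hM⟩ := hf.outputs (F ρ)
    obtain ⟨r3, t3, ht3, hr3⟩ := runP_run i hM (none, r1.2) S
    have hr4 := outP_run o i (tm i).k₁ hf.out r3 S ((f (F ρ)).map hf.out.symm)
    rw [List.map_map] at hr4
    have e2 : (⇑hf.out ∘ ⇑hf.out.symm) = id := by funext x; simp
    rw [e2, List.map_id, List.length_map] at hr4
    refine ⟨_, _, ?_, XProg.Run.seq hr1 (XProg.Run.seq hr2 (XProg.Run.seq hr3 hr4))⟩
    have a1 := hb ρ
    have a2 := hlen (F ρ)
    have a3 := poly_eval_mono hf.time (hb ρ)
    have a4 : c * hf.time.eval (F ρ).length ≤ c * hf.time.eval (b.eval (size ρ)) :=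
      Nat.mul_le_mul_left _ a3
    simp only [Polynomial.eval_add, Polynomial.eval_mul, Polynomial.eval_comp,
      Polynomial.eval_ofNat, Polynomial.eval_natCast, Nat.cast_id, List.length_reverse]
    omega

end

end Pool.Agent.H2XG
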