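import Pool.Agent.Helper2_XG.CallN

/-!
# Word functions computed by programs which call machines
-/

set_option autoImplicit false

namespace Pool.Agent.H2XG

open Turing Function Computability StateTransition Pool.Agent.Helper32_Poly Pool.Agent.UT
open Pool.Agent.Helper53_CookLevin (scan scan_append size size_cons length_le_size size_rename
  Good good_const good_drop clearP clearP_run moveP moveP_run copyP copyP_run)

/-- `foldS F w p l`: for the letters `c` of `l` one after the other, the state `w` is replaced by
`F c q w` where `q` is `p` followed by the part of `l` before `c`. -/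
def foldS {C : Type} (F : C → List C → List C → List C) : List C → List C → List C → List C
  | w, _, [] => w
  | w, p, c :: l => foldS F (F c p w) (p ++ [c]) l

theorem foldS_append {C : Type} (F : C → List C → List C → List C) : ∀ (w p l₁ l₂ : List C),
    foldS F w p (l₁ ++ l₂) = foldS F (foldS F w p l₁) (p ++ l₁) l₂
  | w, p, [], l₂ => by simp [foldS]
  | w, p, c :: l, l₂ => by
    simp [foldS, foldS_append F (F c p w) (p ++ [c]) l l₂]

section

variable {C : Type} {ι : Type} (tm : ι → FinTM2) [DecidableEq ι]

/-- length bound and compilability -/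
def GoodX {m : ℕ} (F : (Fin m → List C) → List C) : Prop :=
  (∃ b : Polynomial ℕ, ∀ ρ, (F ρ).length ≤ b.eval (size ρ)) ∧
  ∃ q : Polynomial ℕ, ∀ (vm : Fin m → ℕ) (o s : ℕ), (∀ i, vm i < s) → o < s →
    (∀ i, vm i ≠ o) →
    ∃ p : XP C ℕ tm, ∀ (ρ : Fin m → List C) (S : ℕ → List C) (r : AM C tm),
      (∀ i, S (vm i) = (ρ i).reverse) → (∀ j, s ≤ j → S j = []) →
      ∃ r' t, t ≤ q.eval (size ρ) ∧
        RunN p r S r' (update S o ((F ρ).reverse ++ S o)) t

variable {tm}

theorem GoodX.of_good {m : ℕ} {F : (Fin m → List C) → List C} (h : Good F) : GoodX tm F := by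
  obtain ⟨hb, q, hq⟩ := h
  refine ⟨hb, q, fun vm o s hv ho hvo => ?_⟩
  obtain ⟨p, hp⟩ := hq vm o s hv ho hvo
  refine ⟨liftN p, fun ρ S r hS hs => ?_⟩
  obtain ⟨r', t, ht, hr⟩ := hp ρ S r.1 hS hs
  exact ⟨(r', r.2), t, ht, liftN_run hr r.2⟩

theorem goodX_append {m : ℕ} {F G : (Fin m → List C) → List C} (hF : GoodX tm F)
    (hG : GoodX tm G) : GoodX tm (fun ρ => F ρ ++ G ρ) := by
  obtain ⟨⟨b1, hb1⟩, q1, h1⟩ := hF
  obtain ⟨⟨b2, hb2⟩, q2, h2⟩ := hG
  refine ⟨⟨b1 + b2, fun ρ => by
    simp only [List.length_append, Polynomial.eval_add]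
    exact Nat.add_le_add (hb1 ρ) (hb2 ρ)⟩, q1 + q2, fun vm o s hv ho hvo => ?_⟩
  obtain ⟨p1, hp1⟩ := h1 vm o s hv ho hvo
  obtain ⟨p2, hp2⟩ := h2 vm o s hv ho hvo
  refine ⟨.seq p1 p2, fun ρ S r hS hs => ?_⟩
  obtain ⟨r', t, ht, hr⟩ := hp1 ρ S r hS hs
  obtain ⟨r'', t', ht', hr'⟩ := hp2 ρ (update S o ((F ρ).reverse ++ S o)) r'
    (fun i => by rw [update_of_ne (hvo i)]; exact hS i)
    (fun j hj => by rw [update_of_ne (by omega)]; exact hs j hj)
  refine ⟨r'', t + t', ?_, ?_⟩
  · simp only [Polynomial.eval_add]
    exact Nat.add_le_add ht ht'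
  · have h := RunN.seq hr hr'
    rw [update_idem, update_self] at h
    simpa using h

theorem goodX_rename {m m' : ℕ} {F : (Fin m → List C) → List C} (f : Fin m → Fin m')
    (hF : GoodX tm F) : GoodX tm (fun ρ : Fin m' → List C => F (ρ ∘ f)) := by
  obtain ⟨⟨b, hb⟩, q, h⟩ := hF
  refine ⟨⟨b.comp ((m : Polynomial ℕ) * Polynomial.X), fun ρ => ?_⟩,
    q.comp ((m : Polynomial ℕ) * Polynomial.X), fun vm o s hv ho hvo => ?_⟩
  · refine (hb _).trans ?_
    simp only [Polynomial.eval_comp, Polynomial.eval_mul, Polynomial.eval_natCast,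
      Polynomial.eval_X, Nat.cast_id]
    exact poly_eval_mono _ (size_rename ρ f)
  · obtain ⟨p, hp⟩ := h (vm ∘ f) o s (fun i => hv _) ho (fun i => hvo _)
    refine ⟨p, fun ρ S r hS hs => ?_⟩
    obtain ⟨r', t, ht, hr⟩ := hp (ρ ∘ f) S r (fun i => hS _) hs
    refine ⟨r', t, ht.trans ?_, hr⟩
    simp only [Polynomial.eval_comp, Polynomial.eval_mul, Polynomial.eval_natCast,
      Polynomial.eval_X, Nat.cast_id]
    exact poly_eval_mono _ (size_rename ρ f)

variable [Inhabited C]

/-- program for a loop over the variable in stack `a` -/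
noncomputable def loopX [Fintype C] (a s : ℕ) (P : C → XP C ℕ tm) : XP C ℕ tm :=
  .seq (liftN (copyP a s)) (.seq
    (forEachN (s + 1)
      (switchN (fun r => r.1) (fun c => .seq (P c) (.prog (.push (.inl s) (fun _ => c))))
        (Finset.univ : Finset C).toList))
    (liftN (clearP s)))

theorem loopX_run [Fintype C] (a s o : ℕ) (ha : a < s) (ho : o < s) (hao : a ≠ o)
    (P : C → XP C ℕ tm) (f : List C → C → List C) (S : ℕ → List C) (r : AM C tm) (w : List C)
    (T : ℕ) (hw : S a = w.reverse) (hs : ∀ j, s ≤ j → S j = [])
    (hP : ∀ (c : C) (d l : List C), d ++ c :: l = w → ∀ (S' : ℕ → List C) (r : AM C tm),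
      (∀ j, j < s → j ≠ o → S' j = S j) → S' s = d.reverse → (∀ j, s + 2 ≤ j → S' j = []) →
      ∃ r' t, t ≤ T ∧ RunN (P c) r S' r' (update S' o ((f d c).reverse ++ S' o)) t) :
    ∃ r' t, t ≤ w.length * (T + Fintype.card C + 13) + 8 ∧
      RunN (loopX a s P) r S r' (update S o ((scan f [] w).reverse ++ S o)) t := by
  obtain ⟨t1, ht1, hr1⟩ := copyP_run a s ha S r.1 w hw (hs _ (by omega)) (hs _ (by omega))
  have hr1 := liftN_run hr1 r.2
  obtain ⟨v2, S2, t2, ht2, hr2, hI2, -⟩ := forEachN_run (s + 1)
    (switchN (fun r : AM C tm => r.1)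
      (fun c => .seq (P c) (.prog (.push (.inl s) (fun _ => c)))) (Finset.univ : Finset C).toList)
    (fun l _ S' => ∃ d, d ++ l = w ∧
      S' = update (update (update S (s + 1) l) s d.reverse) o ((scan f [] d).reverse ++ S o))
    (T + 1 + Fintype.card C)
    (by
      rintro c l v S' ⟨d, hd, rfl⟩ -
      obtain ⟨r', t, ht, hr⟩ := hP c d l hd
        (update (update (update (update S (s + 1) (c :: l)) s d.reverse) o
          ((scan f [] d).reverse ++ S o)) (s + 1) l) (some c, v.2)
        (by
          intro j hj hjo
          simp only [Function.update_apply]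
          split_ifs <;> first | rfl | omega)
        (by
          simp only [Function.update_apply]
          split_ifs <;> first | rfl | omega)
        (by
          intro j hj
          simp only [Function.update_apply]
          split_ifs <;> first | exact hs j (by omega) | omega)
      have hr3 := RunN.seq hr (RunN.push s (fun _ => c) _ _)
      obtain ⟨t', ht', hr'⟩ := switchN_run (fun r : AM C tm => r.1)
        (fun c => .seq (P c) (.prog (.push (.inl s) (fun _ => c)))) (a := c) (v := (some c, v.2))
        rfl hr3 (Finset.univ : Finset C).toList (by simp)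
      refine ⟨_, _, t', ?_, hr', ⟨d ++ [c], by simpa using hd, ?_⟩, ?_⟩
      · rw [Finset.length_toList, Finset.card_univ] at ht'
        omega
      · funext k
        simp only [scan_append, scan, List.nil_append, List.append_nil,
          List.reverse_append, List.reverse_cons, List.reverse_nil,
          List.singleton_append, Function.update_apply]
        split_ifs <;> first | rfl | omega | simp
      · simp only [Function.update_apply]
        split_ifs <;> first | rfl | omega)
    w (none, r.2) (update S (s + 1) w) (by simp) ⟨[], rfl, by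
      funext k
      simp only [Function.update_apply, scan, List.reverse_nil, List.nil_append]
      split_ifs
      all_goals first
        | rfl
        | omega
        | (subst_vars; first | rfl | exact hs _ (by omega) | exact (hs _ (by omega)).symm)⟩
  obtain ⟨d, hd, rfl⟩ := hI2
  rw [List.append_nil] at hd
  subst hd
  obtain ⟨t3, ht3, hr3⟩ := clearP_run (C := C) s (update (update (update S (s + 1) []) s d.reverse)
    o ((scan f [] d).reverse ++ S o)) none
  have e : update (update (update (update S (s + 1) []) s d.reverse) o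
      ((scan f [] d).reverse ++ S o)) s [] = update S o ((scan f [] d).reverse ++ S o) := by
    funext k
    simp only [Function.update_apply]
    split_ifs
    all_goals first
      | rfl
      | omega
      | (subst_vars; first | rfl | exact hs _ (by omega) | exact (hs _ (by omega)).symm)
  rw [e] at hr3
  have hr3 := liftN_run hr3 v2.2
  have e2 : (update (update (update S (s + 1) []) s d.reverse)
    o ((scan f [] d).reverse ++ S o) s).length = d.length := by
    simp only [Function.update_apply]
    split_ifs <;> first | omega | simp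
  rw [e2] at ht3
  refine ⟨_, t1 + (t2 + t3), ?_, RunN.seq hr1 (RunN.seq hr2 hr3)⟩
  have h1 : d.length * (T + Fintype.card C + 13) =
    d.length * 7 + d.length * (T + 1 + Fintype.card C + 2) + d.length * 3 := by ring
  omega

theorem goodX_loop [Fintype C] {m : ℕ} (j : Fin m) (F : C → (Fin (m + 1) → List C) → List C)
    (h : ∀ c, GoodX tm (F c)) :
    GoodX tm (fun ρ : Fin m → List C =>
      scan (fun p c => F c (Matrix.vecCons p ρ)) [] (ρ j)) := by
  have h1 := fun c => (h c).1
  have h2 := fun c => (h c).2
  choose b hb using h1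
  choose q hq using h2
  clear h
  have hsz : ∀ (ρ : Fin m → List C) (d l : List C) (c : C), d ++ c :: l = ρ j →
      size (Matrix.vecCons d ρ) ≤ 2 * size ρ := by
    intro ρ d l c hd
    rw [size_cons]
    have h1 := length_le_size ρ j
    rw [← hd, List.length_append] at h1
    omega
  refine ⟨⟨Polynomial.X * (∑ c, b c).comp (2 * Polynomial.X), fun ρ => ?_⟩,
    Polynomial.X * ((∑ c, q c).comp (2 * Polynomial.X) + (Fintype.card C : Polynomial ℕ) + 13)
      + 8, fun vm o s hv ho hvo => ?_⟩
  · have key : ∀ (l d : List C), d ++ l = ρ j →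
        (scan (fun p c => F c (Matrix.vecCons p ρ)) d l).length ≤
          l.length * (∑ c, b c).eval (2 * size ρ) := by
      intro l
      induction l with
      | nil => intro d _; simp [scan]
      | cons c l ih =>
        intro d hd
        simp only [scan, List.length_append, List.length_cons]
        have h1 := ih (d ++ [c]) (by simpa using hd)
        have h2 := (hb c (Matrix.vecCons d ρ)).trans (poly_eval_mono _ (hsz ρ d l c hd))
        have h3 : (b c).eval (2 * size ρ) ≤ (∑ c, b c).eval (2 * size ρ) := by
          rw [Polynomial.eval_finsetSum]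
          exact Finset.single_le_sum (f := fun c => (b c).eval (2 * size ρ))
            (fun _ _ => Nat.zero_le _) (Finset.mem_univ c)
        rw [Nat.add_mul, Nat.one_mul]
        omega
    refine (key (ρ j) [] rfl).trans ?_
    simp only [Polynomial.eval_mul, Polynomial.eval_X, Polynomial.eval_comp,
      Polynomial.eval_ofNat]
    exact Nat.mul_le_mul_right _ (length_le_size ρ j)
  · have hc : ∀ c, ∃ p : XP C ℕ tm, ∀ (ρ : Fin (m + 1) → List C) (S : ℕ → List C) (r : AM C tm),
        (∀ i, S ((Matrix.vecCons s vm : Fin (m + 1) → ℕ) i) = (ρ i).reverse) →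
        (∀ j, s + 2 ≤ j → S j = []) →
        ∃ r' t, t ≤ (q c).eval (size ρ) ∧
          RunN p r S r' (update S o ((F c ρ).reverse ++ S o)) t := by
      intro c
      refine hq c _ o (s + 2) ?_ (by omega) ?_
      · intro i
        refine Fin.cases ?_ (fun i => ?_) i
        · simp
        · have := hv i; simp; omega
      · intro i
        refine Fin.cases ?_ (fun i => ?_) i
        · simp; omega
        · simpa using hvo i
    choose P hP using hc
    refine ⟨loopX (vm j) s P, fun ρ S r hS hs => ?_⟩
    obtain ⟨r', t, ht, hr⟩ := loopX_run (vm j) s o (hv j) ho (hvo j) P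
      (fun p c => F c (Matrix.vecCons p ρ)) S r (ρ j) ((∑ c, q c).eval (2 * size ρ)) (hS j) hs
      (by
        intro c d l hd S' r hS' hs1 hs2
        obtain ⟨r', t, ht, hr⟩ := hP c (Matrix.vecCons d ρ) S' r
          (by
            intro i
            refine Fin.cases ?_ (fun i => ?_) i
            · simpa using hs1
            · simp only [Matrix.cons_val_succ]
              rw [hS' _ (hv i) (hvo i)]
              exact hS i) hs2
        refine ⟨r', t, ht.trans ((poly_eval_mono _ (hsz ρ d l c hd)).trans ?_), hr⟩
        rw [Polynomial.eval_finsetSum]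
        exact Finset.single_le_sum (f := fun c => (q c).eval (2 * size ρ))
          (fun _ _ => Nat.zero_le _) (Finset.mem_univ c))
    refine ⟨r', t, ht.trans ?_, hr⟩
    simp only [Polynomial.eval_add, Polynomial.eval_mul, Polynomial.eval_X,
      Polynomial.eval_comp, Polynomial.eval_ofNat, Polynomial.eval_natCast, Nat.cast_id]
    have := Nat.mul_le_mul_right ((∑ c, q c).eval (2 * size ρ) + Fintype.card C + 13)
      (length_le_size ρ j)
    omega

theorem goodX_letw {m : ℕ} {F : (Fin m → List C) → List C} {G : (Fin (m + 1) → List C) → List C}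
    (hF : GoodX tm F) (hG : GoodX tm G) : GoodX tm (fun ρ => G (Matrix.vecCons (F ρ) ρ)) := by
  obtain ⟨⟨b1, hb1⟩, q1, h1⟩ := hF
  obtain ⟨⟨b2, hb2⟩, q2, h2⟩ := hG
  have hsz : ∀ (ρ : Fin m → List C), size (Matrix.vecCons (F ρ) ρ) ≤
      (b1 + Polynomial.X).eval (size ρ) := by
    intro ρ
    rw [size_cons]
    simp only [Polynomial.eval_add, Polynomial.eval_X]
    have := hb1 ρ
    omega
  refine ⟨⟨b2.comp (b1 + Polynomial.X), fun ρ => ?_⟩,
    q1 + q2.comp (b1 + Polynomial.X) + 3 * b1 + 2, fun vm o s hv ho hvo => ?_⟩
  · rw [Polynomial.eval_comp]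
    exact (hb2 _).trans (poly_eval_mono _ (hsz ρ))
  · obtain ⟨p1, hp1⟩ := h1 vm s (s + 1) (fun i => by have := hv i; omega) (by omega)
      (fun i => by have := hv i; omega)
    obtain ⟨p2, hp2⟩ := h2 (Matrix.vecCons s vm) o (s + 1)
      (by
        intro i
        refine Fin.cases ?_ (fun i => ?_) i
        · simp
        · have := hv i; simp; omega) (by omega)
      (by
        intro i
        refine Fin.cases ?_ (fun i => ?_) i
        · simp; omega
        · simpa using hvo i)
    refine ⟨.seq p1 (.seq p2 (liftN (clearP s))), fun ρ S r hS hs => ?_⟩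
    obtain ⟨r', t, ht, hr⟩ := hp1 ρ S r hS (fun j hj => hs j (by omega))
    rw [hs s le_rfl, List.append_nil] at hr
    obtain ⟨r'', t', ht', hr'⟩ := hp2 (Matrix.vecCons (F ρ) ρ) (update S s (F ρ).reverse) r'
      (by
        intro i
        refine Fin.cases ?_ (fun i => ?_) i
        · simp
        · simp only [Matrix.cons_val_succ]
          rw [update_of_ne (by have := hv i; omega)]
          exact hS i)
      (fun j hj => by rw [update_of_ne (by omega)]; exact hs j (by omega))
    rw [update_of_ne (show o ≠ s by omega)] at hr'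
    obtain ⟨t3, ht3, hr3⟩ := clearP_run (C := C) s (update (update S s (F ρ).reverse) o
      ((G (Matrix.vecCons (F ρ) ρ)).reverse ++ S o)) r''.1
    have e : update (update (update S s (F ρ).reverse) o
      ((G (Matrix.vecCons (F ρ) ρ)).reverse ++ S o)) s [] =
        update S o ((G (Matrix.vecCons (F ρ) ρ)).reverse ++ S o) := by
      funext k
      simp only [Function.update_apply]
      split_ifs
      all_goals first
        | rfl
        | omega
        | (subst_vars; first | rfl | exact hs _ (by omega) | exact (hs _ (by omega)).symm)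
    rw [e] at hr3
    have hr3 := liftN_run hr3 r''.2
    have e2 : (update (update S s (F ρ).reverse) o
      ((G (Matrix.vecCons (F ρ) ρ)).reverse ++ S o) s).length = (F ρ).length := by
      rw [update_of_ne (by omega), update_self, List.length_reverse]
    rw [e2] at ht3
    refine ⟨_, t + (t' + t3), ?_, RunN.seq hr (RunN.seq hr' hr3)⟩
    simp only [Polynomial.eval_add, Polynomial.eval_mul, Polynomial.eval_comp,
      Polynomial.eval_ofNat]
    have a1 := ht'.trans (poly_eval_mono q2 (hsz ρ))
    have a2 := hb1 ρ
    simp only [Polynomial.eval_add] at a1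
    omega

theorem goodX_caseLast [Fintype C] {m : ℕ} (j : Fin m)
    (F : Option C → (Fin m → List C) → List C) (h : ∀ c, GoodX tm (F c)) :
    GoodX tm (fun ρ : Fin m → List C => F (ρ j).getLast? ρ) := by
  have h1 := fun c => (h c).1
  have h2 := fun c => (h c).2
  choose b hb using h1
  choose q hq using h2
  clear h
  refine ⟨⟨∑ c, b c, fun ρ => ?_⟩,
    (∑ c, q c) + ((3 + Fintype.card (Option C) : ℕ) : Polynomial ℕ), fun vm o s hv ho hvo => ?_⟩
  · refine (hb _ ρ).trans ?_
    rw [Polynomial.eval_finsetSum]
    exact Finset.single_le_sum (f := fun c => (b c).eval (size ρ))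
      (fun _ _ => Nat.zero_le _) (Finset.mem_univ _)
  · choose P hP using fun c => hq c vm o s hv ho hvo
    refine ⟨.seq (popN (vm j))
      (switchN (fun r : AM C tm => some r.1) (fun c : Option C =>
        match c with
        | none => P none
        | some c => .seq (.prog (.push (.inl (vm j)) (fun _ => c))) (P (some c)))
        (Finset.univ : Finset (Option C)).toList), fun ρ S r hS hs => ?_⟩
    have h0 := popN_run (tm := tm) (vm j) r S
    have e1 : (S (vm j)).head? = (ρ j).getLast? := by
      rw [hS, List.head?_reverse]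
    rw [e1] at h0
    have hlt : ∀ c, (q c).eval (size ρ) ≤ (∑ c, q c).eval (size ρ) := by
      intro c
      rw [Polynomial.eval_finsetSum]
      exact Finset.single_le_sum (f := fun c => (q c).eval (size ρ))
        (fun _ _ => Nat.zero_le _) (Finset.mem_univ c)
    have hcase : ∃ r' t, t ≤ (∑ c, q c).eval (size ρ) + 1 ∧
        RunN ((fun c : Option C =>
          match c with
          | none => P none
          | some c => .seq (.prog (.push (.inl (vm j)) (fun _ => c))) (P (some c)))
            (ρ j).getLast?)
          ((ρ j).getLast?, r.2) (update S (vm j) (S (vm j)).tail) r'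
          (update S o ((F (ρ j).getLast? ρ).reverse ++ S o)) t := by
      rcases hl : (ρ j).getLast? with _ | c
      · have e : ρ j = [] := List.getLast?_eq_none_iff.1 hl
        have e2 : update S (vm j) (S (vm j)).tail = S := by
          have : S (vm j) = [] := by rw [hS, e]; rfl
          rw [this, List.tail_nil, ← this, update_eq_self]
        rw [e2]
        obtain ⟨r', t, ht, hr⟩ := hP none ρ S (none, r.2) hS hs
        exact ⟨r', t, by have := hlt none; omega, hr⟩
      · obtain ⟨l, hl'⟩ := List.getLast?_eq_some_iff.1 hl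
        have e : S (vm j) = c :: l.reverse := by rw [hS, hl']; simp
        obtain ⟨r', t, ht, hr⟩ := hP (some c) ρ S (some c, r.2) hS hs
        have h3 := RunN.push (tm := tm) (vm j) (fun _ => c) (some c, r.2)
          (update S (vm j) (S (vm j)).tail)
        have e2 : update (update S (vm j) (S (vm j)).tail) (vm j)
            (c :: update S (vm j) (S (vm j)).tail (vm j)) = S := by
          rw [update_idem, update_self, e, List.tail_cons, ← e, update_eq_self]
        rw [e2] at h3
        exact ⟨r', 1 + t, by have := hlt (some c); omega, RunN.seq h3 hr⟩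
    obtain ⟨r', t, ht, hr⟩ := hcase
    obtain ⟨t', ht', hr'⟩ := switchN_run
      (fun r : AM C tm => some r.1) (fun c : Option C =>
        match c with
        | none => P none
        | some c => .seq (.prog (.push (.inl (vm j)) (fun _ => c))) (P (some c)))
      (a := (ρ j).getLast?) (v := ((ρ j).getLast?, r.2)) rfl hr
      (Finset.univ : Finset (Option C)).toList (by simp)
    refine ⟨r', 1 + t', ?_, RunN.seq h0 hr'⟩
    rw [Finset.length_toList, Finset.card_univ] at ht'
    simp only [Polynomial.eval_add, Polynomial.eval_natCast, Nat.cast_id]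
    omega

end

end Pool.Agent.H2XG
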