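import Pool.Agent.Helper2_XG.Emb

/-!
# Programs with word variables which may call finitely many machines
-/

set_option autoImplicit false

namespace Pool.Agent.H2XG

open Turing Function Computability StateTransition Pool.Agent.Helper32_Poly Pool.Agent.UT

/-- stacks: word variables and the stacks of the machines -/
abbrev AK (A : Type) {ι : Type} (tm : ι → FinTM2) : Type := A ⊕ (Σ i, (tm i).K)

/-- alphabets of the stacks -/
abbrev AG (C A : Type) {ι : Type} (tm : ι → FinTM2) : AK A tm → Type
  | .inl _ => C
  | .inr p => (tm p.1).Γ p.2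

/-- memory: a register for a letter, and the memories of the machines -/
abbrev AM (C : Type) {ι : Type} (tm : ι → FinTM2) : Type := Option C × (∀ i, CallMem (tm i))

/-- programs -/
abbrev XP (C A : Type) {ι : Type} (tm : ι → FinTM2) : Type := XProg (AG C A tm) (AM C tm)

section

variable {C A : Type} {ι : Type} (tm : ι → FinTM2)

/-- stacks of the machines are empty -/
def mk (S : A → List C) : ∀ k, List (AG C A tm k)
  | .inl a => S a
  | .inr _ => []

instance instDecK [DecidableEq A] [DecidableEq ι] : DecidableEq (AK A tm) := inferInstance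

variable [DecidableEq A] [DecidableEq ι]

theorem update_mk (S : A → List C) (k : A) (l : List C) :
    update (mk tm S) (.inl k) l = mk tm (update S k l) := by
  funext j
  rcases j with j | j
  · by_cases h : j = k
    · subst h; simp [mk]
    · have h' : (Sum.inl j : AK A tm) ≠ Sum.inl k := fun e => h (Sum.inl.inj e)
      rw [update_of_ne h']
      simp [mk, h]
  · rw [update_of_ne (by simp)]
    rfl

variable {tm}

/-- Big-step semantics when all stacks of the machines are empty before and after. -/
def RunN (p : XP C A tm) (r : AM C tm) (S : A → List C) (r' : AM C tm) (S' : A → List C)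
    (t : ℕ) : Prop :=
  XProg.Run p r (mk tm S) r' (mk tm S') t

theorem RunN.push (k : A) (f : AM C tm → C) (r : AM C tm) (S : A → List C) :
    RunN (.prog (.push (.inl k) f) : XP C A tm) r S r (update S k (f r :: S k)) 1 := by
  unfold RunN
  rw [← update_mk]
  exact XProg.Run.prog (Prog.Run.push (Γ := AG C A tm) (.inl k) f r (mk tm S))

theorem RunN.pop (k : A) (f : AM C tm → Option C → AM C tm) (r : AM C tm) (S : A → List C) :
    RunN (.prog (.pop (.inl k) f) : XP C A tm) r S (f r (S k).head?) (update S k (S k).tail) 1 := by
  unfold RunN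
  rw [← update_mk]
  exact XProg.Run.prog (Prog.Run.pop (Γ := AG C A tm) (.inl k) f r (mk tm S))

theorem RunN.load (f : AM C tm → AM C tm) (r : AM C tm) (S : A → List C) :
    RunN (.prog (.load f) : XP C A tm) r S (f r) S 1 :=
  XProg.Run.prog (Prog.Run.load (Γ := AG C A tm) f r (mk tm S))

theorem RunN.seq {p q : XP C A tm} {v S v' S' v'' S'' t t'} (h : RunN p v S v' S' t)
    (h' : RunN q v' S' v'' S'' t') : RunN (.seq p q) v S v'' S'' (t + t') :=
  XProg.Run.seq h h'

theorem RunN.ite_true {c} {p q : XP C A tm} {v S v' S' t} (hc : c v = true)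
    (h : RunN p v S v' S' t) : RunN (.ite c p q) v S v' S' (1 + t) :=
  XProg.Run.ite_true hc h

theorem RunN.ite_false {c} {p q : XP C A tm} {v S v' S' t} (hc : c v = false)
    (h : RunN q v S v' S' t) : RunN (.ite c p q) v S v' S' (1 + t) :=
  XProg.Run.ite_false hc h

theorem RunN.loop_false {c} {p : XP C A tm} {v} (S : A → List C) (hc : c v = false) :
    RunN (.loop c p) v S v S 1 :=
  XProg.Run.loop_false _ hc

theorem RunN.loop_true {c} {p : XP C A tm} {v S v' S' v'' S'' t t'} (hc : c v = true)
    (h : RunN p v S v' S' t) (h' : RunN (.loop c p) v' S' v'' S'' t') :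
    RunN (.loop c p) v S v'' S'' (1 + t + t') :=
  XProg.Run.loop_true hc h h'

/-- a program of generators as a program -/
def liftN (p : Prog (fun _ : A => C) (Option C)) : XP C A tm :=
  .prog (embP (Sum.inl : A → AK A tm) (AG C A tm)
    (memP (fun r : AM C tm => r.1) (fun r s => (s, r.2)) p))

theorem liftN_run {p : Prog (fun _ : A => C) (Option C)} {r : Option C} {S : A → List C}
    {r' : Option C} {S' : A → List C} {t : ℕ} (h : Prog.Run p r S r' S' t)
    (m : ∀ i, CallMem (tm i)) : RunN (liftN p : XP C A tm) (r, m) S (r', m) S' t := by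
  have h1 := memP_run (Γ := fun _ : A => C) (g := fun r : AM C tm => r.1)
    (p := fun r s => (s, r.2)) (fun _ _ => rfl) (fun _ _ _ => rfl) (fun _ => rfl) h (r, m) rfl
  obtain ⟨S'', h2, h3, h4⟩ := embP_run (Sum.inl : A → AK A tm) (Γ := AG C A tm) Sum.inl_injective
    h1 (mk tm S) rfl
  have e : S'' = mk tm S' := by
    funext k
    rcases k with k | k
    · exact congrFun h3 k
    · exact h4 (.inr k) (fun j => by simp)
  subst e
  exact XProg.Run.prog h2

/-- do nothing -/
def skipN : XP C A tm := .prog (.load id)

theorem skipN_run (r : AM C tm) (S : A → List C) : RunN (skipN : XP C A tm) r S r S 1 :=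
  RunN.load id r S

open Classical in
/-- case distinction over a finite list of letters -/
noncomputable def switchN {B : Type} (get : AM C tm → Option B) (p : B → XP C A tm) :
    List B → XP C A tm
  | [] => skipN
  | a :: l => .ite (fun v => decide (get v = some a)) (p a) (switchN get p l)

theorem switchN_run {B : Type} (get : AM C tm → Option B) (p : B → XP C A tm) {a : B}
    {v : AM C tm} {S : A → List C} {v' : AM C tm} {S' : A → List C} {t : ℕ}
    (hv : get v = some a) (h : RunN (p a) v S v' S' t) : ∀ (l : List B), a ∈ l →
    ∃ t', t' ≤ t + l.length ∧ RunN (switchN get p l) v S v' S' t'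
  | [], hl => by simp at hl
  | b :: l, hl => by
    by_cases hb : b = a
    · subst hb
      refine ⟨1 + t, by simp; omega, ?_⟩
      exact RunN.ite_true (by simp [hv]) h
    · have hl' : a ∈ l := by
        rcases List.mem_cons.1 hl with h | h
        · exact absurd h.symm hb
        · exact h
      obtain ⟨t', ht', hr⟩ := switchN_run get p hv h l hl'
      refine ⟨1 + t', by simp; omega, ?_⟩
      refine RunN.ite_false ?_ hr
      simp [hv, Ne.symm hb]

/-- read the top letter of stack `k` -/
def popN (k : A) : XP C A tm := .prog (.pop (.inl k) (fun r o => (o, r.2)))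

theorem popN_run (k : A) (r : AM C tm) (S : A → List C) :
    RunN (popN k : XP C A tm) r S ((S k).head?, r.2) (update S k (S k).tail) 1 :=
  RunN.pop k (fun r o => (o, r.2)) r S

/-- pop the letters of stack `k` one after the other and run `p` for each of them -/
def forEachN (k : A) (p : XP C A tm) : XP C A tm :=
  .seq (popN k) (.loop (fun v => v.1.isSome) (.seq p (popN k)))

theorem forEachN_run (k : A) (p : XP C A tm)
    (I : List C → AM C tm → (A → List C) → Prop) (T : ℕ)
    (step : ∀ a l v S, I (a :: l) v S → S k = a :: l → ∃ v' S' t, t ≤ T ∧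
      RunN p (some a, v.2) (update S k l) v' S' t ∧ I l v' S' ∧ S' k = l) :
    ∀ (l : List C) (v : AM C tm) (S : A → List C), S k = l → I l v S →
      ∃ v' S' t, t ≤ l.length * (T + 2) + 2 ∧
        RunN (forEachN k p) v S (none, v'.2) S' t ∧ I [] v' S' ∧ S' k = [] := by
  -- the loop
  have key : ∀ (l : List C) (v : AM C tm) (S : A → List C), S k = l → I l v S →
      ∃ v' S' t, t ≤ l.length * (T + 2) + 1 ∧
        RunN (.loop (fun v => v.1.isSome) (.seq p (popN k)))
          (l.head?, v.2) (update S k l.tail) (none, v'.2) S' t ∧ I [] v' S' ∧ S' k = [] := by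
    intro l
    induction l with
    | nil =>
      intro v S hS hI
      refine ⟨v, S, 1, by simp, ?_, hI, hS⟩
      have : update S k ([] : List C).tail = S := by
        rw [List.tail_nil, ← hS, Function.update_eq_self]
      rw [this]
      exact RunN.loop_false _ (by simp)
    | cons a l ih =>
      intro v S hS hI
      obtain ⟨v', S', t, ht, hr, hI', hS'⟩ := step a l v S hI hS
      obtain ⟨v'', S'', t', ht', hr', hI'', hS''⟩ := ih v' S' hS' hI'
      refine ⟨v'', S'', 1 + (t + 1) + t', ?_, ?_, hI'', hS''⟩
      · simp only [List.length_cons]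
        have : (l.length + 1) * (T + 2) = l.length * (T + 2) + (T + 2) := by ring
        omega
      · have h1 := popN_run k v' S'
        rw [hS'] at h1
        exact RunN.loop_true (by simp) (RunN.seq hr h1) hr'
  intro l v S hS hI
  obtain ⟨v', S', t, ht, hr, hI', hS'⟩ := key l v S hS hI
  refine ⟨v', S', 1 + t, by omega, ?_, hI', hS'⟩
  refine RunN.seq ?_ hr
  have h1 := popN_run k v S
  rw [hS] at h1
  exact h1

end

end Pool.Agent.H2XG
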